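import Pool.Agent.H41.FRM.Cmp
import Pool.Agent.H35.MICA.Pth
import Pool.Agent.H87.STAT.Nrm
import Pool.Agent.H20.KAL.TAY

/-!
# P4, lines over a closed frame: calculus

Points near to one system are near to another one, two systems near to a third one, Taylor
differences of a polynomial on a short window, differences of the values of a polynomial whose
coefficients are small outside the linear part.
-/

set_option autoImplicit false

namespace Pool.P4L

open Finset Real MvPolynomial
open Pool.STAT Pool.MIC.Frm Pool.FRM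
open Pool.SYS35 (nrm_nonneg')

/-! ### Points -/

/-- A point in the natural box of `Φ`, in the chart of `P`. -/
theorem near_pt {n K : ℕ} {g : ℕ → ℕ} {Φ P : ℕ → PN} {E W : ℝ} (hΦ : TriN Φ) (hP : TriN P)
    (dF : ∀ l ≤ n, (chr P (Φ l - P l)).totalDegree ≤ K) (hE : 1 ≤ E) (hW : W = 4 * E)
    (hn : ∀ l ≤ n, nrm g (1 / 2) (chr P (Φ l - P l)) ≤ E / 2 ^ g l) {x : ℕ → ℝ}
    (hx : ∀ l ≤ n, |nat g Φ x l| ≤ E) : ∀ l ≤ n, |zs P x l| ≤ W ^ dd K l / 2 ^ g l := by
  have hW4 : 4 ≤ W := by linarith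
  intro l
  induction l using Nat.strong_induction_on with
  | _ l ih =>
    intro hl
    have h0 : (0 : ℝ) < 2 ^ g l := by positivity
    have e1 : zs P x l = eval (zs P x) (chr P (Φ l - P l)) + nat g Φ x l / 2 ^ g l := by
      rw [chr_eval hP, map_sub]
      unfold zs nat
      field_simp
      ring
    have h2 : |nat g Φ x l / 2 ^ g l| ≤ E / 2 ^ g l := by
      rw [abs_div, abs_of_pos h0]
      exact div_le_div_of_nonneg_right (hx l hl) h0.le
    rw [e1]
    rcases Nat.eq_zero_or_pos l with h | h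
    · subst h
      have h1 := eval_le_nrm (n := 0) (K := K) (F := chr P (Φ 0 - P 0))
        (chr_vars hP (AdxRow.vars_sub_le (hΦ 0) (hP 0))) (dF 0 hl) g (B := 1) le_rfl
        (b := zs P x) (fun i hi => absurd hi (Nat.not_lt_zero _))
      rw [one_pow, one_mul] at h1
      have h3 := h1.trans (hn 0 hl)
      refine (abs_add_le _ _).trans ((add_le_add h3 h2).trans ?_)
      rw [← add_div]
      refine div_le_div_of_nonneg_right ?_ h0.le
      calc E + E ≤ W := by linarith
        _ = W ^ 1 := (pow_one W).symm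
        _ ≤ W ^ dd K 0 := pow_le_pow_right₀ (by linarith) (dd_pos K 0)
    · obtain ⟨m, rfl⟩ : ∃ m, l = m + 1 := ⟨l - 1, by omega⟩
      have hB : (1 : ℝ) ≤ W ^ dd K m := one_le_pow₀ (by linarith)
      have h1 := eval_le_nrm (n := m + 1) (K := K) (F := chr P (Φ (m + 1) - P (m + 1)))
        (chr_vars hP (AdxRow.vars_sub_le (hΦ (m + 1)) (hP (m + 1)))) (dF (m + 1) hl) g hB
        (b := zs P x) fun k hk => (ih k hk (by omega)).trans
          (div_le_div_of_nonneg_right (pow_le_pow_right₀ (by linarith) (dd_mono (by omega)))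
            (by positivity))
      have h3 : |eval (zs P x) (chr P (Φ (m + 1) - P (m + 1)))| ≤
          (W ^ dd K m) ^ K * E / 2 ^ g (m + 1) := by
        refine h1.trans ?_
        rw [mul_div_assoc]
        exact mul_le_mul_of_nonneg_left (hn (m + 1) hl) (by positivity)
      refine (abs_add_le _ _).trans ((add_le_add h3 h2).trans ?_)
      rw [← add_div]
      exact div_le_div_of_nonneg_right (sz1 hE hW) h0.le

/-- Two systems near to a third one. -/
theorem sys_near (K : ℕ) : ∀ m : ℕ, ∃ (C : ℝ) (N : ℕ), 1 ≤ C ∧ ∀ (g : ℕ → ℕ)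
    (Φ P Q : ℕ → PN) (B : ℝ), TriN Φ → TriN P → TriN Q → (∀ l, (Φ l).totalDegree ≤ K) →
    (∀ l, (P l).totalDegree ≤ K) → (∀ l, (Q l).totalDegree ≤ K) → 1 ≤ B →
    (∀ l < m, nrm g (1 / 2) (chr P (Φ l - P l)) ≤ B / 2 ^ g l) →
    (∀ l < m, nrm g (1 / 2) (chr Q (Φ l - Q l)) ≤ B / 2 ^ g l) →
    ∀ l < m, nrm g (1 / 2) (chr Q (P l - Q l)) ≤ C * B ^ N / 2 ^ g l := by
  intro m
  induction m with
  | zero =>
    exact ⟨1, 0, le_rfl, fun _ _ _ _ _ _ _ _ _ _ _ _ _ _ l hl => absurd hl (Nat.not_lt_zero _)⟩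
  | succ m ih =>
    obtain ⟨C, N, hC, h⟩ := ih
    obtain ⟨Cs, Ds, hCs, hs⟩ := step m K
    refine ⟨C + Cs * C ^ Ds + 1, N * Ds + N + 1, by
      have : 0 ≤ Cs * C ^ Ds := by positivity
      linarith, ?_⟩
    intro g Φ P Q B hΦ hP hQ dΦ dP dQ hB h1 h2 l hl
    have ih' := h g Φ P Q B hΦ hP hQ dΦ dP dQ hB (fun l hl => h1 l (by omega))
      (fun l hl => h2 l (by omega))
    have hB0 : 0 < B := by linarith
    have hBN : 1 ≤ B ^ N := one_le_pow₀ hB
    have p1 : B ^ N ≤ B ^ (N * Ds + N + 1) := pow_le_pow_right₀ hB (by omega)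
    have h0 : 0 ≤ Cs * C ^ Ds := by positivity
    rcases Nat.lt_succ_iff_lt_or_eq.1 hl with hlt | rfl
    · refine (ih' l hlt).trans (div_le_div_of_nonneg_right ?_ (by positivity))
      exact mul_le_mul (by linarith) p1 (by positivity) (by positivity)
    · have hS : ∀ b : ℕ → ℝ, (∀ k < l, |nat g P b k| ≤ 1) → |eval b (P l - Φ l)| ≤ B / 2 ^ g l := by
        intro b hb
        have e : eval b (P l - Φ l) = - eval (zs P b) (chr P (Φ l - P l)) := by
          rw [chr_eval hP, map_sub, map_sub]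
          ring
        rw [e, abs_neg]
        have h3 := eval_le_nrm (n := l) (K := (chr P (Φ l - P l)).totalDegree)
          (F := chr P (Φ l - P l)) (chr_vars hP (AdxRow.vars_sub_le (hΦ l) (hP l))) le_rfl g
          (B := 1) le_rfl (b := zs P b) (fun i hi => by
            have h4 := hb i hi
            rw [nat_eq, abs_mul, abs_of_pos (by positivity : (0 : ℝ) < 2 ^ g i)] at h4
            rw [le_div_iff₀ (by positivity), mul_comm]
            exact h4)
        rw [one_pow, one_mul] at h3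
        exact h3.trans (h1 l hl)
      have hCB : 1 ≤ C * B ^ N := by nlinarith
      have h3 := hs g P Q (P l - Φ l) (B / 2 ^ g l) (C * B ^ N) hP hQ (fun i _ => dP i)
        (fun i _ => dQ i) (AdxRow.vars_sub_le (hP l) (hΦ l))
        ((totalDegree_sub _ _).trans (max_le (dP l) (dΦ l))) hCB (fun k hk => ih' k hk) hS
      have e1 : chr Q (P l - Q l) = chr Q (P l - Φ l) + chr Q (Φ l - Q l) := by
        rw [← chr_add]
        congr 1
        ring
      rw [e1]
      refine (NRM.nrm_add g (by norm_num) _ _).trans ((add_le_add h3 (h2 l hl)).trans ?_)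
      have e2 : Cs * (C * B ^ N) ^ Ds * (B / 2 ^ g l) + B / 2 ^ g l =
          (Cs * C ^ Ds * (B ^ (N * Ds) * B) + B) / 2 ^ g l := by
        rw [mul_pow, ← pow_mul]
        ring
      rw [e2]
      refine div_le_div_of_nonneg_right ?_ (by positivity)
      have p2 : B ^ (N * Ds) * B ≤ B ^ (N * Ds + N + 1) := by
        rw [← pow_succ]
        exact pow_le_pow_right₀ hB (by omega)
      have p3 : B ≤ B ^ (N * Ds + N + 1) := by
        calc B = B ^ 1 := (pow_one B).symm
          _ ≤ _ := pow_le_pow_right₀ hB (by omega)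
      have p4 : Cs * C ^ Ds * (B ^ (N * Ds) * B) ≤ Cs * C ^ Ds * B ^ (N * Ds + N + 1) :=
        mul_le_mul_of_nonneg_left p2 h0
      have p5 : 0 ≤ C * B ^ (N * Ds + N + 1) := by positivity
      have e3 : (C + Cs * C ^ Ds + 1) * B ^ (N * Ds + N + 1) = C * B ^ (N * Ds + N + 1) +
        Cs * C ^ Ds * B ^ (N * Ds + N + 1) + B ^ (N * Ds + N + 1) := by ring
      rw [e3]
      linarith

/-! ### Taylor -/

/-- Differences of a polynomial which is bounded on a long window. -/
theorem tay (N : ℕ) : ∃ C : ℝ, 1 ≤ C ∧ ∀ (Q : Polynomial ℝ) (t₀ h ρ A : ℝ), Q.natDegree ≤ N →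
    0 ≤ h → 0 < ρ → h ≤ ρ → (∀ t, t₀ ≤ t → t ≤ t₀ + ρ → |Q.eval t| ≤ A) → ∀ s, 0 ≤ s → s ≤ 1 →
    |Q.eval (t₀ + s * h) - Q.eval t₀| ≤ C * A * (h / ρ) ∧
    |Q.eval (t₀ + s * h) - Q.eval t₀ - s * (Q.eval (t₀ + h) - Q.eval t₀)| ≤
      C * A * (h / ρ) ^ 2 := by
  obtain ⟨C, hC, hcb⟩ := Pool.KAL.TAY.coef_bound N
  refine ⟨(N + 1) * C + 1, by
    have : 0 ≤ ((N : ℝ) + 1) * C := by positivity
    linarith, ?_⟩
  intro Q t₀ h ρ A hN h0 hρ hhρ hA s s0 s1
  have hA0 : 0 ≤ A := (abs_nonneg _).trans (hA t₀ le_rfl (by linarith))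
  obtain ⟨q, hq⟩ : ∃ q : Polynomial ℝ, q = Q.comp (Polynomial.C t₀ + Polynomial.C ρ *
    Polynomial.X) := ⟨_, rfl⟩
  have hev : ∀ u, q.eval u = Q.eval (t₀ + ρ * u) := fun u => by
    rw [hq, Polynomial.eval_comp, Polynomial.eval_add, Polynomial.eval_C, Polynomial.eval_mul,
      Polynomial.eval_C, Polynomial.eval_X]
  have hqd : q.natDegree ≤ N := by
    rw [hq]
    refine Polynomial.natDegree_comp_le.trans ?_
    have h1 : (Polynomial.C t₀ + Polynomial.C ρ * Polynomial.X : Polynomial ℝ).natDegree ≤ 1 := by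
      refine (Polynomial.natDegree_add_le _ _).trans (max_le ?_ ?_)
      · rw [Polynomial.natDegree_C]
        exact Nat.zero_le _
      · exact (Polynomial.natDegree_C_mul_le _ _).trans Polynomial.natDegree_X_le
    calc Q.natDegree * _ ≤ N * 1 := Nat.mul_le_mul hN h1
      _ = N := mul_one N
  have hco : ∀ m ≤ N, |q.coeff m| ≤ C * A := hcb q A hqd fun u u0 u1 => by
    rw [hev]
    exact hA _ (by nlinarith) (by nlinarith)
  obtain ⟨e, he⟩ : ∃ e, e = h / ρ := ⟨_, rfl⟩
  have he0 : 0 ≤ e := by rw [he]; positivity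
  have he1 : e ≤ 1 := by rw [he, div_le_one hρ]; exact hhρ
  have hre : ∀ u : ℝ, ρ * (u * e) = u * h := fun u => by
    rw [he]
    field_simp
  have E0 : Q.eval t₀ = ∑ m ∈ range (N + 1), q.coeff m * 0 ^ m := by
    rw [← Polynomial.eval_eq_sum_range' (Nat.lt_succ_of_le hqd), hev, mul_zero, add_zero]
  have E1 : ∀ u : ℝ, Q.eval (t₀ + u * h) = ∑ m ∈ range (N + 1), q.coeff m * (u * e) ^ m := by
    intro u
    rw [← Polynomial.eval_eq_sum_range' (Nat.lt_succ_of_le hqd), hev, hre]
  have E2 : Q.eval (t₀ + h) = ∑ m ∈ range (N + 1), q.coeff m * e ^ m := by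
    have := E1 1
    rw [one_mul] at this
    rw [this]
    simp only [one_mul]
  rw [← he, E0, E1, E2]
  have hCA : 0 ≤ C * A := by positivity
  constructor
  · rw [← Finset.sum_sub_distrib]
    refine (Finset.abs_sum_le_sum_abs _ _).trans ?_
    have h1 : ∀ m ∈ range (N + 1), |q.coeff m * (s * e) ^ m - q.coeff m * 0 ^ m| ≤ C * A * e := by
      intro m hm
      rw [← mul_sub, abs_mul]
      refine mul_le_mul (hco m (Nat.lt_succ_iff.1 (mem_range.1 hm))) ?_ (abs_nonneg _) hCA
      rcases Nat.eq_zero_or_pos m with rfl | hm0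
      · simp only [pow_zero, sub_self, abs_zero]
        exact he0
      · rw [zero_pow hm0.ne', sub_zero, abs_of_nonneg (by positivity)]
        calc (s * e) ^ m ≤ (s * e) ^ 1 := pow_le_pow_of_le_one (by positivity)
              (by nlinarith) hm0
          _ = s * e := pow_one _
          _ ≤ 1 * e := mul_le_mul_of_nonneg_right s1 he0
          _ = e := one_mul e
    refine (Finset.sum_le_sum h1).trans ?_
    rw [Finset.sum_const, card_range, nsmul_eq_mul]
    push_cast
    have : 0 ≤ A * e := by positivity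
    nlinarith
  · have e3 : (∑ m ∈ range (N + 1), q.coeff m * (s * e) ^ m) -
        (∑ m ∈ range (N + 1), q.coeff m * 0 ^ m) -
        s * ((∑ m ∈ range (N + 1), q.coeff m * e ^ m) -
          ∑ m ∈ range (N + 1), q.coeff m * 0 ^ m) =
        ∑ m ∈ range (N + 1), q.coeff m * ((s * e) ^ m - 0 ^ m - s * (e ^ m - 0 ^ m)) := by
      rw [← Finset.sum_sub_distrib, ← Finset.sum_sub_distrib, Finset.mul_sum,
        ← Finset.sum_sub_distrib]
      exact Finset.sum_congr rfl fun m _ => by ring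
    rw [e3]
    refine (Finset.abs_sum_le_sum_abs _ _).trans ?_
    have h1 : ∀ m ∈ range (N + 1), |q.coeff m * ((s * e) ^ m - 0 ^ m - s * (e ^ m - 0 ^ m))| ≤
        C * A * e ^ 2 := by
      intro m hm
      rw [abs_mul]
      refine mul_le_mul (hco m (Nat.lt_succ_iff.1 (mem_range.1 hm))) ?_ (abs_nonneg _) hCA
      rcases Nat.lt_or_ge m 2 with h2 | h2
      · have h3 : (s * e) ^ m - 0 ^ m - s * (e ^ m - 0 ^ m) = 0 := by
          interval_cases m
          · simp
          · simp
        rw [h3, abs_zero]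
        positivity
      · rw [zero_pow (by omega), sub_zero, sub_zero, mul_pow]
        have h4 : s ^ m ≤ s := by
          calc s ^ m ≤ s ^ 1 := pow_le_pow_of_le_one s0 s1 (by omega)
            _ = s := pow_one s
        have h5 : 0 ≤ s ^ m := by positivity
        have h6 : e ^ m ≤ e ^ 2 := pow_le_pow_of_le_one he0 he1 h2
        have h7 : 0 ≤ e ^ m := by positivity
        rw [← sub_mul, abs_mul, abs_of_nonneg h7]
        have h8 : |s ^ m - s| ≤ 1 := by
          rw [abs_le]
          constructor <;> linarith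
        calc |s ^ m - s| * e ^ m ≤ 1 * e ^ 2 := mul_le_mul h8 h6 h7 zero_le_one
          _ = e ^ 2 := one_mul _
    refine (Finset.sum_le_sum h1).trans ?_
    rw [Finset.sum_const, card_range, nsmul_eq_mul]
    push_cast
    have : 0 ≤ A * e ^ 2 := by positivity
    nlinarith

end Pool.P4L
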