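import Pool.Agent.H25.P4.LinC
import Pool.Agent.H14.P4.Stm

/-!
# P4, lines over a closed frame: paths, levels and times of a cell
-/

set_option autoImplicit false

namespace Pool.P4L

open Finset Real MvPolynomial
open Pool.Agent.H49.Ent Pool.Agent.H32.Dense Pool.STK
open Pool.STAT Pool.MIC.Frm Pool.FRM Pool.P4
open Pool.SYS35 (nrm_nonneg')

theorem path_pol {D : NDat2} {K K' : ℕ} (hpa : ∀ x l, (D.pa x l).natDegree ≤ K) {P : ℕ → PN}
    (dP : ∀ l, (P l).totalDegree ≤ K') (x : D.Λ) (l : ℕ) :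
    ∃ R : Polynomial ℝ, R.natDegree ≤ (K' + 1) * (K + 1) ∧
      ∀ t, R.eval t = zs P (pp D x t) l := by
  obtain ⟨f, hf⟩ : ∃ f : ℕ → Polynomial ℝ, f = fun l => if l = 0 then Polynomial.X else
    D.pa x l := ⟨_, rfl⟩
  have hfd : ∀ l, (f l).natDegree ≤ K + 1 := fun l => by
    rw [hf]
    dsimp only
    split_ifs
    · exact Polynomial.natDegree_X_le.trans (by omega)
    · exact (hpa x l).trans (by omega)
  have hfe : ∀ t, (fun i => (f i).eval t) = pp D x t := fun t => by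
    funext i
    rw [hf]
    unfold pp
    dsimp only
    split_ifs
    · exact Polynomial.eval_X
    · rfl
  refine ⟨f l - aeval f (P l), ?_, fun t => ?_⟩
  · refine (Polynomial.natDegree_sub_le _ _).trans (max_le ((hfd l).trans ?_)
      ((Pool.PTH.natDegree_aeval_le' (P l) f hfd (dP l)).trans ?_))
    · exact Nat.le_mul_of_pos_left _ (by omega)
    · exact Nat.mul_le_mul_right _ (by omega)
  · rw [Polynomial.eval_sub, Pool.PTH.eval_aev, hfe]
    unfold zs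
    rw [← congrFun (hfe t) l]

section

variable {D : NDat2} {n K J a₀ w₀ z M : ℕ} {lam gam : ℕ → ℝ} {κ C₁ : ℝ} {q : D.Ω → ℝ}

/-- The path of a sample in the chart of a system. -/
theorem in_box (hO : D.Ok2 n K J a₀ w₀ z M lam gam κ C₁ q) {K₂ : ℕ} (hK : K ≤ K₂) {P : ℕ → PN}
    (hP : TriN P) (dP : ∀ l, (P l).totalDegree ≤ K₂) {i j : ℕ} (hi : i ≤ M) (hj : j ≤ M) {E : ℝ}
    (hE : exp z ≤ E) {ω : D.Ω} (hω : PthC D n w₀ z M 1 ω)
    (near : ∀ l ≤ n, nrm (D.g i j) (1 / 2) (chr P (D.Φ i j ω l - P l)) ≤ E / 2 ^ D.g i j l)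
    {t : ℝ} (ht : |t - D.X ω 0| ≤ 1 / 2 ^ (w₀ + j * z)) :
    ∀ l ≤ n, |zs P (pp D (D.ln ω) t) l| ≤
      (4 * E) ^ dd (K₂ * (K₂ + 1) ^ n) n / 2 ^ D.g i j l := by
  have hE1 : 1 ≤ E := (one_le_exp (Nat.cast_nonneg z)).trans hE
  intro l hl
  refine (near_pt (K := K₂ * (K₂ + 1) ^ n) (W := 4 * E) (Φ := D.Φ i j ω) (hO.P_tri i j _) hP
    (fun l hl => ?_) hE1 rfl near (fun l hl => ?_) l hl).trans
      (div_le_div_of_nonneg_right (pow_le_pow_right₀ (by linarith) (dd_mono hl)) (by positivity))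
  · refine (chr_deg (K := K₂) (K' := K₂) hP (fun k _ => dP k)
      (AdxRow.vars_sub_le (hO.P_tri i j _ l) (hP l)) ((totalDegree_sub _ _).trans
        (max_le ((hO.P_deg i j _ l).trans hK) (dP l)))).trans ?_
    exact Nat.mul_le_mul_left _ (Nat.pow_le_pow_right (by omega) hl)
  · have h := hω i hi j hj l hl t ht
    rw [one_mul] at h
    exact h.trans hE

/-! ### Levels -/

theorem lv_ok (hO : D.Ok2 n K J a₀ w₀ z M lam gam κ C₁ q)
    (hlam : ∀ l, 1 ≤ l → l ≤ n → lam l = 1) {i₁ j₁ i₂ j₂ : ℕ} (hi₁ : i₁ ≤ M) (hj₁ : j₁ ≤ M)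
    (hi₂ : i₂ ≤ M) (hj₂ : j₂ ≤ M) {l : ℕ} (l1 : 1 ≤ l) (ln : l ≤ n) :
    |(D.g i₁ j₁ l : ℝ) - D.g i₂ j₂ l - (((i₁ : ℝ) - i₂) + gam l * ((j₁ : ℝ) - j₂)) * z| ≤
      2 * C₁ * z := by
  have h1 := abs_le.1 (hO.hom i₁ hi₁ j₁ hj₁ l l1 ln)
  have h2 := abs_le.1 (hO.hom i₂ hi₂ j₂ hj₂ l l1 ln)
  rw [hlam l l1 ln] at h1 h2
  rw [abs_le]
  constructor
  · linarith [h1.1, h2.2]
  · linarith [h1.2, h2.1]

theorem lv_of (hO : D.Ok2 n K J a₀ w₀ z M lam gam κ C₁ q)
    (hlam : ∀ l, 1 ≤ l → l ≤ n → lam l = 1) (hC₁ : 0 ≤ C₁) {c : ℕ} (hc : 4 * C₁ + 1 ≤ c)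
    {y r r' r'' a i j : ℕ} (hP : Plc n gam y r r' r'' a M i j) :
    Lv n c y z r a (sl gam n) (gr gam n) (D.g i j) (D.g (i + r') (j - r)) (D.g (i + r'') (j - r))
      (D.g (i - 1) (j - r)) (D.g (i - a) j) := by
  have hz0 : (0 : ℝ) ≤ z := Nat.cast_nonneg z
  have hS := hP.stp
  have i2 := hP.i2
  have j1 := hP.j1
  have j2 := hP.j2
  have a1 := hP.a1
  have r1 : r' ≤ r'' := hS.s5
  have hcz' : (4 * C₁ + 1) * z ≤ c * z := mul_le_mul_of_nonneg_right hc hz0
  have hcz : 4 * C₁ * z + z ≤ c * z := by linarith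
  have hi1 : 1 ≤ i := by
    have h1 := hP.y1
    have h2 := hS.s6
    omega
  have hCz : 0 ≤ C₁ * z := mul_nonneg hC₁ hz0
  have ejr : ((j - r : ℕ) : ℝ) = j - r := by rw [Nat.cast_sub j1]
  have eia : ((i - a : ℕ) : ℝ) = i - a := by rw [Nat.cast_sub a1]
  have ei1 : ((i - 1 : ℕ) : ℝ) = i - 1 := by rw [Nat.cast_sub hi1, Nat.cast_one]
  -- comparison with the four places
  have L0 : ∀ l, 1 ≤ l → l ≤ n → ∀ s : ℕ, i + s ≤ M →
      |(D.g i j l : ℝ) - D.g (i + s) (j - r) l - (-(s : ℝ) + gam l * r) * z| ≤ 2 * C₁ * z := by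
    intro l l1 ln s hs
    have h := lv_ok hO hlam (i₁ := i) (j₁ := j) (i₂ := i + s) (j₂ := j - r) (by omega) (by omega)
      hs (by omega) l1 ln
    rw [ejr] at h
    push_cast at h
    rw [show (i : ℝ) - (i + s) + gam l * (j - (j - r)) = -(s : ℝ) + gam l * r by ring] at h
    exact h
  have L1 : ∀ l, 1 ≤ l → l ≤ n →
      |(D.g i j l : ℝ) - D.g (i - 1) (j - r) l - (1 + gam l * r) * z| ≤ 2 * C₁ * z := by
    intro l l1 ln
    have h := lv_ok hO hlam (i₁ := i) (j₁ := j) (i₂ := i - 1) (j₂ := j - r) (by omega) (by omega)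
      (by omega) (by omega) l1 ln
    rw [ejr, ei1] at h
    rw [show (i : ℝ) - (i - 1) + gam l * (j - (j - r)) = 1 + gam l * r by ring] at h
    exact h
  have L2 : ∀ l, 1 ≤ l → l ≤ n →
      |(D.g i j l : ℝ) - D.g (i - a) j l - (a : ℝ) * z| ≤ 2 * C₁ * z := by
    intro l l1 ln
    have h := lv_ok hO hlam (i₁ := i) (j₁ := j) (i₂ := i - a) (j₂ := j) (by omega) (by omega)
      (by omega) (by omega) l1 ln
    rw [eia] at h
    rw [show (i : ℝ) - (i - a) + gam l * (j - j) = a by ring] at h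
    exact h
  have g0 : D.g i j 0 = w₀ + j * z := hO.g_zero i j
  have g1 : D.g (i - 1) (j - r) 0 = w₀ + (j - r) * z := hO.g_zero (i - 1) (j - r)
  have g2 : D.g (i - a) j 0 = w₀ + j * z := hO.g_zero (i - a) j
  have ej : (j - r) * z + r * z = j * z := by
    rw [← add_mul]
    congr 1
    omega
  have mz : ∀ {x y : ℝ}, x ≤ y → x * z ≤ y * z := fun h => mul_le_mul_of_nonneg_right h hz0
  have s2' : (r' : ℝ) + y ≤ r := by exact_mod_cast hS.s2'
  have s6 : (y : ℝ) ≤ a := by exact_mod_cast hS.s6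
  have hy0 : (0 : ℝ) ≤ y := Nat.cast_nonneg y
  constructor
  · intro l l1 ln
    by_cases h : gam l < thd gam n
    · left
      refine ⟨l1, lt_of_le_of_ne ln fun e => ?_, h⟩
      rw [e] at h
      exact absurd h (not_lt.2 (min_le_left _ _))
    · exact Or.inr ⟨l1, ln, not_lt.1 h⟩
  · rw [g0, g1]
    omega
  · rw [g0, g2]
  · exact hS.s6
  · -- o1
    intro l l1 ln hl
    have e1 := (abs_le.1 (L1 l l1 ln)).2
    have e2 : (gam l * r + y) * z ≤ r * z := mz (by linarith [hS.s1 l hl])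
    have e3 : (D.g i j l : ℝ) + y * z ≤ D.g (i - 1) (j - r) l + r * z + c * z := by linarith
    exact_mod_cast e3
  · -- o2
    intro l l1 ln hl
    have e1 := (abs_le.1 (L1 l l1 ln)).2
    have e2 : (gam l * r + y) * z ≤ (2 * r) * z := mz (by
      have := hS.s3 l hl
      have h5 : (gam l - 1) * r = gam l * r - r := by ring
      linarith)
    have e3 : (D.g i j l : ℝ) + y * z ≤ D.g (i - 1) (j - r) l + 2 * (r * z) + c * z := by linarith
    exact_mod_cast e3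
  · -- l1
    intro l l1 ln hl
    have e1 := (abs_le.1 (L0 l l1 ln r' (by omega))).2
    have e2 : (gam l * r + y) * z ≤ r' * z := mz (hS.s1 l hl)
    have e3 : (D.g i j l : ℝ) + y * z ≤ D.g (i + r') (j - r) l + c * z := by linarith
    exact_mod_cast e3
  · -- l2
    intro l l1 ln hl
    have e1 := (abs_le.1 (L0 l l1 ln r' (by omega))).2
    have e2 : (gam l * r + y) * z ≤ (r' + r) * z := mz (by
      have := hS.s3 l hl
      have h5 : (gam l - 1) * r = gam l * r - r := by ring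
      linarith)
    have e3 : (D.g i j l : ℝ) + y * z ≤ D.g (i + r') (j - r) l + r * z + c * z := by linarith
    exact_mod_cast e3
  · -- m1
    intro l l1 ln
    have e1 := (abs_le.1 (L0 l l1 ln r'' (by omega))).2
    have e2 : (gam l * r + y) * z ≤ r'' * z := mz (by
      have h4 := hS.s4 l l1 ln
      have h5 : 0 ≤ gam l * r := mul_nonneg (hO.gam_ge l) (Nat.cast_nonneg r)
      linarith)
    have e3 : (D.g i j l : ℝ) + y * z ≤ D.g (i + r'') (j - r) l + c * z := by linarith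
    exact_mod_cast e3
  · -- q1
    intro l l1 ln
    have e1 := (abs_le.1 (L2 l l1 ln)).1
    have e3 : (D.g (i - a) j l : ℝ) + a * z ≤ D.g i j l + c * z := by linarith
    exact_mod_cast e3
  · -- q2
    intro l l1 ln
    have e1 := (abs_le.1 (L2 l l1 ln)).2
    have e3 : (D.g i j l : ℝ) ≤ D.g (i - a) j l + a * z + c * z := by linarith
    exact_mod_cast e3
  · -- s1
    intro l k l1 ln k1 kn hl hk
    have e1 := (abs_le.1 (L1 l l1 ln)).2
    have e2 := (abs_le.1 (L1 k k1 kn)).1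
    have e3 : (gam l * r + y) * z ≤ (gam k * r) * z := mz (by
      linarith [hS.s1 l hl, hS.s2 k hk])
    have e4 : (D.g (i - 1) (j - r) k : ℝ) + D.g i j l + y * z ≤
        D.g i j k + D.g (i - 1) (j - r) l + c * z := by linarith
    exact_mod_cast e4
  · -- s2
    intro l k l1 ln k1 kn hl hk
    have e1 := (abs_le.1 (L1 l l1 ln)).2
    have e2 := (abs_le.1 (L1 k k1 kn)).1
    have e3 : (gam l * r + y) * z ≤ (gam k * r + r) * z := mz (by
      have h3 := hS.s3 l hl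
      have h4 := hS.s2 k hk
      have h5 : (gam l - 1) * r = gam l * r - r := by ring
      linarith)
    have e5 : (D.g (i - 1) (j - r) 0 : ℝ) + r * z = D.g i j 0 := by
      have : D.g (i - 1) (j - r) 0 + r * z = D.g i j 0 := by
        rw [g0, g1]
        omega
      exact_mod_cast this
    have e4 : (D.g (i - 1) (j - r) k : ℝ) + D.g (i - 1) (j - r) 0 + D.g i j l + y * z ≤
        D.g i j k + D.g i j 0 + D.g (i - 1) (j - r) l + c * z := by linarith
    exact_mod_cast e4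

/-! ### Times -/

theorem tms (hO : D.Ok2 n K J a₀ w₀ z M lam gam κ C₁ q) {w : ℕ} (hw : w ≤ J) (ω : D.Ω) :
    0 ≤ rt D J w ω ∧ rt D J w ω ≤ 1 ∧ D.X ω 0 = t0 D J w ω + rt D J w ω * (1 / 2 ^ w) := by
  have h1 := Nat.div_add_mod (D.T ω) (2 ^ (J - w))
  have h2 := Nat.mod_lt (D.T ω) (show 0 < 2 ^ (J - w) by positivity)
  have h3 : (2 : ℝ) ^ J = 2 ^ (J - w) * 2 ^ w := by
    rw [← pow_add]
    congr 1
    omega
  have h4 : ((D.T ω / 2 ^ (J - w) * 2 ^ (J - w) : ℕ) : ℝ) + (D.T ω % 2 ^ (J - w) : ℕ) =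
      D.T ω := by
    rw [mul_comm] at h1
    exact_mod_cast h1
  have h5 : D.X ω 0 - t0 D J w ω = (D.T ω % 2 ^ (J - w) : ℕ) / 2 ^ J := by
    rw [hO.X_zero]
    unfold t0
    rw [← sub_div]
    congr 1
    linarith
  have h6 : rt D J w ω = (D.T ω % 2 ^ (J - w) : ℕ) / 2 ^ (J - w) := by
    unfold rt
    rw [h5, h3]
    field_simp
  refine ⟨?_, ?_, ?_⟩
  · rw [h6]
    positivity
  · rw [h6, div_le_one (by positivity)]
    exact_mod_cast h2.le
  · unfold rt
    field_simp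
    ring

theorem t0_congr {J w : ℕ} {ω ω' : D.Ω} (h : D.T ω / 2 ^ (J - w) = D.T ω' / 2 ^ (J - w)) :
    t0 D J w ω = t0 D J w ω' := by
  unfold t0
  rw [h]

end

end Pool.P4L
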