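import Pool.Agent.H25.P4.LinD

/-!
# P4, lines over a closed frame: two samples
-/

set_option autoImplicit false

namespace Pool.P4L

open Finset Real MvPolynomial
open Pool.Agent.H49.Ent Pool.Agent.H32.Dense Pool.STK
open Pool.STAT Pool.MIC.Frm Pool.FRM Pool.P4
open Pool.SYS35 (nrm_nonneg')

/-! ### Powers -/

theorem pw1 {u v p q s : ℕ} {X e E : ℝ} (hX : 0 ≤ X) (he : e ≤ 1 / 2 ^ q)
    (hE : (2 : ℝ) ^ s ≤ E) (h : u + p ≤ v + q + s) : X / 2 ^ v * e ≤ X * E * (1 / 2 ^ p) / 2 ^ u := by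
  have h1 : (2 : ℝ) ^ u * 2 ^ p ≤ 2 ^ v * 2 ^ q * 2 ^ s := by
    rw [← pow_add, ← pow_add, ← pow_add]
    exact pow_le_pow_right₀ one_le_two h
  have h2 : X / 2 ^ v * e ≤ X / 2 ^ v * (1 / 2 ^ q) := mul_le_mul_of_nonneg_left he (by positivity)
  refine h2.trans ?_
  rw [div_mul_div_comm, mul_one, mul_one_div, div_div,
    div_le_div_iff₀ (by positivity) (by positivity)]
  calc X * (2 ^ p * 2 ^ u) = X * (2 ^ u * 2 ^ p) := by ring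
    _ ≤ X * (2 ^ v * 2 ^ q * 2 ^ s) := mul_le_mul_of_nonneg_left h1 hX
    _ ≤ X * (2 ^ v * 2 ^ q * E) :=
        mul_le_mul_of_nonneg_left (mul_le_mul_of_nonneg_left hE (by positivity)) hX
    _ = X * E * (2 ^ v * 2 ^ q) := by ring

theorem pw0 {u v p s : ℕ} {X E : ℝ} (hX : 0 ≤ X) (hE : (2 : ℝ) ^ s ≤ E) (h : u + p ≤ v + s) :
    X / 2 ^ v ≤ X * E * (1 / 2 ^ p) / 2 ^ u := by
  have := pw1 (u := u) (v := v) (p := p) (q := 0) (s := s) (e := 1) hX (by norm_num) hE (by omega)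
  rwa [mul_one] at this

/-! ### From the chart of `Q` to the chart of `P` -/

theorem zs_two {P Q : ℕ → PN} (hQ : TriN Q) (x : ℕ → ℝ) (l : ℕ) :
    zs P x l = zs Q x l - eval (zs Q x) (chr Q (P l - Q l)) := by
  rw [chr_eval hQ, map_sub]
  unfold zs
  ring

section core

variable {N l : ℕ} {P Q : ℕ → PN} {g : ℕ → ℕ} {B S δ : ℝ} {sl : ℕ → Prop}

theorem core_one (hQ : TriN Q) (hv : (chr Q (P l - Q l)).vars ⊆ range l)
    (hN : (chr Q (P l - Q l)).totalDegree ≤ N) (hB : 1 ≤ B) (hS : 0 ≤ S) (hδ : 0 ≤ δ)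
    (hF : ∀ α, Sm g l (chr Q (P l - Q l)) S 1 α)
    (hs : ∀ α ∈ exs l N, (∃ k, 1 ≤ k ∧ α k ≠ 0) → (∀ k, 1 ≤ k → α k ≠ 0 → ¬ sl k) →
      Sm g l (chr Q (P l - Q l)) S δ α) {x x' : ℕ → ℝ}
    (hb : ∀ i < l, |zs Q x i| ≤ B / 2 ^ g i) (hb' : ∀ i < l, |zs Q x' i| ≤ B / 2 ^ g i)
    (h0 : zs Q x 0 = zs Q x' 0)
    (hsb : ∀ i < l, sl i → |zs Q x i| ≤ B * δ / 2 ^ g i)
    (hsb' : ∀ i < l, sl i → |zs Q x' i| ≤ B * δ / 2 ^ g i)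
    (hl : |zs Q x l| ≤ B * δ / 2 ^ g l) (hl' : |zs Q x' l| ≤ B * δ / 2 ^ g l) :
    |zs P x l - zs P x' l| ≤ (2 * B + (exs l N).card * (2 * B ^ (l * N) * S)) * δ / 2 ^ g l := by
  have h1 := diff_one hv hN hB hS hδ sl hF hs hb hb' h0 hsb hsb'
  rw [zs_two hQ, zs_two hQ x']
  have e : zs Q x l - eval (zs Q x) (chr Q (P l - Q l)) -
      (zs Q x' l - eval (zs Q x') (chr Q (P l - Q l))) =
      (zs Q x l - zs Q x' l) - (eval (zs Q x) (chr Q (P l - Q l)) -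
        eval (zs Q x') (chr Q (P l - Q l))) := by ring
  rw [e]
  have h2 := abs_sub (zs Q x l) (zs Q x' l)
  refine (abs_sub _ _).trans ?_
  have e2 : (2 * B + (exs l N).card * (2 * B ^ (l * N) * S)) * δ / 2 ^ g l =
      B * δ / 2 ^ g l + B * δ / 2 ^ g l +
        (exs l N).card * (2 * B ^ (l * N) * S) * δ / 2 ^ g l := by ring
  rw [e2]
  linarith

theorem core_two (hQ : TriN Q) (hv : (chr Q (P l - Q l)).vars ⊆ range l)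
    (hN : (chr Q (P l - Q l)).totalDegree ≤ N) (hB : 1 ≤ B) (hS : 0 ≤ S) (hδ : 0 ≤ δ)
    (hF : ∀ α, Sm g l (chr Q (P l - Q l)) S 1 α)
    (hs : ∀ α ∈ exs l N, (∃ k, 1 ≤ k ∧ α k ≠ 0) → (∀ k, 1 ≤ k → α k ≠ 0 → ¬ sl k) →
      Sm g l (chr Q (P l - Q l)) S δ α ∨ ∃ k, 1 ≤ k ∧ α = Finsupp.single k 1)
    {x x' y y' : ℕ → ℝ}
    (hb : ∀ i < l, |zs Q x i| ≤ B / 2 ^ g i) (hb' : ∀ i < l, |zs Q x' i| ≤ B / 2 ^ g i)
    (hc : ∀ i < l, |zs Q y i| ≤ B / 2 ^ g i) (hc' : ∀ i < l, |zs Q y' i| ≤ B / 2 ^ g i)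
    (h0 : zs Q x 0 = zs Q x' 0) (h0' : zs Q y 0 = zs Q y' 0)
    (hsb : ∀ i < l, sl i → |zs Q x i| ≤ B * δ / 2 ^ g i)
    (hsb' : ∀ i < l, sl i → |zs Q x' i| ≤ B * δ / 2 ^ g i)
    (hsc : ∀ i < l, sl i → |zs Q y i| ≤ B * δ / 2 ^ g i)
    (hsc' : ∀ i < l, sl i → |zs Q y' i| ≤ B * δ / 2 ^ g i)
    (hd : ∀ i ≤ l, 1 ≤ i → ¬ sl i → |zs Q y i - zs Q x i| ≤ B * δ / 2 ^ g i)
    (hd' : ∀ i ≤ l, 1 ≤ i → ¬ sl i → |zs Q y' i - zs Q x' i| ≤ B * δ / 2 ^ g i)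
    (l1 : 1 ≤ l) (hnl : ¬ sl l) :
    |(zs P y l - zs P x l) - (zs P y' l - zs P x' l)| ≤
      (2 * B + (exs l N).card * (4 * B ^ (l * N + 1) * S)) * δ / 2 ^ g l := by
  have h1 := diff_two hv hN hB hS hδ sl hF hs hb hb' hc hc' h0 h0' hsb hsb' hsc hsc'
    (fun i hi => hd i hi.le) (fun i hi => hd' i hi.le)
  rw [zs_two hQ, zs_two hQ x, zs_two hQ y', zs_two hQ x']
  have e : zs Q y l - eval (zs Q y) (chr Q (P l - Q l)) -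
      (zs Q x l - eval (zs Q x) (chr Q (P l - Q l))) -
      (zs Q y' l - eval (zs Q y') (chr Q (P l - Q l)) -
        (zs Q x' l - eval (zs Q x') (chr Q (P l - Q l)))) =
      ((zs Q y l - zs Q x l) - (zs Q y' l - zs Q x' l)) -
        ((eval (zs Q y) (chr Q (P l - Q l)) - eval (zs Q y') (chr Q (P l - Q l))) -
          (eval (zs Q x) (chr Q (P l - Q l)) - eval (zs Q x') (chr Q (P l - Q l)))) := by ring
  rw [e]
  have h2 := abs_sub (zs Q y l - zs Q x l) (zs Q y' l - zs Q x' l)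
  have h3 := hd l le_rfl l1 hnl
  have h4 := hd' l le_rfl l1 hnl
  refine (abs_sub _ _).trans ?_
  have e2 : (2 * B + (exs l N).card * (4 * B ^ (l * N + 1) * S)) * δ / 2 ^ g l =
      B * δ / 2 ^ g l + B * δ / 2 ^ g l +
        (exs l N).card * (4 * B ^ (l * N + 1) * S) * δ / 2 ^ g l := by ring
  rw [e2]
  linarith

end core

/-! ### A cell -/

section

variable {D : NDat2} {n K K' J a₀ w₀ z M : ℕ} {lam gam : ℕ → ℝ} {κ C₁ : ℝ} {q : D.Ω → ℝ}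

/-- Taylor differences of the path of a sample in the chart of a system near to the label at
`(i₁, j₁)`. -/
theorem dif_box (hO : D.Ok2 n K J a₀ w₀ z M lam gam κ C₁ q) {K₂ : ℕ} (hK : K ≤ K₂) {P : ℕ → PN}
    (hP : TriN P) (dP : ∀ l, (P l).totalDegree ≤ K₂) {i j : ℕ} (hi : i ≤ M) (hj : j ≤ M) {E : ℝ}
    (hE : exp z ≤ E) {Ct : ℝ} (hCt : ∀ (Q : Polynomial ℝ) (t₀ h ρ A : ℝ),
      Q.natDegree ≤ (K₂ + 1) * (K + 1) → 0 ≤ h → 0 < ρ → h ≤ ρ →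
      (∀ t, t₀ ≤ t → t ≤ t₀ + ρ → |Q.eval t| ≤ A) → ∀ s, 0 ≤ s → s ≤ 1 →
      |Q.eval (t₀ + s * h) - Q.eval t₀| ≤ Ct * A * (h / ρ) ∧
      |Q.eval (t₀ + s * h) - Q.eval t₀ - s * (Q.eval (t₀ + h) - Q.eval t₀)| ≤
        Ct * A * (h / ρ) ^ 2)
    {ω : D.Ω} (hω : PthC D n w₀ z M 1 ω)
    (near : ∀ l ≤ n, nrm (D.g i j) (1 / 2) (chr P (D.Φ i j ω l - P l)) ≤ E / 2 ^ D.g i j l)
    {w : ℕ} (hw : w ≤ J) (hjw : w₀ + j * z ≤ w) {l : ℕ} (hl : l ≤ n) {s : ℝ} (s0 : 0 ≤ s)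
    (s1 : s ≤ 1) :
    |zs P (pp D (D.ln ω) (t0 D J w ω + s * (1 / 2 ^ w))) l -
      zs P (pp D (D.ln ω) (t0 D J w ω)) l| ≤
      Ct * ((4 * E) ^ dd (K₂ * (K₂ + 1) ^ n) n / 2 ^ D.g i j l) * (1 / 2 ^ (w - (w₀ + j * z))) ∧
    |zs P (pp D (D.ln ω) (t0 D J w ω + s * (1 / 2 ^ w))) l -
      zs P (pp D (D.ln ω) (t0 D J w ω)) l -
      s * (zs P (pp D (D.ln ω) (t0 D J w ω + 1 / 2 ^ w)) l -
        zs P (pp D (D.ln ω) (t0 D J w ω)) l)| ≤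
      Ct * ((4 * E) ^ dd (K₂ * (K₂ + 1) ^ n) n / 2 ^ D.g i j l) *
        (1 / 2 ^ (w - (w₀ + j * z))) ^ 2 := by
  obtain ⟨R, hR, hRe⟩ := path_pol (K := K) (K' := K₂) hO.pa_deg dP (D.ln ω) l
  obtain ⟨r0, r1, rX⟩ := tms hO hw ω
  have e1 : (1 / 2 ^ w : ℝ) / (1 / 2 ^ (w₀ + j * z)) = 1 / 2 ^ (w - (w₀ + j * z)) := by
    have h3 : (2 : ℝ) ^ w = 2 ^ (w - (w₀ + j * z)) * 2 ^ (w₀ + j * z) := by
      rw [← pow_add]
      congr 1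
      omega
    rw [h3]
    field_simp
  have h := hCt R (t0 D J w ω) (1 / 2 ^ w) (1 / 2 ^ (w₀ + j * z))
    ((4 * E) ^ dd (K₂ * (K₂ + 1) ^ n) n / 2 ^ D.g i j l) hR (by positivity) (by positivity)
    (one_div_le_one_div_of_le (by positivity) (pow_le_pow_right₀ one_le_two hjw))
    (fun t t1 t2 => by
      rw [hRe]
      refine in_box hO hK hP dP hi hj hE hω near ?_ l hl
      have h3 : rt D J w ω * (1 / 2 ^ w) ≤ 1 / 2 ^ (w₀ + j * z) := by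
        calc rt D J w ω * (1 / 2 ^ w) ≤ 1 * (1 / 2 ^ w) :=
              mul_le_mul_of_nonneg_right r1 (by positivity)
          _ = 1 / 2 ^ w := one_mul _
          _ ≤ _ := one_div_le_one_div_of_le (by positivity) (pow_le_pow_right₀ one_le_two hjw)
      have h4 : 0 ≤ rt D J w ω * (1 / 2 ^ w) := by positivity
      rw [abs_le]
      constructor <;> linarith) s s0 s1
  rw [e1] at h
  simp only [hRe] at h
  exact h

theorem pp_zero (x : D.Λ) (t : ℝ) : pp D x t 0 = t := by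
  unfold pp
  rw [if_pos rfl]

theorem X_pp (hO : D.Ok2 n K J a₀ w₀ z M lam gam κ C₁ q) {ω : D.Ω} (hω : 0 < q ω) {l : ℕ}
    (hl : l ≤ n) : D.X ω l = pp D (D.ln ω) (D.X ω 0) l := by
  unfold pp
  split_ifs with h
  · rw [h]
  · exact hO.str ω hω l hl

end

end Pool.P4L
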