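import Pool.Agent.H25.P4.LinE

/-!
# P4: the lines over a closed frame, (LIN)
-/

set_option autoImplicit false

namespace Pool.P4L

open Finset Real MvPolynomial
open Pool.Agent.H49.Ent Pool.Agent.H32.Dense Pool.STK
open Pool.STAT Pool.MIC.Frm Pool.FRM Pool.P4
open Pool.SYS35 (nrm_nonneg')

/-- The numbers. -/
theorem nums (n N e Ns : ℕ) (Ct Cs Cd C₀ : ℝ) (hCt : 1 ≤ Ct) (hCs : 1 ≤ Cs) (hCd : 1 ≤ Cd)
    (hC₀ : 0 ≤ C₀) : ∃ C' : ℝ, 1 ≤ C' ∧ ∀ z : ℕ, 1 ≤ z → ∀ E B : ℝ, E = exp (C₀ * z) →
      B = Ct * (4 * E) ^ e * E →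
      2 * (2 * B + Cd * (4 * B ^ (n * N + 1) * (Cs * E ^ Ns * E ^ (n * N + 3)))) ≤
        exp (C' * z) := by
  obtain ⟨b, hb⟩ : ∃ b : ℝ, b = Ct * 4 ^ e := ⟨_, rfl⟩
  have hb1 : 1 ≤ b := by
    rw [hb]
    exact one_le_mul_of_one_le_of_one_le hCt (one_le_pow₀ (by norm_num))
  obtain ⟨k, hk⟩ : ∃ k : ℝ, k = 4 * b + 8 * (Cd * (b ^ (n * N + 1) * Cs)) := ⟨_, rfl⟩
  have hk0 : 1 ≤ k := by
    rw [hk]
    have : 0 ≤ 8 * (Cd * (b ^ (n * N + 1) * Cs)) := by positivity
    linarith only [hb1, this]
  obtain ⟨p, hp⟩ : ∃ p : ℕ, p = (e + 1) * (n * N + 2) + Ns + (n * N + 3) := ⟨_, rfl⟩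
  refine ⟨k + C₀ * p, by
    have : 0 ≤ C₀ * p := by positivity
    linarith only [hk0, this], fun z hz E B hE hB => ?_⟩
  have hzr : (1 : ℝ) ≤ z := by exact_mod_cast hz
  have hE1 : 1 ≤ E := by rw [hE]; exact one_le_exp (by positivity)
  have hB' : B = b * E ^ (e + 1) := by
    rw [hB, hb, mul_pow, pow_succ]
    ring
  have h1 : B ≤ b * E ^ p := by
    rw [hB']
    refine mul_le_mul_of_nonneg_left (pow_le_pow_right₀ hE1 ?_) (by linarith only [hb1])
    rw [hp]
    have : e + 1 ≤ (e + 1) * (n * N + 2) := Nat.le_mul_of_pos_right _ (by omega)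
    omega
  have h2 : B ^ (n * N + 1) * (Cs * E ^ Ns * E ^ (n * N + 3)) ≤
      (b ^ (n * N + 1) * Cs) * E ^ p := by
    rw [hB', mul_pow, ← pow_mul]
    have e1 : b ^ (n * N + 1) * E ^ ((e + 1) * (n * N + 1)) * (Cs * E ^ Ns * E ^ (n * N + 3)) =
        (b ^ (n * N + 1) * Cs) * E ^ ((e + 1) * (n * N + 1) + Ns + (n * N + 3)) := by
      rw [pow_add, pow_add]
      ring
    rw [e1]
    refine mul_le_mul_of_nonneg_left (pow_le_pow_right₀ hE1 ?_) (by positivity)
    rw [hp]
    have : (e + 1) * (n * N + 1) ≤ (e + 1) * (n * N + 2) := Nat.mul_le_mul_left _ (by omega)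
    omega
  exact by
   have h3 : Cd * (4 * B ^ (n * N + 1) * (Cs * E ^ Ns * E ^ (n * N + 3))) ≤
       4 * (Cd * (b ^ (n * N + 1) * Cs)) * E ^ p := by
     have h4 : (4 * Cd) * (B ^ (n * N + 1) * (Cs * E ^ Ns * E ^ (n * N + 3))) ≤
       (4 * Cd) * ((b ^ (n * N + 1) * Cs) * E ^ p) := mul_le_mul_of_nonneg_left h2 (by linarith only [hCd])
     calc _ = (4 * Cd) * (B ^ (n * N + 1) * (Cs * E ^ Ns * E ^ (n * N + 3))) := by ring
       _ ≤ _ := h4
       _ = _ := by ring
   have h5 : k * E ^ p ≤ exp ((k + C₀ * p) * z) := by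
     have e1 : E ^ p = exp (C₀ * p * z) := by
       rw [hE, ← exp_nat_mul]
       congr 1
       ring
     have e2 : k ≤ exp (k * z) := by
       calc k ≤ k + 1 := by linarith only
         _ ≤ exp k := add_one_le_exp k
         _ ≤ exp (k * z) := exp_le_exp.2 (le_mul_of_one_le_right (by linarith only [hk0]) hzr)
     rw [e1, add_mul, exp_add]
     exact mul_le_mul_of_nonneg_right e2 (exp_pos _).le
   refine le_trans ?_ h5
   rw [hk]
   have e3 : (4 * b + 8 * (Cd * (b ^ (n * N + 1) * Cs))) * E ^ p =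
     4 * (b * E ^ p) + 2 * (4 * (Cd * (b ^ (n * N + 1) * Cs)) * E ^ p) := by ring
   rw [e3]
   linarith only [h1, h3]

theorem two_pow_le (c z : ℕ) : (2 : ℝ) ^ (c * z) ≤ exp ((c : ℝ) * z) := by
  have h1 : (2 : ℝ) ≤ exp 1 := by
    have := add_one_le_exp (1 : ℝ)
    linarith only [this]
  calc (2 : ℝ) ^ (c * z) ≤ exp 1 ^ (c * z) := pow_le_pow_left₀ (by norm_num) h1 _
    _ = exp ((c : ℝ) * z) := by
        rw [← exp_nat_mul]
        congr 1
        push_cast
        ring

theorem up {g : ℕ} {X δ Δ : ℝ} (h : |Δ| ≤ X * δ / 2 ^ g) : |2 ^ g * Δ| ≤ X * δ := by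
  rw [abs_mul, abs_of_pos (by positivity : (0 : ℝ) < 2 ^ g)]
  rw [le_div_iff₀ (by positivity)] at h
  linarith only [h]

/-- **(LIN)** -/
theorem lin_stmt : LinStmt := by
  classical
  intro n K K' lam gam C₁ C hn hC₁ hC hlam hgam
  obtain ⟨K₂, hK₂⟩ : ∃ K₂, K₂ = K + K' := ⟨_, rfl⟩
  obtain ⟨N, hN⟩ : ∃ N, N = K₂ * (K₂ + 1) ^ n := ⟨_, rfl⟩
  obtain ⟨Ct, hCt1, hCt⟩ := tay ((K₂ + 1) * (K + 1))
  obtain ⟨Cs, Ns, hCs, hsys⟩ := sys_near K₂ (n + 1)
  obtain ⟨c, hc⟩ := exists_nat_ge (4 * C₁ + 1)
  obtain ⟨C₀, hC₀⟩ : ∃ C₀ : ℝ, C₀ = C + 1 + c := ⟨_, rfl⟩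
  have hc0 : (0 : ℝ) ≤ c := Nat.cast_nonneg c
  obtain ⟨e, he⟩ : ∃ e, e = dd N n := ⟨_, rfl⟩
  obtain ⟨Cd, hCd1, hCd⟩ : ∃ Cd : ℝ, 1 ≤ Cd ∧ ∀ l ≤ n, ((exs l N).card : ℝ) ≤ Cd := by
    refine ⟨1 + ∑ l ∈ range (n + 1), ((exs l N).card : ℝ), ?_, fun l hl => ?_⟩
    · have : 0 ≤ ∑ l ∈ range (n + 1), ((exs l N).card : ℝ) :=
        Finset.sum_nonneg fun _ _ => Nat.cast_nonneg _
      linarith only [this]
    · have := Finset.single_le_sum (f := fun l => ((exs l N).card : ℝ))
        (fun _ _ => Nat.cast_nonneg _) (mem_range.2 (Nat.lt_succ_of_le hl))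
      linarith only [this]
  obtain ⟨C', hC', hnum⟩ := nums n N e Ns Ct Cs Cd C₀ hCt1 hCs hCd1 (by rw [hC₀]; positivity)
  refine ⟨C', hC', fun y r r' r'' a M => ⟨1, ?_⟩⟩
  intro J a₀ w₀ z i j D q κ hz hPl hO P ω hω hG hFP
  have hzr : (1 : ℝ) ≤ z := by exact_mod_cast hz
  have hz0 : (0 : ℝ) ≤ z := by linarith only [hzr]
  have hS := hPl.stp
  have i2 := hPl.i2
  have j1 := hPl.j1
  have j2 := hPl.j2
  have a1 := hPl.a1
  have rr : r' ≤ r'' := hS.s5
  -- sizes
  exact by
   obtain ⟨E, hE⟩ : ∃ E : ℝ, E = exp (C₀ * z) := ⟨_, rfl⟩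
   have hE1 : exp z ≤ E := by
     rw [hE]
     refine exp_le_exp.2 (le_mul_of_one_le_left hz0 ?_)
     rw [hC₀]
     linarith only [hC₁, hC, hc]
   have hE2 : exp (C * z) ≤ E := by
     rw [hE]
     refine exp_le_exp.2 (mul_le_mul_of_nonneg_right ?_ hz0)
     rw [hC₀]
     linarith only [hC₁, hc]
   have hE3 : (2 : ℝ) ^ (c * z) ≤ E := by
     refine (two_pow_le c z).trans ?_
     rw [hE]
     refine exp_le_exp.2 (mul_le_mul_of_nonneg_right ?_ hz0)
     rw [hC₀]
     linarith only [hC]
   have hEone : 1 ≤ E := (one_le_exp hz0).trans hE1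
   have hE0 : 0 < E := by linarith only [hEone]
   obtain ⟨A, hA⟩ : ∃ A : ℝ, A = (4 * E) ^ e := ⟨_, rfl⟩
   have hA1 : 1 ≤ A := by
     rw [hA]
     exact one_le_pow₀ (by linarith only [hEone])
   obtain ⟨B, hB⟩ : ∃ B : ℝ, B = Ct * (4 * E) ^ e * E := ⟨_, rfl⟩
   have hBA : B = Ct * A * E := by rw [hB, hA]
   have hAE : A * E ≤ B := by
     rw [hBA]
     have : 0 ≤ A * E := by positivity
     nlinarith only [hCt1, this]
   have hAB : A ≤ B := (le_mul_of_one_le_right (by linarith only [hA1]) hEone).trans hAE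
   exact by
    have hB1 : 1 ≤ B := hA1.trans hAB
    obtain ⟨S, hSd⟩ : ∃ S : ℝ, S = Cs * E ^ Ns := ⟨_, rfl⟩
    have hS0 : 0 ≤ S := by rw [hSd]; positivity
    obtain ⟨S', hS'⟩ : ∃ S' : ℝ, S' = Cs * E ^ Ns * E ^ (n * N + 3) := ⟨_, rfl⟩
    have hSS : S ≤ S' := by
      rw [hS', ← hSd]
      exact le_mul_of_one_le_right hS0 (one_le_pow₀ hEone)
    have hS'0 : 0 ≤ S' := hS0.trans hSS
    have hSp : S * 2 ^ ((n * N + 3) * (c * z)) ≤ S' := by
      rw [hS', ← hSd]
      refine mul_le_mul_of_nonneg_left ?_ hS0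
      rw [mul_comm (n * N + 3), pow_mul]
      exact pow_le_pow_left₀ (by positivity) hE3 _
    obtain ⟨Z, hZ⟩ : ∃ Z : ℝ, Z = 2 * B + Cd * (4 * B ^ (n * N + 1) * S') := ⟨_, rfl⟩
    have hfin : 2 * Z ≤ exp (C' * z) := by
      rw [hZ, hS']
      exact hnum z hz E B hE hB
    have hZB : 2 * B ≤ Z := by
      rw [hZ]
      have : 0 ≤ Cd * (4 * B ^ (n * N + 1) * S') := by positivity
      linarith only [this]
    have hZ0 : 0 ≤ Z := by linarith only [hA1, hAB, hZB]
    obtain ⟨δ, hδ⟩ : ∃ δ : ℝ, δ = 1 / 2 ^ (y * z) := ⟨_, rfl⟩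
    have hδ0 : 0 ≤ δ := by rw [hδ]; positivity
    have eδ : exp (C' * z) / 2 ^ (y * z) = exp (C' * z) * δ := by
      rw [hδ, mul_one_div]
    rw [eδ]
    have fin1 : ∀ x : ℝ, x ≤ Z * δ → x ≤ exp (C' * z) * δ := fun x hx =>
      hx.trans (mul_le_mul_of_nonneg_right (by linarith only [hA1, hAB, hfin, hZB]) hδ0)
    have fin2 : ∀ x : ℝ, x ≤ 2 * Z * δ → x ≤ exp (C' * z) * δ := fun x hx =>
      hx.trans (mul_le_mul_of_nonneg_right hfin hδ0)
    exact by
     have finA : ∀ x : ℝ, x ≤ 2 * A → x ≤ exp (C' * z) := fun x hx => by linarith only [hA1, hAB, hfin, hZB, hx]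
     -- the systems
     have hK1 : K ≤ K₂ := by omega
     have dP : ∀ l, (P l).totalDegree ≤ K₂ := fun l => (hFP.deg l).trans (by omega)
     have hP := hFP.tri
     have nP : ∀ i' ≤ i, ∀ l ≤ n,
         nrm (D.g i' j) (1 / 2) (chr P (D.Φ i' j ω l - P l)) ≤ E / 2 ^ D.g i' j l ∧
         nrm (D.g (i' - 1) (j - r)) (1 / 2) (chr P (D.Φ (i' - 1) (j - r) ω l - P l)) ≤
           E / 2 ^ D.g (i' - 1) (j - r) l := fun i' hi' l hl =>
       ⟨(hFP.near i' hi' l hl).1.trans (div_le_div_of_nonneg_right hE2 (by positivity)),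
         (hFP.near i' hi' l hl).2.trans (div_le_div_of_nonneg_right hE2 (by positivity))⟩
     obtain ⟨Q, hQ, dQ', -, nQ'⟩ := hG.fc
     have dQ : ∀ l, (Q l).totalDegree ≤ K₂ := fun l => (dQ' l).trans (by omega)
     have nQ : ∀ i' < M, ∀ j' < M, ∀ l ≤ n,
         nrm (D.g i' j') (1 / 2) (chr Q (D.Φ i' j' ω l - Q l)) ≤ E / 2 ^ D.g i' j' l :=
       fun i' hi' j' hj' l hl => (nQ' i' hi' j' hj' l hl).trans
         (div_le_div_of_nonneg_right hE2 (by positivity))
     have hLv := lv_of hO hlam (by linarith only [hC₁]) hc hPl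
     -- the difference of the systems
     have sys : ∀ i' j' : ℕ, i' < M → j' < M → (∀ l ≤ n,
         nrm (D.g i' j') (1 / 2) (chr P (D.Φ i' j' ω l - P l)) ≤ E / 2 ^ D.g i' j' l) →
         ∀ l ≤ n, nrm (D.g i' j') (1 / 2) (chr Q (P l - Q l)) ≤ S / 2 ^ D.g i' j' l := by
       intro i' j' hi' hj' h l hl
       rw [hSd]
       exact hsys (D.g i' j') (D.Φ i' j' ω) P Q E (hO.P_tri i' j' _) hP hQ
         (fun l => (hO.P_deg i' j' _ l).trans hK1) dP dQ hEone (fun l hl => h l (by omega))
         (fun l hl => nQ i' hi' j' hj' l (by omega)) l (by omega)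
     have W0 := sys i j (by omega) (by omega) (fun l hl => (nP i le_rfl l hl).1)
     have W1 := sys (i - 1) (j - r) (by omega) (by omega) (fun l hl => (nP i le_rfl l hl).2)
     have W2 := sys (i - a) j (by omega) (by omega) (fun l hl => (nP (i - a) (by omega) l hl).1)
     exact by
      have vF : ∀ l, (chr Q (P l - Q l)).vars ⊆ range l := fun l =>
        chr_vars hQ (AdxRow.vars_sub_le (hP l) (hQ l))
      have dF : ∀ l ≤ n, (chr Q (P l - Q l)).totalDegree ≤ N := fun l hl => by
        refine (chr_deg (K := K₂) (K' := K₂) hQ (fun k _ => dQ k)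
          (AdxRow.vars_sub_le (hP l) (hQ l)) ((totalDegree_sub _ _).trans
            (max_le (dP l) (dQ l)))).trans ?_
        rw [hN]
        exact Nat.mul_le_mul_left _ (Nat.pow_le_pow_right (by omega) hl)
      -- one sample
      have bx : ∀ t : ℝ, |t - D.X ω 0| ≤ 1 / 2 ^ (w₀ + j * z) → ∀ l ≤ n,
          |zt D i j r (fun _ => P) t ω l| ≤ A := by
        intro t ht l hl
        have h := in_box hO hK1 hP dP (i := i) (j := j) (by omega) (by omega) hE1 hG.pc
          (fun l hl => (nP i le_rfl l hl).1) ht l hl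
        rw [← hN, ← he, ← hA] at h
        have h2 : |zs P (pp D (D.ln ω) t) l| ≤ A * 1 / 2 ^ D.g i j l := by rwa [mul_one]
        have h3 := up h2
        rw [mul_one] at h3
        exact h3
      have hze : ∀ l ≤ n, ze D i j r (fun _ => P) ω l = zt D i j r (fun _ => P) (D.X ω 0) ω l := by
        intro l hl
        unfold ze zt
        rw [nat_eq, nat_eq, zs_congr (m := n + 1) hP (fun k hk => X_pp hO hω (by omega)) (by omega)]
      refine ⟨fun l _ hl => ?_, ?_⟩
      · rw [hze l hl]
        refine finA _ ((bx _ ?_ l hl).trans (by linarith only [hA1]))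
        rw [sub_self, abs_zero]
        positivity
      intro w hw1 hw2
      have hwJ : w ≤ J := by
        have e1 := hO.top
        have e2 := hO.thin
        have e3 : (j + 1) * z ≤ (M + 1) * z := Nat.mul_le_mul_right z (by omega)
        omega
      exact by
       obtain ⟨r0, r1, rX⟩ := tms hO hwJ ω
       have hpw : (1 : ℝ) / 2 ^ w ≤ 1 / 2 ^ (w₀ + j * z) :=
         one_div_le_one_div_of_le (by positivity) (pow_le_pow_right₀ one_le_two hw1)
       have hpw0 : (0 : ℝ) < 1 / 2 ^ w := by positivity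
       have hr1 : rt D J w ω * (1 / 2 ^ w) ≤ 1 / 2 ^ w := by
         calc rt D J w ω * (1 / 2 ^ w) ≤ 1 * (1 / 2 ^ w) := mul_le_mul_of_nonneg_right r1 hpw0.le
           _ = 1 / 2 ^ w := one_mul _
       have hr0 : 0 ≤ rt D J w ω * (1 / 2 ^ w) := by positivity
       have b0 : ∀ l ≤ n, |z0 D J w i j r (fun _ => P) ω l| ≤ A := fun l hl => by
         unfold z0
         refine bx _ ?_ l hl
         rw [abs_le]
         constructor <;> linarith
       have bt1 : ∀ l ≤ n, |zt D i j r (fun _ => P) (t0 D J w ω + 1 / 2 ^ w) ω l| ≤ A := fun l hl => by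
         refine bx _ ?_ l hl
         rw [abs_le]
         constructor <;> linarith
       refine ⟨fun l _ hl => ⟨finA _ ((b0 l hl).trans (by linarith only [hA1])), ?_⟩, ?_⟩
       · unfold be
         refine finA _ ((abs_sub _ _).trans ?_)
         have := b0 l hl
         have := bt1 l hl
         linarith
       -- the long window
       have hj1w : w₀ + (j - r) * z ≤ w := by
         have : (j - r) * z ≤ j * z := Nat.mul_le_mul_right z (Nat.sub_le _ _)
         omega
       have hrz : r * z ≤ w - (w₀ + (j - r) * z) := by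
         have : (j - r) * z + r * z = j * z := by
           rw [← add_mul]
           congr 1
           omega
         omega
       exact by
        have hwe : (1 : ℝ) / 2 ^ (w - (w₀ + (j - r) * z)) ≤ 1 / 2 ^ (r * z) :=
          one_div_le_one_div_of_le (by positivity) (pow_le_pow_right₀ one_le_two hrz)
        have hwe2 : ((1 : ℝ) / 2 ^ (w - (w₀ + (j - r) * z))) ^ 2 ≤ 1 / 2 ^ (2 * (r * z)) := by
          calc ((1 : ℝ) / 2 ^ (w - (w₀ + (j - r) * z))) ^ 2 ≤ (1 / 2 ^ (r * z)) ^ 2 :=
                pow_le_pow_left₀ (by positivity) hwe 2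
            _ = 1 / 2 ^ (2 * (r * z)) := by
                rw [div_pow, one_pow, ← pow_mul, mul_comm (r * z) 2]
        have hCtA : 0 ≤ Ct * A := by positivity
        have df : ∀ l ≤ n, _ := fun l hl => dif_box hO hK1 hP dP (i := i - 1) (j := j - r) (by omega)
          (by omega) hE1 hCt hG.pc (fun l hl => (nP i le_rfl l hl).2) hwJ hj1w hl r0 r1
        refine ⟨fun l hl => ?_, fun l hl => ?_, ?_⟩
        · have h1 := (df l hl.2.1.le).1
          rw [← rX, ← hN, ← he, ← hA, ← mul_div_assoc Ct A] at h1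
          have h2 := h1.trans (pw1 (u := D.g i j l) (p := y * z) (s := c * z) hCtA hwe hE3
            (by have := hLv.o1 l hl.1 hl.2.1.le hl; omega))
          rw [← hBA, ← hδ] at h2
          have h3 := up h2
          rw [hze l hl.2.1.le]
          refine fin1 _ ((le_of_eq ?_).trans (h3.trans (mul_le_mul_of_nonneg_right (by linarith only [hA1, hAB, hZB]) hδ0)))
          unfold z0 zt
          rw [nat_eq, nat_eq, mul_sub]
        · have h1 := (df l hl.2.1).2
          rw [← rX, ← hN, ← he, ← hA, ← mul_div_assoc Ct A] at h1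
          have h2 := h1.trans (pw1 (u := D.g i j l) (p := y * z) (s := c * z) hCtA hwe2 hE3
            (by have := hLv.o2 l hl.1 hl.2.1 hl; omega))
          rw [← hBA, ← hδ] at h2
          have h3 := up h2
          rw [hze l hl.2.1]
          refine fin1 _ ((le_of_eq ?_).trans (h3.trans (mul_le_mul_of_nonneg_right (by linarith only [hA1, hAB, hZB]) hδ0)))
          unfold be z0 zt
          rw [nat_eq, nat_eq, nat_eq]
          congr 1
          ring
        -- two samples
        exact by
         intro ω' hω' hG' hbb hT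
         have ec : D.c i j ω' = D.c i j ω := (congrArg Prod.fst hbb).symm
         have et : t0 D J w ω' = t0 D J w ω := (t0_congr hT).symm
         have eΦ : D.Φ i j ω' = D.Φ i j ω := by
           unfold NDat2.Φ
           rw [ec]
         have gen : ∀ i₁ j₁ : ℕ, i₁ < M → j₁ < M → w₀ + j₁ * z ≤ w → ∀ υ : D.Ω,
             PthC D n w₀ z M 1 υ → D.Φ i₁ j₁ υ = D.Φ i₁ j₁ ω → t0 D J w υ = t0 D J w ω →
             (∀ l ≤ n, |zs Q (pp D (D.ln υ) (t0 D J w ω)) l| ≤ A / 2 ^ D.g i₁ j₁ l) ∧
             (∀ l ≤ n, |zs Q (pp D (D.ln υ) (t0 D J w ω + 1 / 2 ^ w)) l| ≤ A / 2 ^ D.g i₁ j₁ l) ∧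
             ∀ l ≤ n, |zs Q (pp D (D.ln υ) (t0 D J w ω + 1 / 2 ^ w)) l -
               zs Q (pp D (D.ln υ) (t0 D J w ω)) l| ≤
                 Ct * A / 2 ^ D.g i₁ j₁ l * (1 / 2 ^ (w - (w₀ + j₁ * z))) := by
           intro i₁ j₁ hi₁ hj₁ hjw υ hυ e1 e2
           have nr : ∀ l ≤ n, nrm (D.g i₁ j₁) (1 / 2) (chr Q (D.Φ i₁ j₁ υ l - Q l)) ≤
               E / 2 ^ D.g i₁ j₁ l := fun l hl => by
             rw [e1]
             exact nQ i₁ hi₁ j₁ hj₁ l hl
           obtain ⟨s0, s1, sX⟩ := tms hO hwJ υ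
           rw [e2] at sX
           have hq1 : (1 : ℝ) / 2 ^ w ≤ 1 / 2 ^ (w₀ + j₁ * z) :=
             one_div_le_one_div_of_le (by positivity) (pow_le_pow_right₀ one_le_two hjw)
           have hs1 : rt D J w υ * (1 / 2 ^ w) ≤ 1 / 2 ^ w := by
             calc rt D J w υ * (1 / 2 ^ w) ≤ 1 * (1 / 2 ^ w) := mul_le_mul_of_nonneg_right s1 hpw0.le
               _ = 1 / 2 ^ w := one_mul _
           have hs0 : 0 ≤ rt D J w υ * (1 / 2 ^ w) := by positivity
           refine ⟨fun l hl => ?_, fun l hl => ?_, fun l hl => ?_⟩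
           · have h := in_box hO hK1 hQ dQ (i := i₁) (j := j₁) hi₁.le hj₁.le hE1 hυ nr
               (t := t0 D J w ω) (by
                 rw [abs_le]
                 constructor <;> linarith) l hl
             rw [← hN, ← he, ← hA] at h
             exact h
           · have h := in_box hO hK1 hQ dQ (i := i₁) (j := j₁) hi₁.le hj₁.le hE1 hυ nr
               (t := t0 D J w ω + 1 / 2 ^ w) (by
                 rw [abs_le]
                 constructor <;> linarith) l hl
             rw [← hN, ← he, ← hA] at h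
             exact h
           · have h := (dif_box hO hK1 hQ dQ (i := i₁) (j := j₁) hi₁.le hj₁.le hE1 hCt hυ nr hwJ hjw hl
               zero_le_one le_rfl).1
             rw [← hN, ← he, ← hA, one_mul, e2, ← mul_div_assoc Ct A] at h
             exact h
         exact by
          obtain ⟨g1, g2, -⟩ := gen i j (by omega) (by omega) hw1 ω hG.pc rfl rfl
          obtain ⟨g1', g2', -⟩ := gen i j (by omega) (by omega) hw1 ω' hG'.pc eΦ et
          have wk : ∀ {x : ℝ} {g : ℕ}, |x| ≤ A / 2 ^ g → |x| ≤ B / 2 ^ g := fun h =>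
            h.trans (div_le_div_of_nonneg_right hAB (by positivity))
          have c0 : ∀ t, zs Q (pp D (D.ln ω) t) 0 = zs Q (pp D (D.ln ω') t) 0 := fun t =>
            zs_congr (m := 1) hQ (fun k hk => by
              have : k = 0 := by omega
              rw [this, pp_zero, pp_zero]) one_pos
          have Zle : ∀ l ≤ n, (2 * B + (exs l N).card * (4 * B ^ (l * N + 1) * S')) ≤ Z := by
            intro l hl
            rw [hZ]
            have h1 : B ^ (l * N + 1) ≤ B ^ (n * N + 1) := by
              refine pow_le_pow_right₀ hB1 ?_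
              have : l * N ≤ n * N := Nat.mul_le_mul_right N hl
              omega
            have h2 : ((exs l N).card : ℝ) * (4 * B ^ (l * N + 1) * S') ≤
                Cd * (4 * B ^ (n * N + 1) * S') := by
              refine mul_le_mul (hCd l hl) ?_ (by positivity) (by linarith only [hCd1])
              exact mul_le_mul_of_nonneg_right (mul_le_mul_of_nonneg_left h1 (by norm_num)) hS'0
            linarith only [h2]
          have Zle' : ∀ l ≤ n, (2 * B + (exs l N).card * (2 * B ^ (l * N) * S')) ≤ Z := by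
            intro l hl
            refine le_trans ?_ (Zle l hl)
            have h1 : B ^ (l * N) ≤ B ^ (l * N + 1) := pow_le_pow_right₀ hB1 (Nat.le_succ _)
            have h0 : 0 ≤ B ^ (l * N) := by positivity
            have h2 : 2 * B ^ (l * N) * S' ≤ 4 * B ^ (l * N + 1) * S' :=
              mul_le_mul_of_nonneg_right (by linarith only [h1, h0]) hS'0
            have h3 := mul_le_mul_of_nonneg_left h2 (Nat.cast_nonneg (α := ℝ) (exs l N).card)
            linarith only [h3]
          have hFn : ∀ l ≤ n, ∀ α, Sm (D.g i j) l (chr Q (P l - Q l)) S' 1 α := fun l hl α =>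
            sm_nat (W0 l hl) hSS α
          exact by
           have z0d : ∀ l, z0 D J w i j r (fun _ => P) ω l - z0 D J w i j r (fun _ => P) ω' l =
               2 ^ D.g i j l * (zs P (pp D (D.ln ω) (t0 D J w ω)) l -
                 zs P (pp D (D.ln ω') (t0 D J w ω)) l) := fun l => by
             unfold z0 zt
             rw [nat_eq, nat_eq, et, mul_sub]
           have bed : ∀ l, be D J w i j r (fun _ => P) ω l - be D J w i j r (fun _ => P) ω' l =
               2 ^ D.g i j l * ((zs P (pp D (D.ln ω) (t0 D J w ω + 1 / 2 ^ w)) l -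
                 zs P (pp D (D.ln ω) (t0 D J w ω)) l) -
                 (zs P (pp D (D.ln ω') (t0 D J w ω + 1 / 2 ^ w)) l -
                   zs P (pp D (D.ln ω') (t0 D J w ω)) l)) := fun l => by
             unfold be z0 zt
             rw [nat_eq, nat_eq, nat_eq, nat_eq, et]
             ring
           refine ⟨fun hL => ?_, fun hM => ?_⟩
           · -- the place `L`
             have eL : D.Φ (i + r') (j - r) ω' = D.Φ (i + r') (j - r) ω := by
               unfold NDat2.Φ
               rw [hL]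
             obtain ⟨p1, p2, p3⟩ := gen (i + r') (j - r) (by omega) (by omega) hj1w ω hG.pc rfl rfl
             obtain ⟨p1', p2', p3'⟩ := gen (i + r') (j - r) (by omega) (by omega) hj1w ω' hG'.pc eL et
             have sm : ∀ {x : ℝ} {k : ℕ}, k ≤ n → sl gam n k → |x| ≤ A / 2 ^ D.g (i + r') (j - r) k →
                 |x| ≤ B * δ / 2 ^ D.g i j k := by
               intro x k hk hs h
               refine h.trans ((pw0 (u := D.g i j k) (p := y * z) (s := c * z) (by linarith only [hA1]) hE3
                 (hLv.l1 k hs.1 hk hs)).trans ?_)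
               rw [hδ]
               exact div_le_div_of_nonneg_right (mul_le_mul_of_nonneg_right hAE (by positivity))
                 (by positivity)
             have sd : ∀ {x : ℝ} {k : ℕ}, 1 ≤ k → k ≤ n → ¬ sl gam n k →
                 |x| ≤ Ct * A / 2 ^ D.g (i + r') (j - r) k * (1 / 2 ^ (w - (w₀ + (j - r) * z))) →
                 |x| ≤ B * δ / 2 ^ D.g i j k := by
               intro x k k1 hk hs h
               have hg := (hLv.dich k k1 hk).resolve_left hs
               refine h.trans ((pw1 (u := D.g i j k) (p := y * z) (s := c * z) hCtA hwe hE3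
                 (hLv.l2 k k1 hk hg)).trans (le_of_eq ?_))
               rw [hδ, hBA]
             constructor
             · intro l hl
               have hln : l ≤ n := hl.2.1.le
               have h := core_one (sl := sl gam n) hQ (vF l) (dF l hln) hB1 hS'0 hδ0 (hFn l hln)
                 (fun α hα h1 h2 => by
                   rw [hδ]
                   exact (hLv.sm_slow hS0 hl.1 hln hl (W1 l hln) (W2 l hln) hα h1 h2).mono hSp
                     (by positivity))
                 (x := pp D (D.ln ω) (t0 D J w ω)) (x' := pp D (D.ln ω') (t0 D J w ω))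
                 (fun k hk => wk (g1 k (by omega))) (fun k hk => wk (g1' k (by omega))) (c0 _)
                 (fun k hk hs => sm (by omega) hs (p1 k (by omega)))
                 (fun k hk hs => sm (by omega) hs (p1' k (by omega)))
                 (sm hln hl (p1 l hln)) (sm hln hl (p1' l hln))
               rw [z0d]
               exact fin1 _ ((up h).trans (mul_le_mul_of_nonneg_right (Zle' l hln) hδ0))
             · intro l hl
               have hln : l ≤ n := hl.2.1
               have hns : ¬ sl gam n l := fun h => absurd h.2.2 (not_lt.2 hl.2.2)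
               have h := core_two (sl := sl gam n) hQ (vF l) (dF l hln) hB1 hS'0 hδ0 (hFn l hln)
                 (fun α hα h1 h2 => by
                   rw [hδ]
                   exact (hLv.sm_grp hS0 hl.1 hln hl (W1 l hln) (W2 l hln) hα h1 h2).imp_left
                     fun h => h.mono hSp (by positivity))
                 (x := pp D (D.ln ω) (t0 D J w ω)) (x' := pp D (D.ln ω') (t0 D J w ω))
                 (y := pp D (D.ln ω) (t0 D J w ω + 1 / 2 ^ w))
                 (y' := pp D (D.ln ω') (t0 D J w ω + 1 / 2 ^ w))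
                 (fun k hk => wk (g1 k (by omega))) (fun k hk => wk (g1' k (by omega)))
                 (fun k hk => wk (g2 k (by omega))) (fun k hk => wk (g2' k (by omega))) (c0 _) (c0 _)
                 (fun k hk hs => sm (by omega) hs (p1 k (by omega)))
                 (fun k hk hs => sm (by omega) hs (p1' k (by omega)))
                 (fun k hk hs => sm (by omega) hs (p2 k (by omega)))
                 (fun k hk hs => sm (by omega) hs (p2' k (by omega)))
                 (fun k hk k1 hs => sd k1 (by omega) hs (p3 k (by omega)))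
                 (fun k hk k1 hs => sd k1 (by omega) hs (p3' k (by omega))) hl.1 hns
               rw [bed]
               exact fin1 _ ((up h).trans (mul_le_mul_of_nonneg_right (Zle l hln) hδ0))
           · -- the place `L''`
             have eM : D.Φ (i + r'') (j - r) ω' = D.Φ (i + r'') (j - r) ω := by
               unfold NDat2.Φ
               rw [hM]
             obtain ⟨p1, p2, -⟩ := gen (i + r'') (j - r) (by omega) (by omega) hj1w ω hG.pc rfl rfl
             obtain ⟨p1', p2', -⟩ := gen (i + r'') (j - r) (by omega) (by omega) hj1w ω' hG'.pc eM et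
             have sm : ∀ {x : ℝ} {k : ℕ}, k ≤ n → 1 ≤ k → |x| ≤ A / 2 ^ D.g (i + r'') (j - r) k →
                 |x| ≤ B * δ / 2 ^ D.g i j k := by
               intro x k hk k1 h
               refine h.trans ((pw0 (u := D.g i j k) (p := y * z) (s := c * z) (by linarith only [hA1]) hE3
                 (hLv.m1 k k1 hk)).trans ?_)
               rw [hδ]
               exact div_le_div_of_nonneg_right (mul_le_mul_of_nonneg_right hAE (by positivity))
                 (by positivity)
             have vac : ∀ l : ℕ, ∀ α ∈ exs l N, (∃ k, 1 ≤ k ∧ α k ≠ 0) →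
                 (∀ k, 1 ≤ k → α k ≠ 0 → ¬ 1 ≤ k) → Sm (D.g i j) l (chr Q (P l - Q l)) S' δ α := by
               intro l α _ h1 h2
               obtain ⟨k, k1, hk⟩ := h1
               exact absurd k1 (h2 k k1 hk)
             intro l l1 hln
             have h1 := core_one (sl := fun k => 1 ≤ k) hQ (vF l) (dF l hln) hB1 hS'0 hδ0 (hFn l hln)
               (vac l)
               (x := pp D (D.ln ω) (t0 D J w ω)) (x' := pp D (D.ln ω') (t0 D J w ω))
               (fun k hk => wk (g1 k (by omega))) (fun k hk => wk (g1' k (by omega))) (c0 _)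
               (fun k hk hs => sm (by omega) hs (p1 k (by omega)))
               (fun k hk hs => sm (by omega) hs (p1' k (by omega)))
               (sm hln l1 (p1 l hln)) (sm hln l1 (p1' l hln))
             have h2 := core_one (sl := fun k => 1 ≤ k) hQ (vF l) (dF l hln) hB1 hS'0 hδ0 (hFn l hln)
               (vac l)
               (x := pp D (D.ln ω) (t0 D J w ω + 1 / 2 ^ w))
               (x' := pp D (D.ln ω') (t0 D J w ω + 1 / 2 ^ w))
               (fun k hk => wk (g2 k (by omega))) (fun k hk => wk (g2' k (by omega))) (c0 _)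
               (fun k hk hs => sm (by omega) hs (p2 k (by omega)))
               (fun k hk hs => sm (by omega) hs (p2' k (by omega)))
               (sm hln l1 (p2 l hln)) (sm hln l1 (p2' l hln))
             have k1 := (up h1).trans (mul_le_mul_of_nonneg_right (Zle' l hln) hδ0)
             have k2 := (up h2).trans (mul_le_mul_of_nonneg_right (Zle' l hln) hδ0)
             constructor
             · rw [z0d]
               exact fin1 _ k1
             · rw [bed]
               have e1 : 2 ^ D.g i j l * ((zs P (pp D (D.ln ω) (t0 D J w ω + 1 / 2 ^ w)) l -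
                   zs P (pp D (D.ln ω) (t0 D J w ω)) l) -
                   (zs P (pp D (D.ln ω') (t0 D J w ω + 1 / 2 ^ w)) l -
                     zs P (pp D (D.ln ω') (t0 D J w ω)) l)) =
                   2 ^ D.g i j l * (zs P (pp D (D.ln ω) (t0 D J w ω + 1 / 2 ^ w)) l -
                     zs P (pp D (D.ln ω') (t0 D J w ω + 1 / 2 ^ w)) l) -
                   2 ^ D.g i j l * (zs P (pp D (D.ln ω) (t0 D J w ω)) l -
                     zs P (pp D (D.ln ω') (t0 D J w ω)) l) := by ring
               rw [e1]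
               refine fin2 _ ((abs_sub _ _).trans ?_)
               linarith only [k1, k2]

end Pool.P4L
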