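import Pool.Agent.H25.P4.GfB

/-!
# P4, labels with gain over the frames: the good event

`GoodU`: the labels with gain of the line are near to all the closed labels on the whole windows,
and the path of the line is on the thin sheet.
-/

set_option autoImplicit false

namespace Pool.P4

open Finset Real MvPolynomial
open Pool.Agent.H49.Ent Pool.Agent.H32.Dense Pool.STK Pool.KA Pool.K2S Pool.STAT Pool.STAT.Glu
open Pool.MIC.Frm Pool.FRM
open Pool.MIC.Fru (gw nat_gw nat_gw0 atT_tri atT_deg)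
open Pool.BFL (Pb)

/-- The exact point is in the natural box. -/
theorem nb_X {D : NDat2} {n K J a₀ w₀ z M : ℕ} {lam gam : ℕ → ℝ} {κ C₁ : ℝ} {q : D.Ω → ℝ}
    (hO : D.Ok2 n K J a₀ w₀ z M lam gam κ C₁ q) {i j : ℕ} (hi : i ≤ M) (hj : j ≤ M) {ω : D.Ω}
    (hω : 0 < q ω) {m : ℕ} (hm : m ≤ n + 1) : D.NB i j (a₀ + i * z) m ω (D.X ω) := by
  refine ⟨?_, fun l h1 h2 => ?_⟩
  · rw [sub_self, abs_zero]
    positivity
  · exact hO.pos i hi j hj ω hω l h1 (by omega)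

/-- The exact point and the label with gain of the line. -/
theorem own_L {D : NDat2} {U : GnL D} {n K J a₀ w₀ z M Q : ℕ} {R : ℕ → Prop} {lam gam : ℕ → ℝ}
    {κ C₁ : ℝ} {q : D.Ω → ℝ} (hO : D.Ok2 n K J a₀ w₀ z M lam gam κ C₁ q)
    (hU : U.Ok n K J a₀ w₀ z M Q R C₁ q) {l : ℕ} (hl : Ct n R l) {ω : D.Ω} (hω : 0 < q ω) :
    |D.X ω l - eval (D.X ω) (U.UL l (D.wn J w₀ ω))| ≤ 2 / 2 ^ U.pr l := by
  have h1 := hU.own l hl.1 hl.2.1 hl.2.2 ω hω
  have h2 := hU.two l hl.1 hl.2.1 hl.2.2 0 (Nat.zero_le _) 0 (Nat.zero_le _) ω hω (D.X ω)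
    (nb_X hO (Nat.zero_le _) (Nat.zero_le _) hω (by
      have := hl.2.1
      omega))
  have e : D.X ω l - eval (D.X ω) (U.UL l (D.wn J w₀ ω)) =
      (D.X ω l - eval (D.X ω) (U.UD l (D.pt ω))) + (eval (D.X ω) (U.UD l (D.pt ω)) -
        eval (D.X ω) (U.UL l (D.wn J w₀ ω))) := by ring
  rw [e]
  refine (abs_add_le _ _).trans ((add_le_add h1 h2).trans (le_of_eq ?_))
  ring

open Classical in
/-- The height of the path over the label with gain, in units of its precision. -/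
noncomputable def upl (D : NDat2) (U : GnL D) (n J w₀ : ℕ) (R : ℕ → Prop) (ω : D.Ω) (l : ℕ) :
    Polynomial ℝ :=
  if Ct n R l then Polynomial.C ((2 : ℝ) ^ U.pr l / 2) *
    (ppl D (D.ln ω) l - MvPolynomial.aeval (ppl D (D.ln ω)) (U.UL l (D.wn J w₀ ω))) else 0

/-- **The path is on the thin sheet**, on the whole window. -/
theorem pu_one (n K : ℕ) (η : ℝ) (hη : 0 < η) : ∃ (κ₀ : ℝ) (z₀ : ℕ), 0 < κ₀ ∧
    ∀ (D : NDat2) (U : GnL D) (R : ℕ → Prop) (J a₀ w₀ z M Q : ℕ) (lam gam : ℕ → ℝ)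
      (κ κ' C₁ : ℝ) (q : D.Ω → ℝ), z₀ ≤ z → κ' ≤ κ₀ → D.Ok2 n K J a₀ w₀ z M lam gam κ C₁ q →
      D.TmU J w₀ z κ' q → U.Ok n K J a₀ w₀ z M Q R C₁ q →
      ∃ B : D.Ω → Prop, (∀ ω, B ω → 0 < q ω) ∧ 1 - η ≤ Pb q B ∧ ∀ ω, B ω → ∀ l, Ct n R l →
        ∀ t : ℝ, |t - D.X ω 0| ≤ 1 / 2 ^ w₀ →
          |(D.pa (D.ln ω) l).eval t - eval (pp D (D.ln ω) t) (U.UL l (D.wn J w₀ ω))| ≤
            exp (2 * z) / 2 ^ U.pr l := by
  classical
  obtain ⟨η₁, hη₁⟩ : ∃ η₁ : ℝ, η₁ = min η 1 := ⟨_, rfl⟩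
  have hη0 : 0 < η₁ := by rw [hη₁]; exact lt_min hη one_pos
  have hη1 : η₁ ≤ 1 := by rw [hη₁]; exact min_le_right _ _
  have hηη : η₁ ≤ η := by rw [hη₁]; exact min_le_left _ _
  obtain ⟨C, hC, h⟩ := rmz_det ((K + 1) * (K + 1)) (Fin n) η₁ hη0
  obtain ⟨z₀, hz₀⟩ := exists_nat_ge (4 * C + 4)
  refine ⟨1 / (4 * C), z₀, by positivity, ?_⟩
  intro D U R J a₀ w₀ z M Q lam gam κ κ' C₁ q hz hκ hO hT hU
  have hzz : (z₀ : ℝ) ≤ z := by exact_mod_cast hz
  have hz0 : (0 : ℝ) ≤ z := Nat.cast_nonneg z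
  have hbig : 4 * C + 4 ≤ z := by linarith
  have hzr : (1 : ℝ) ≤ z := by linarith
  obtain ⟨E, hE⟩ : ∃ E : ℝ, E = 1 + 1 / (4 * C) * z := ⟨_, rfl⟩
  have hE1 : 1 ≤ E := by
    rw [hE]
    have : 0 ≤ 1 / (4 * C) * z := by positivity
    linarith
  obtain ⟨z', hz'⟩ : ∃ z' : ℕ, z' = ⌈C * E⌉₊ := ⟨_, rfl⟩
  have hz'1 : C * E ≤ z' := by rw [hz']; exact Nat.le_ceil _
  have hz'2 : (z' : ℝ) < C * E + 1 := by
    rw [hz']
    exact Nat.ceil_lt_add_one (by positivity)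
  have hCE : C * E = C + z / 4 := by
    rw [hE]
    field_simp
  have h2z' : 2 * (z' : ℝ) ≤ z := by
    have : 2 * (z' : ℝ) ≤ 2 * (C + z / 4 + 1) := by linarith
    linarith
  have hz'z : z' ≤ z := by
    have h2 : (z' : ℝ) ≤ z := by
      have : (0 : ℝ) ≤ z' := Nat.cast_nonneg _
      linarith
    exact_mod_cast h2
  have hthin := hO.thin
  have htop := hO.top
  have hMz : (M + 1) * z = M * z + z := by ring
  have hwz : w₀ + z' ≤ J := by omega
  have hT' := hT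
  unfold NDat2.TmU at hT'
  have htime := time_cell hO.isLaw (J := J) (w₀ := w₀) (r := w₀) (T := D.T) (ln := D.ln)
    (S := κ' * z) le_rfl (by omega) hO.ln_w hT'
  have hκz : κ' * z ≤ E := by
    rw [hE]
    have := mul_le_mul_of_nonneg_right hκ hz0
    linarith
  have hPA : Pe q (fun _ => True) = 1 := by
    rw [Pe_eq]
    simp only [if_true]
    exact hO.isLaw.sum_one
  have hpd : ∀ x l, (ppl D x l).natDegree ≤ K + 1 := by
    intro x l
    unfold ppl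
    split_ifs
    · exact Polynomial.natDegree_X_le.trans (by omega)
    · exact (hO.pa_deg x l).trans (Nat.le_succ _)
  obtain ⟨B, hB1, hB2, hB3⟩ := h J w₀ z' D.Ω (D.Λ × ℕ) q D.T (D.wn J w₀)
    (fun _ => True) E (fun l ω => upl D U n J w₀ R ω l) hO.isLaw hO.T_lt hwz
    (fun ω ω' _ _ h => (Prod.ext_iff.1 h).2) (by rw [hPA]; exact hη1) hE1 (by
      have : CH q D.T (fun ω => (D.ln ω, D.T ω / 2 ^ (J - w₀))) =
        CH q D.T (D.wn J w₀) := rfl
      rw [← this]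
      linarith) hz'1 (fun l ω ω' _ _ hw => by
        have h1 : D.ln ω = D.ln ω' := (Prod.ext_iff.1 hw).1
        show upl D U n J w₀ R ω l = upl D U n J w₀ R ω' l
        unfold upl
        rw [hw, h1]) (fun l ω _ => by
        unfold upl
        split_ifs with hct
        · refine (Polynomial.natDegree_C_mul_le _ _).trans ((Polynomial.natDegree_sub_le _ _).trans
            (max_le ?_ ?_))
          · exact (hpd _ l).trans (Nat.le_mul_of_pos_left _ (Nat.succ_pos _))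
          · exact (nd_aeval _ _ (hpd _) (hU.degL _ _)).trans
              (Nat.mul_le_mul_right _ (Nat.le_succ _))
        · rw [Polynomial.natDegree_zero]
          exact Nat.zero_le _) (fun l ω hω _ => by
        rw [← hO.X_zero ω]
        unfold upl
        split_ifs with hct
        · rw [Polynomial.eval_mul, Polynomial.eval_C, Polynomial.eval_sub, eval_aeval_ppl, ppl_eval,
            pp_X hO hω l.2.le, abs_mul, abs_of_pos (by positivity)]
          have h1 : eval (pp D (D.ln ω) (D.X ω 0)) (U.UL l (D.wn J w₀ ω)) =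
              eval (D.X ω) (U.UL l (D.wn J w₀ ω)) :=
            eval_vr (m := l) (hU.varL l _) fun k hk => pp_X hO hω (by
              have := l.2
              omega)
          rw [h1]
          have h2 := own_L hO hU hct hω
          rw [le_div_iff₀ (by positivity)] at h2
          linarith
        · rw [Polynomial.eval_zero, abs_zero]
          exact zero_le_one)
  refine ⟨B, fun ω hω => (hB1 ω hω).1, ?_, ?_⟩
  · rw [Pb_eq_Pe]
    rw [hPA] at hB2
    linarith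
  · intro ω hω l hl t ht
    rw [hO.X_zero ω] at ht
    have h1 := hB3 ω hω t ht ⟨l, hl.2.1⟩
    unfold upl at h1
    simp only at h1
    rw [if_pos hl, Polynomial.eval_mul, Polynomial.eval_C, Polynomial.eval_sub, eval_aeval_ppl,
      ppl_eval, abs_mul, abs_of_pos (by positivity)] at h1
    have e0 : pp D (D.ln ω) t l = (D.pa (D.ln ω) l).eval t := by
      unfold pp
      rw [if_neg (by
        have := hl.1
        omega)]
    rw [e0] at h1
    have h5 : 2 * (2 : ℝ) ^ (2 * z') ≤ exp (2 * z) := by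
      have e1 : (2 : ℝ) ^ (2 * z') = exp ((2 * z' : ℕ) * Real.log 2) := by
        rw [exp_nat_mul, exp_log (by norm_num)]
      have h6 : (2 : ℝ) ≤ exp (1 * z) := by
        have := Real.add_one_le_exp (1 * (z : ℝ))
        linarith
      have h7 : (2 : ℝ) ^ (2 * z') ≤ exp (1 * z) := by
        rw [e1]
        refine exp_le_exp.2 ?_
        have hl2 : Real.log 2 ≤ 1 := by linarith [Real.log_two_lt_d9]
        push_cast
        calc 2 * (z' : ℝ) * Real.log 2 ≤ 2 * (z' : ℝ) * 1 :=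
              mul_le_mul_of_nonneg_left hl2 (by positivity)
          _ ≤ 1 * z := by linarith
      calc 2 * (2 : ℝ) ^ (2 * z') ≤ exp (1 * z) * exp (1 * z) := by gcongr
        _ = exp (2 * z) := by rw [← exp_add]; ring_nf
    rw [le_div_iff₀ (by positivity)]
    linarith

/-- **The good event** of the labels with gain. -/
structure GoodU (D : NDat2) (U : GnL D) (n J w₀ z M : ℕ) (R : ℕ → Prop) (C : ℝ) (ω : D.Ω) :
    Prop where
  cl : ∀ i ≤ M, ∀ j ≤ M,
    Sp (D.g i j) (D.Φ i j ω) (uL U n R (D.Φ i j ω) (D.wn J w₀ ω)) n (exp (C * z))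
  pth : ∀ l, Ct n R l → ∀ t : ℝ, |t - D.X ω 0| ≤ 1 / 2 ^ w₀ →
    |(D.pa (D.ln ω) l).eval t - eval (pp D (D.ln ω) t) (U.UL l (D.wn J w₀ ω))| ≤
      exp (C * z) / 2 ^ U.pr l

theorem gf_Pb_not {W : Type} [Fintype W] {q : W → ℝ} (h1 : ∑ w, q w = 1) (A : W → Prop) :
    Pb q (fun w => ¬ A w) = 1 - Pb q A := by
  classical
  unfold Pb
  rw [← h1, ← Finset.sum_sub_distrib]
  refine Finset.sum_congr rfl fun w _ => ?_
  by_cases hA : A w
  · rw [if_neg (not_not.2 hA), if_pos hA, sub_self]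
  · rw [if_pos hA, if_neg hA, sub_zero]

theorem gf_Pb_or {W : Type} [Fintype W] {q : W → ℝ} (hq : ∀ w, 0 ≤ q w) (A B G : W → Prop)
    (h : ∀ w, G w → A w ∨ B w) : Pb q G ≤ Pb q A + Pb q B := by
  classical
  unfold Pb
  rw [← Finset.sum_add_distrib]
  refine Finset.sum_le_sum fun w _ => ?_
  have := hq w
  by_cases hG : G w
  · rw [if_pos hG]
    rcases h w hG with hA | hB
    · rw [if_pos hA]
      split_ifs <;> linarith
    · rw [if_pos hB]
      split_ifs <;> linarith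
  · rw [if_neg hG]
    split_ifs <;> linarith

/-- **The good event has a large probability.** -/
theorem gu_ev (n K : ℕ) (C₁ : ℝ) (hC₁ : 0 ≤ C₁) : ∃ C : ℝ, 0 ≤ C ∧ ∀ (M : ℕ) (e : ℝ), 0 < e →
    ∃ (κ₀ : ℝ) (z₀ : ℕ), 0 < κ₀ ∧
    ∀ (D : NDat2) (U : GnL D) (R : ℕ → Prop) (J a₀ w₀ z Q : ℕ) (lam gam : ℕ → ℝ) (κ κ' : ℝ)
      (q : D.Ω → ℝ), z₀ ≤ z → κ' ≤ κ₀ → D.Ok2 n K J a₀ w₀ z M lam gam κ C₁ q →
      D.TmU J w₀ z κ' q → U.Ok n K J a₀ w₀ z M Q R C₁ q →
      Pb q (fun ω => ¬ GoodU D U n J w₀ z M R C ω) ≤ e := by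
  classical
  obtain ⟨c, hc, hcl⟩ := cl_one n K C₁ hC₁
  refine ⟨c + 2, by linarith, ?_⟩
  intro M e he
  obtain ⟨κ₁, z₁, hκ₁, h1⟩ := hcl (e / 2 / ((M + 1) * (M + 1))) (by positivity)
  obtain ⟨κ₂, z₂, hκ₂, h2⟩ := pu_one n K (e / 2) (by positivity)
  refine ⟨min κ₁ κ₂, max z₁ z₂ + 1, lt_min hκ₁ hκ₂, ?_⟩
  intro D U R J a₀ w₀ z Q lam gam κ κ' q hz hκ hO hT hU
  have hz1 : z₁ ≤ z := by
    have := le_max_left z₁ z₂
    omega
  have hz2 : z₂ ≤ z := by
    have := le_max_right z₁ z₂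
    omega
  have hzr : (1 : ℝ) ≤ z := by
    have : 1 ≤ z := by omega
    exact_mod_cast this
  have hq0 := hO.isLaw.nonneg
  have h3 : ∀ i j, ∃ B : D.Ω → Prop, i ≤ M → j ≤ M → (∀ ω, B ω → 0 < q ω) ∧
      1 - e / 2 / ((M + 1) * (M + 1)) ≤ Pb q B ∧ ∀ ω, B ω →
        Sp (D.g i j) (D.Φ i j ω) (uL U n R (D.Φ i j ω) (D.wn J w₀ ω)) n (exp (c * z)) := by
    intro i j
    by_cases hi : i ≤ M
    · by_cases hj : j ≤ M
      · obtain ⟨B, hB⟩ := h1 D U R J a₀ w₀ z M Q lam gam κ κ' q hz1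
          (hκ.trans (min_le_left _ _)) hO hT hU i hi j hj
        exact ⟨B, fun _ _ => hB⟩
      · exact ⟨fun _ => True, fun _ h => absurd h hj⟩
    · exact ⟨fun _ => True, fun h => absurd h hi⟩
  choose B hB using h3
  obtain ⟨B', hB'1, hB'2, hB'3⟩ := h2 D U R J a₀ w₀ z M Q lam gam κ κ' C₁ q hz2
    (hκ.trans (min_le_right _ _)) hO hT hU
  have a1 : Pb q (fun ω => ¬ ∀ i ≤ M, ∀ j ≤ M, B i j ω) ≤ e / 2 := by
    have h4 := Pb_sq hq0 M (fun i j ω => ¬ B i j ω) (fun ω => ¬ ∀ i ≤ M, ∀ j ≤ M, B i j ω) (by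
      intro ω _ hω
      push Not at hω
      exact hω)
    refine h4.trans ?_
    have h5 : ∀ i ∈ range (M + 1), ∀ j ∈ range (M + 1),
        Pb q (fun ω => ¬ B i j ω) ≤ e / 2 / ((M + 1) * (M + 1)) := by
      intro i hi j hj
      rw [gf_Pb_not hO.isLaw.sum_one]
      have := (hB i j (Nat.lt_succ_iff.1 (mem_range.1 hi))
        (Nat.lt_succ_iff.1 (mem_range.1 hj))).2.1
      linarith
    refine (Finset.sum_le_sum fun i hi => Finset.sum_le_sum fun j hj => h5 i hi j hj).trans ?_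
    rw [Finset.sum_const, Finset.sum_const, card_range, nsmul_eq_mul, nsmul_eq_mul]
    push_cast
    refine le_of_eq ?_
    field_simp
  have a2 : Pb q (fun ω => ¬ B' ω) ≤ e / 2 := by
    rw [gf_Pb_not hO.isLaw.sum_one]
    linarith
  refine (gf_Pb_or hq0 (fun ω => ¬ ∀ i ≤ M, ∀ j ≤ M, B i j ω) (fun ω => ¬ B' ω) _ ?_).trans
    (by linarith)
  intro ω hω
  by_contra hcon
  push Not at hcon
  obtain ⟨b1, b2⟩ := hcon
  refine hω ⟨fun i hi j hj => ?_, fun l hl t ht => ?_⟩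
  · exact ((hB i j hi hj).2.2 ω (b1 i hi j hj)).mono le_rfl (ex_mono (by linarith) hzr)
  · exact (hB'3 ω b2 l hl t ht).trans
      (div_le_div_of_nonneg_right (ex_mono (by linarith) hzr) (by positivity))

end Pool.P4
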