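import Pool.Agent.H52.P4.Rel
import Pool.Agent.H14.P4.Thin

/-!
# P4, labels with gain over the frames: the system of the labels with gain

`Ct`: the contact coordinates. `sysU`: a system in which the labels of the contact coordinates are
replaced by the labels with gain. At the scale of the radius it is near to every frame.
-/

set_option autoImplicit false

namespace Pool.P4

open Finset Real MvPolynomial
open Pool.Agent.H49.Ent Pool.Agent.H32.Dense Pool.STK Pool.STAT Pool.MIC.Frm Pool.FRM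
open Pool.MIC.Fru (gw nat_gw nat_gw0 atT_tri atT_deg)

/-- Contact coordinates: they have a label with gain. -/
def Ct (n : ℕ) (R : ℕ → Prop) (l : ℕ) : Prop := 1 ≤ l ∧ l < n ∧ ¬ R l

open Classical in
/-- The system `P` with the labels `F` at the contact coordinates. -/
noncomputable def sysU (n : ℕ) (R : ℕ → Prop) (P F : ℕ → PN) (l : ℕ) : PN :=
  if Ct n R l then F l else P l

section

variable {n K m : ℕ} {R : ℕ → Prop} {P F : ℕ → PN} {l : ℕ}

theorem sysU_ct (h : Ct n R l) : sysU n R P F l = F l := if_pos h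

theorem sysU_nt (h : ¬ Ct n R l) : sysU n R P F l = P l := if_neg h

theorem tg_sysU (hP : Tg K m P) (vF : ∀ l, (F l).vars ⊆ range l)
    (dF : ∀ l, (F l).totalDegree ≤ K) : Tg K m (sysU n R P F) := by
  refine ⟨fun l => ?_, fun l hl => ?_⟩
  · by_cases h : Ct n R l
    · rw [sysU_ct h]
      exact vF l
    · rw [sysU_nt h]
      exact hP.tri l
  · by_cases h : Ct n R l
    · rw [sysU_ct h]
      exact dF l
    · rw [sysU_nt h]
      exact hP.deg l hl

/-- Only the contact coordinates matter. -/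
theorem sp_sysU {g : ℕ → ℕ} {Ψ : ℕ → PN} {S : ℝ} (hS : 0 ≤ S)
    (h : Sp g P (sysU n R Ψ F) m S) : Sp g P (sysU n R P F) m S := by
  intro l hl x hx
  by_cases hc : Ct n R l
  · have := h l hl x hx
    rw [sysU_ct hc] at this ⊢
    exact this
  · rw [sysU_nt hc, sub_self, abs_zero]
    positivity

/-- Only the contact coordinates matter, at one time. -/
theorem sp_sysT {g : ℕ → ℕ} {Ψ : ℕ → PN} {S t : ℝ} (hS : 0 ≤ S)
    (h : Sp g (atT t P) (atT t (sysU n R Ψ F)) m S) :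
    Sp g (atT t P) (atT t (sysU n R P F)) m S := by
  intro l hl x hx
  by_cases hc : Ct n R l
  · have := h l hl x hx
    rw [atT_ne _ _ hc.1, atT_ne _ _ hc.1, sysU_ct hc] at this ⊢
    exact this
  · rcases Nat.eq_zero_or_pos l with h0 | h0
    · rw [h0]
      unfold atT
      rw [Function.update_self, Function.update_self, sub_self, abs_zero]
      positivity
    · rw [atT_ne _ _ h0, atT_ne _ _ h0, sysU_nt hc, sub_self, abs_zero]
      positivity

end

section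

variable {D : NDat2} {U : GnL D} {n K J a₀ w₀ z M Q : ℕ} {R : ℕ → Prop} {C₁ : ℝ} {q : D.Ω → ℝ}

/-- The visible labels with gain, as a system over `P`. -/
noncomputable def uD (U : GnL D) (n : ℕ) (R : ℕ → Prop) (P : ℕ → PN) (x : D.Ξ) : ℕ → PN :=
  sysU n R P fun l => U.UD l x

/-- The labels with gain of the line, as a system over `P`. -/
noncomputable def uL (U : GnL D) (n : ℕ) (R : ℕ → Prop) (P : ℕ → PN) (x : D.Λ × ℕ) : ℕ → PN :=
  sysU n R P fun l => U.UL l x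

theorem tg_uD {K' : ℕ} {P : ℕ → PN} (hU : U.Ok n K J a₀ w₀ z M Q R C₁ q) (hK : K ≤ K')
    (hP : Tg K' n P) (x : D.Ξ) : Tg K' n (uD U n R P x) :=
  tg_sysU hP (fun l => hU.varD l x) fun l => (hU.degD l x).trans hK

theorem tg_uL {K' : ℕ} {P : ℕ → PN} (hU : U.Ok n K J a₀ w₀ z M Q R C₁ q) (hK : K ≤ K')
    (hP : Tg K' n P) (x : D.Λ × ℕ) : Tg K' n (uL U n R P x) :=
  tg_sysU hP (fun l => hU.varL l x) fun l => (hU.degL l x).trans hK

/-- The natural box, from the box of the radius. -/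
theorem nb_of_bx {i j l : ℕ} {ω : D.Ω} {x : ℕ → ℝ} (hl : 1 ≤ l)
    (hx : Bx (gw (a₀ + i * z) (D.g i j)) (atT (D.X ω 0) (D.Ψ i j ω)) l 1 x) :
    D.NB i j (a₀ + i * z) l ω x := by
  constructor
  · have := hx 0 hl
    rw [nat_gw0, abs_mul, abs_of_pos (by positivity : (0 : ℝ) < 2 ^ (a₀ + i * z))] at this
    rw [le_div_iff₀ (by positivity)]
    linarith
  · intro k hk1 hkl
    have := hx k hkl
    rw [nat_gw' _ _ _ _ _ hk1] at this
    unfold nat at this
    rw [abs_mul, abs_of_pos (by positivity : (0 : ℝ) < 2 ^ D.g i j k)] at this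
    rw [le_div_iff₀ (by positivity)]
    linarith

/-- The visible labels with gain are near to the visible labels. -/
theorem u_vis (hU : U.Ok n K J a₀ w₀ z M Q R C₁ q) {i j : ℕ} (hi : i ≤ M) (hj : j ≤ M) {ω : D.Ω}
    (hω : 0 < q ω) : Sp (gw (a₀ + i * z) (D.g i j)) (atT (D.X ω 0) (D.Ψ i j ω))
      (atT (D.X ω 0) (uD U n R (D.Ψ i j ω) (D.pt ω))) n (exp (C₁ * z)) := by
  intro l hl x hx
  by_cases hc : Ct n R l
  · have h1 := hU.near l hc.1 hc.2.1 hc.2.2 i hi j hj ω hω x (nb_of_bx hc.1 hx)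
    rw [atT_ne _ _ hc.1, atT_ne _ _ hc.1, gw_ne _ _ hc.1]
    unfold uD
    rw [sysU_ct hc]
    exact h1
  · rcases Nat.eq_zero_or_pos l with h0 | h0
    · rw [h0]
      unfold atT
      rw [Function.update_self, Function.update_self, sub_self, abs_zero]
      positivity
    · rw [atT_ne _ _ h0, atT_ne _ _ h0]
      unfold uD
      rw [sysU_nt hc, sub_self, abs_zero]
      positivity

/-- The labels with gain of the line are near to the visible labels. -/
theorem u_lin (hU : U.Ok n K J a₀ w₀ z M Q R C₁ q) (hz : 1 ≤ z) (hC₁ : 0 ≤ C₁) {i j : ℕ}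
    (hi : i ≤ M) (hj : j ≤ M) {ω : D.Ω} (hω : 0 < q ω) :
    Sp (gw (a₀ + i * z) (D.g i j)) (atT (D.X ω 0) (D.Ψ i j ω))
      (atT (D.X ω 0) (uL U n R (D.Ψ i j ω) (D.wn J w₀ ω))) n (exp ((C₁ + 1) * z)) := by
  have hzr : (1 : ℝ) ≤ z := by exact_mod_cast hz
  intro l hl x hx
  by_cases hc : Ct n R l
  · have hnb := nb_of_bx hc.1 hx
    have h1 := hU.near l hc.1 hc.2.1 hc.2.2 i hi j hj ω hω x hnb
    have h2 := hU.two l hc.1 hc.2.1 hc.2.2 i hi j hj ω hω x hnb
    have h3 := hU.deep l hc.1 hc.2.1 hc.2.2 i hi j hj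
    rw [atT_ne _ _ hc.1, atT_ne _ _ hc.1, gw_ne _ _ hc.1]
    unfold uL
    rw [sysU_ct hc]
    have h4 : (1 : ℝ) / 2 ^ U.pr l ≤ 1 / 2 ^ D.g i j l :=
      one_div_le_one_div_of_le (by positivity) (pow_le_pow_right₀ one_le_two (by omega))
    have e1 : eval x (U.UL l (D.wn J w₀ ω)) - eval x (D.Ψ i j ω l) =
        (eval x (U.UD l (D.pt ω)) - eval x (D.Ψ i j ω l)) -
          (eval x (U.UD l (D.pt ω)) - eval x (U.UL l (D.wn J w₀ ω))) := by ring
    rw [e1]
    refine (abs_sub _ _).trans ((add_le_add h1 (h2.trans h4)).trans ?_)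
    rw [← add_div]
    refine div_le_div_of_nonneg_right ?_ (by positivity)
    have h5 : (1 : ℝ) ≤ exp (C₁ * z) := ex_one hC₁ hzr
    have h6 : (2 : ℝ) ≤ exp (1 * z) := by
      have := Real.add_one_le_exp (1 * (z : ℝ))
      linarith
    calc exp (C₁ * z) + 1 ≤ exp (C₁ * z) * 2 := by linarith
      _ ≤ exp (C₁ * z) * exp (1 * z) := mul_le_mul_of_nonneg_left h6 (exp_pos _).le
      _ = _ := by rw [← exp_add]; ring_nf
  · rcases Nat.eq_zero_or_pos l with h0 | h0
    · rw [h0]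
      unfold atT
      rw [Function.update_self, Function.update_self, sub_self, abs_zero]
      positivity
    · rw [atT_ne _ _ h0, atT_ne _ _ h0]
      unfold uL
      rw [sysU_nt hc, sub_self, abs_zero]
      positivity

end

/-- **The labels with gain are near to the frames**, at the scale of the radius. -/
theorem u_rad (n K : ℕ) (C C₁ : ℝ) (hC : 0 ≤ C) (hC₁ : 0 ≤ C₁) : ∃ c' : ℝ, 0 ≤ c' ∧
    ∀ (D : NDat2) (U : GnL D) (R : ℕ → Prop) (K₁ J a₀ w₀ z M Q : ℕ) (lam gam : ℕ → ℝ) (κ : ℝ)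
      (q : D.Ω → ℝ), D.Ok2 n K₁ J a₀ w₀ z M lam gam κ C₁ q → U.Ok n K₁ J a₀ w₀ z M Q R C₁ q →
      K₁ ≤ K → 1 ≤ z → ∀ i ≤ M, ∀ j ≤ M, ∀ ω, 0 < q ω → ∀ P : ℕ → PN, Tg K n P →
      Sp (gw (a₀ + i * z) (D.g i j)) (atT (D.X ω 0) P) (atT (D.X ω 0) (D.Ψ i j ω)) n
        (exp (C * z)) →
      Sp (gw (a₀ + i * z) (D.g i j)) (atT (D.X ω 0) P)
        (atT (D.X ω 0) (uD U n R P (D.pt ω))) n (exp (c' * z)) ∧
      Sp (gw (a₀ + i * z) (D.g i j)) (atT (D.X ω 0) P)
        (atT (D.X ω 0) (uL U n R P (D.wn J w₀ ω))) n (exp (c' * z)) := by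
  obtain ⟨c₂, h2, ht⟩ := sp_trans n K C (C₁ + 1) hC (by linarith)
  refine ⟨c₂, hC.trans h2, ?_⟩
  intro D U R K₁ J a₀ w₀ z M Q lam gam κ q hO hU hK hz i hi j hj ω hω P hP hS
  have hzr : (1 : ℝ) ≤ z := by exact_mod_cast hz
  have hΨ : Tg K n (D.Ψ i j ω) := ⟨hO.G_tri i j _, fun l _ => (hO.G_deg i j _ l).trans hK⟩
  constructor
  · refine sp_sysT (Ψ := D.Ψ i j ω) (exp_pos _).le ?_
    exact ht z _ _ _ _ hzr (tg_atT hP _) (tg_atT hΨ _) (tg_atT (tg_uD hU hK hΨ _) _) hS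
      ((u_vis hU hi hj hω).mono le_rfl (ex_mono (by linarith) hzr))
  · refine sp_sysT (Ψ := D.Ψ i j ω) (exp_pos _).le ?_
    exact ht z _ _ _ _ hzr (tg_atT hP _) (tg_atT hΨ _) (tg_atT (tg_uL hU hK hΨ _) _) hS
      (u_lin hU hz hC₁ hi hj hω)

end Pool.P4
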