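import Pool.Agent.H25.P4.GfI
import Pool.Agent.H52.P4.Nbt
import Pool.Agent.H21.P4.EndS

/-!
# P4: the labels with gain, in the letters of the assembly

`gfS`: the statement `GfS` of the last assembly.
-/

set_option autoImplicit false

namespace Pool.P4

open Finset Real MvPolynomial Matrix
open Pool.Agent.H49.Ent Pool.Agent.H32.Dense Pool.STK Pool.STAT Pool.MIC.Frm Pool.MIC7 Pool.FRM
open Pool.GSD
open Pool.LBL (Ld)

open Classical in
/-- **(GF)**, in the letters of the assembly. -/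
theorem gfS : GfS := by
  intro n K K' c k C₀ C₁ Cu gam hC₀ hC₁ hCu
  obtain ⟨B, hB, hbox⟩ := nbt_box n (max K K') C₀ C₁ hC₀ hC₁
  obtain ⟨C₂, hC₂, hgf⟩ := gf n (max K K') C₀ C₁ Cu B hC₀ hC₁ hCu (by linarith)
  refine ⟨C₂, hC₂, fun C hC => ?_⟩
  obtain ⟨C₃, hC₃⟩ : ∃ C₃ : ℝ, C₃ = C₂ + 2 * C₁ + 1 := ⟨_, rfl⟩
  refine ⟨C₃, by rw [hC₃]; linarith, ?_⟩
  intro D U R J a₀ w₀ z M w i j r r' r'' a y X Q lam κ q E P S ys gs H hPl hG hgd hU Fz hFz
  have hF := H.fx hPl hG hgd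
  have hzr : (1 : ℝ) ≤ z := by exact_mod_cast hF.z1
  have hI : Ix n c k (sl gam n) (gr gam n) ys gs :=
    ⟨H.ys_sl, H.ys_in, H.ys_on, H.gs_gr, H.gs_in, H.gs_on, hF.num.dic, hF.dic⟩
  have haz : exp (C₂ * z) ≤ 2 ^ (a * z) := by
    have h1 := H.yX
    have h2 : exp (C * z) ≤ exp (C * z) * 2 ^ X :=
      le_mul_of_one_le_right (exp_pos _).le (one_le_pow₀ one_le_two)
    have h3 : (2 : ℝ) ^ (y * z) ≤ 2 ^ (a * z) :=
      pow_le_pow_right₀ one_le_two (Nat.mul_le_mul_right z hF.ya)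
    exact (ex_mono hC hzr).trans (h2.trans (h1.trans h3))
  obtain ⟨fD, fL, p0, p1, hd⟩ := hgf D U R K K' J a₀ w₀ z M w i j r r' r'' a y Q c k lam gam κ q E
    P S ys gs hF hPl hG hU hI H.w1 H.w2 haz
  have hCt : ∀ g, g ∈ Fz → Ct n R (gs g) := fun g hg =>
    ⟨(hI.di.g1 _ (H.gs_gr g)).1, ((hFz g).1 hg).1, ((hFz g).1 hg).2⟩
  have he : exp (C₂ * z) ≤ exp (C₃ * z) := ex_mono (by rw [hC₃]; linarith) hzr
  have hs : (0 : ℝ) ≤ 1 / 2 ^ (y * z) + 1 / 2 ^ (Q * z) := by positivity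
  refine ⟨fD, fL, p0, p1, ?_⟩
  refine
    { ldD := fun x g _ => ⟨(hd.ldD x g).1, fun u => ((hd.ldD x g).2 u).trans he⟩
      ldL := fun x g _ => ⟨(hd.ldL x g).1, fun u => ((hd.ldL x g).2 u).trans he⟩
      pb := fun x g _ a => ⟨(hd.sz x g a).1.trans he, (hd.sz x g a).2.1.trans he⟩
      pz := fun x g _ a h => (hd.sz x g a).2.2 h
      cl := ?_
      af := ?_
      bx := ?_ }
  · rintro ω ⟨hω, hgu⟩ g hg l
    have h1 := hd.cl ω hω hgu g (hCt g hg) l
    have e1 : (fD (D.pt ω) g ᵥ*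
        MF i j r E (rcd D i j r a) (cMx D J a₀ z i j r a E P gs) ω) l =
        ∑ v, fD (D.pt ω) g v * cM D J a₀ z i j r a E P (bb D i j r ω) (rcd D i j r a ω) (gs v)
          (gs l) := by
      unfold MF
      rw [if_pos hω]
      unfold cMx
      simp only [Matrix.vecMul, dotProduct, Matrix.of_apply]
    rw [e1]
    exact h1.trans (mul_le_mul_of_nonneg_right he hs)
  · rintro ω ⟨hω, hgu⟩ g hg b
    refine (hd.af ω hω hgu g (hCt g hg) b).trans ?_
    rw [← mul_one_div]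
    exact mul_le_mul he (le_add_of_nonneg_right (by positivity)) (by positivity) (exp_pos _).le
  · rintro ω ⟨hω, hgu⟩ l g hg hgl b hb
    have hgn := hI.di.g1 _ (H.gs_gr l)
    have hct := hCt g hg
    have hr1 := hPl.stp.s2'
    have hy1 := hPl.y1
    have hjr := hF.jM
    have hjM : j + 1 < M := by omega
    have hbx := hbox D K K' J a₀ w₀ z M i j r r' a y lam gam κ q E P _ _ hF hjM H.gam0 U R Q hU ω
      hω (gs l) hgn.2 b hb
    have lv := lev2 hF.ok hF.iM.le hjM.le (i₂ := i) hF.iM.le (j₂ := j) (by omega) hct.1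
      hct.2.1.le
    rw [abs_le] at lv
    push_cast at lv
    have hp : (2 : ℝ) ^ D.g i j (gs g) ≤ exp (2 * C₁ * z) * 2 ^ D.g i (j + 1) (gs g) := by
      refine pw_le ?_ (by positivity)
      have : 0 ≤ gam (gs g) * z := mul_nonneg (H.gam0 _) (by linarith)
      nlinarith [lv.1, lv.2]
    have key := hd.bx ω hω hgu g hct b
      (hb.1.trans (div_le_div_of_nonneg_right (one_le_exp (by positivity)) (by positivity)))
      (fun l' _ h2 => hbx l' (h2.trans hgl)) (exp (2 * C₁ * z) / 2 ^ (Q * z)) (by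
        refine ((hb.2 (gs g) hct.1 hgl).2 hct.2.2).trans ?_
        rw [div_div, div_le_div_iff₀ (by positivity) (by positivity), one_mul, pow_add]
        have := mul_le_mul_of_nonneg_right hp (show (0 : ℝ) ≤ 2 ^ (Q * z) by positivity)
        linarith)
    refine key.trans ?_
    have f1 : exp (2 * C₁ * z) / 2 ^ (Q * z) ≤
        exp (2 * C₁ * z) * (1 / 2 ^ (y * z) + 1 / 2 ^ (Q * z)) := by
      rw [← mul_one_div]
      exact mul_le_mul_of_nonneg_left (le_add_of_nonneg_left (by positivity)) (exp_pos _).le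
    have f2 : exp (2 * C₁ * z) + exp (C₂ * z) ≤ exp (C₃ * z) := by
      have g1 : (1 : ℝ) ≤ exp (2 * C₁ * z) := one_le_exp (by positivity)
      have g2 : (1 : ℝ) ≤ exp (C₂ * z) := one_le_exp (by positivity)
      have g3 : (2 : ℝ) ≤ exp (1 * z) := by
        have := Real.add_one_le_exp (1 * (z : ℝ))
        linarith
      calc exp (2 * C₁ * z) + exp (C₂ * z) ≤ 2 * (exp (2 * C₁ * z) * exp (C₂ * z)) := by nlinarith
        _ ≤ exp (1 * z) * (exp (2 * C₁ * z) * exp (C₂ * z)) :=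
          mul_le_mul_of_nonneg_right g3 (by positivity)
        _ = _ := by
          rw [← exp_add, ← exp_add, hC₃]
          ring_nf
    calc _ ≤ (exp (2 * C₁ * z) + exp (C₂ * z)) * (1 / 2 ^ (y * z) + 1 / 2 ^ (Q * z)) := by
          rw [add_mul]
          exact add_le_add f1 le_rfl
      _ ≤ _ := mul_le_mul_of_nonneg_right f2 hs

end Pool.P4
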