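import Pool.Agent.H25.P4.GfA
import Pool.Agent.H70.P4.Pth

/-!
# P4, labels with gain over the frames: the whole windows

Remez in the time: the labels with gain of the line are near to the closed labels on the natural
boxes with the whole window, off a small event.
-/

set_option autoImplicit false

namespace Pool.P4

open Finset Real MvPolynomial
open Pool.Agent.H49.Ent Pool.Agent.H32.Dense Pool.STK Pool.KA Pool.K2S Pool.STAT Pool.STAT.Glu
open Pool.MIC.Frm Pool.FRM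
open Pool.MIC.Fru (gw nat_gw nat_gw0 atT_tri atT_deg)
open Pool.BFL (Pb)

/-- Growth of a polynomial in one variable. -/
theorem grow1 (N : ℕ) : ∃ C : ℝ, 1 ≤ C ∧ ∀ (f : Polynomial ℝ) (t₀ ρ A : ℝ), f.natDegree ≤ N →
    0 < ρ → (∀ t, |t - t₀| ≤ ρ → |f.eval t| ≤ A) → ∀ t, |t - t₀| ≤ 2 * ρ →
    |f.eval t| ≤ C * A := by
  obtain ⟨C, hC, hcb⟩ := Pool.KAL.TAY.coef_bound N
  refine ⟨(N + 1) * C * 2 ^ N + 1, by
    have : 0 ≤ ((N : ℝ) + 1) * C * 2 ^ N := by positivity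
    linarith, ?_⟩
  intro f t₀ ρ A hN hρ hA t ht
  have hA0 : 0 ≤ A := (abs_nonneg _).trans (hA t₀ (by rw [sub_self, abs_zero]; exact hρ.le))
  obtain ⟨q, hq⟩ : ∃ q : Polynomial ℝ, q = f.comp (Polynomial.C t₀ + Polynomial.C ρ *
    Polynomial.X) := ⟨_, rfl⟩
  have hev : ∀ u, q.eval u = f.eval (t₀ + ρ * u) := fun u => by
    rw [hq, Polynomial.eval_comp, Polynomial.eval_add, Polynomial.eval_C, Polynomial.eval_mul,
      Polynomial.eval_C, Polynomial.eval_X]
  have hqd : q.natDegree ≤ N := by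
    rw [hq]
    refine Polynomial.natDegree_comp_le.trans ?_
    have h1 : (Polynomial.C t₀ + Polynomial.C ρ * Polynomial.X : Polynomial ℝ).natDegree ≤ 1 := by
      refine (Polynomial.natDegree_add_le _ _).trans (max_le ?_ ?_)
      · rw [Polynomial.natDegree_C]
        exact Nat.zero_le _
      · exact (Polynomial.natDegree_C_mul_le _ _).trans Polynomial.natDegree_X_le
    calc f.natDegree * _ ≤ N * 1 := Nat.mul_le_mul hN h1
      _ = N := mul_one N
  have hco : ∀ m ≤ N, |q.coeff m| ≤ C * A := hcb q A hqd fun u u0 u1 => by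
    rw [hev]
    refine hA _ ?_
    rw [add_sub_cancel_left, abs_mul, abs_of_pos hρ, abs_of_nonneg u0]
    exact mul_le_of_le_one_right hρ.le u1
  have hu : |(t - t₀) / ρ| ≤ 2 := by
    rw [abs_div, abs_of_pos hρ, div_le_iff₀ hρ]
    exact ht
  have e1 : f.eval t = q.eval ((t - t₀) / ρ) := by
    rw [hev, mul_div_cancel₀ _ hρ.ne', add_sub_cancel]
  rw [e1, Polynomial.eval_eq_sum_range' (Nat.lt_succ_of_le hqd)]
  refine (Finset.abs_sum_le_sum_abs _ _).trans ?_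
  have h1 : ∀ m ∈ range (N + 1), |q.coeff m * ((t - t₀) / ρ) ^ m| ≤ C * A * 2 ^ N := by
    intro m hm
    rw [abs_mul, abs_pow]
    refine mul_le_mul (hco m (Nat.lt_succ_iff.1 (mem_range.1 hm))) ?_ (by positivity)
      (by positivity)
    exact (pow_le_pow_left₀ (abs_nonneg _) hu m).trans
      (pow_le_pow_right₀ one_le_two (Nat.lt_succ_iff.1 (mem_range.1 hm)))
  refine (Finset.sum_le_sum h1).trans ?_
  rw [Finset.sum_const, card_range, nsmul_eq_mul]
  push_cast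
  nlinarith

theorem eval_aevalP {σ : Type} (G : σ → Polynomial ℝ) (F : MvPolynomial σ ℝ) (t : ℝ) :
    (MvPolynomial.aeval G F).eval t = eval (fun k => (G k).eval t) F := by
  rw [MvPolynomial.aeval_def, MvPolynomial.eval₂_eq, MvPolynomial.eval_eq,
    Polynomial.eval_finsetSum]
  refine Finset.sum_congr rfl fun α _ => ?_
  rw [Polynomial.eval_mul, Polynomial.eval_prod]
  simp only [Polynomial.eval_pow]
  rw [show (algebraMap ℝ (Polynomial ℝ)) (MvPolynomial.coeff α F) =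
    Polynomial.C (MvPolynomial.coeff α F) from rfl, Polynomial.eval_C]

/-- The point with the coordinates of `x` over `Φ` and the time `t`. -/
noncomputable def xt (Φ : ℕ → PN) (x : ℕ → ℝ) (t : ℝ) : ℕ → ℝ :=
  ps Φ fun k => if k = 0 then t - eval x (Φ 0) else zs Φ x k

/-- The difference of two labels along the points with the coordinates of `x`. -/
noncomputable def vpl (g : ℕ → ℕ) (Φ F : ℕ → PN) (l : ℕ) (x : ℕ → ℝ) : Polynomial ℝ :=
  Polynomial.C ((2 : ℝ) ^ g l) * MvPolynomial.aeval (fun k : ℕ => if k = 0 then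
    Polynomial.X - Polynomial.C (eval x (Φ 0)) else Polynomial.C (zs Φ x k)) (chr Φ (F l - Φ l))

section

variable {g : ℕ → ℕ} {Φ F : ℕ → PN} {l n K : ℕ} {x : ℕ → ℝ} {t : ℝ}

theorem vpl_eval : (vpl g Φ F l x).eval t =
    2 ^ g l * (eval (xt Φ x t) (F l) - eval (xt Φ x t) (Φ l)) := by
  unfold vpl xt
  rw [Polynomial.eval_mul, Polynomial.eval_C, eval_aevalP]
  congr 1
  have e : (fun k : ℕ => (if k = 0 then Polynomial.X - Polynomial.C (eval x (Φ 0)) else
      Polynomial.C (zs Φ x k) : Polynomial ℝ).eval t) =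
      fun k => if k = 0 then t - eval x (Φ 0) else zs Φ x k := by
    funext k
    split_ifs
    · rw [Polynomial.eval_sub, Polynomial.eval_X, Polynomial.eval_C]
    · rw [Polynomial.eval_C]
  rw [e, chr_eval', map_sub]

theorem ev0 (hΦ : TriN Φ) (x y : ℕ → ℝ) : eval x (Φ 0) = eval y (Φ 0) :=
  Pool.SYS35.eval_congr (hΦ 0) fun i hi => absurd hi (Nat.not_lt_zero i)

theorem xt_zero (hΦ : TriN Φ) : xt Φ x t 0 = t := by
  unfold xt
  rw [ps_eq hΦ, if_pos rfl, ev0 hΦ _ x]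
  ring

theorem xt_zs (hΦ : TriN Φ) {k : ℕ} (hk : 1 ≤ k) : zs Φ (xt Φ x t) k = zs Φ x k := by
  unfold xt
  rw [zs_ps hΦ, if_neg (by omega)]

theorem xt_self (hΦ : TriN Φ) : xt Φ x (x 0) = x := by
  unfold xt
  have e : (fun k => if k = 0 then x 0 - eval x (Φ 0) else zs Φ x k) = zs Φ x := by
    funext k
    split_ifs with h
    · rw [h]
      rfl
    · rfl
  rw [e, ps_zs hΦ]

theorem vpl_deg (hΦ : Tg K n Φ) (hF : Tg K n F) (hl : l ≤ n) :
    (vpl g Φ F l x).natDegree ≤ K * (K + 1) ^ n := by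
  unfold vpl
  refine (Polynomial.natDegree_C_mul_le _ _).trans ?_
  have h1 : (chr Φ (F l - Φ l)).totalDegree ≤ K * (K + 1) ^ n := by
    refine (chr_deg hΦ.tri (fun i hi => hΦ.deg i (by omega))
      (AdxRow.vars_sub_le (hF.tri l) (hΦ.tri l))
      ((totalDegree_sub _ _).trans (max_le (hF.deg l hl) (hΦ.deg l hl)))).trans ?_
    exact Nat.mul_le_mul_left _ (Nat.pow_le_pow_right (Nat.succ_pos _) hl)
  refine (nd_aeval _ _ (d := 1) (fun k => ?_) h1).trans (mul_one _).le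
  split_ifs
  · refine (Polynomial.natDegree_sub_le _ _).trans (max_le Polynomial.natDegree_X_le ?_)
    rw [Polynomial.natDegree_C]
    exact Nat.zero_le _
  · rw [Polynomial.natDegree_C]
    exact Nat.zero_le _

end

/-- A violation. -/
def Vi (g : ℕ → ℕ) (Φ F : ℕ → PN) (n : ℕ) (S : ℝ) (p : ℕ × (ℕ → ℝ)) : Prop :=
  p.1 ≤ n ∧ Bx g Φ p.1 1 p.2 ∧ S / 2 ^ g p.1 < |eval p.2 (F p.1) - eval p.2 (Φ p.1)|

open Classical in
/-- The difference along a violation. -/
noncomputable def vio (g : ℕ → ℕ) (Φ F : ℕ → PN) (n : ℕ) (S A : ℝ) : Polynomial ℝ :=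
  if h : ∃ p : ℕ × (ℕ → ℝ), Vi g Φ F n S p then
    Polynomial.C A * vpl g Φ F h.choose.1 h.choose.2 else 0

theorem sp_refl {g : ℕ → ℕ} {P : ℕ → PN} {m : ℕ} {S : ℝ} (hS : 0 ≤ S) : Sp g P P m S := by
  intro l _ x _
  rw [sub_self, abs_zero]
  positivity

/-- **The labels with gain are near to the closed labels**, on the whole window. -/
theorem cl_one (n K : ℕ) (C₁ : ℝ) (hC₁ : 0 ≤ C₁) : ∃ c : ℝ, 0 ≤ c ∧ ∀ η : ℝ, 0 < η →
    ∃ (κ₀ : ℝ) (z₀ : ℕ), 0 < κ₀ ∧
    ∀ (D : NDat2) (U : GnL D) (R : ℕ → Prop) (J a₀ w₀ z M Q : ℕ) (lam gam : ℕ → ℝ) (κ κ' : ℝ)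
      (q : D.Ω → ℝ), z₀ ≤ z → κ' ≤ κ₀ → D.Ok2 n K J a₀ w₀ z M lam gam κ C₁ q →
      D.TmU J w₀ z κ' q → U.Ok n K J a₀ w₀ z M Q R C₁ q → ∀ i ≤ M, ∀ j ≤ M,
      ∃ B : D.Ω → Prop, (∀ ω, B ω → 0 < q ω) ∧ 1 - η ≤ Pb q B ∧ ∀ ω, B ω →
        Sp (D.g i j) (D.Φ i j ω) (uL U n R (D.Φ i j ω) (D.wn J w₀ ω)) n (exp (c * z)) := by
  classical
  obtain ⟨c₃, h3, hrad⟩ := rad_sp n K 0 le_rfl
  obtain ⟨c', hc', hu⟩ := u_rad n K c₃ C₁ h3 hC₁
  obtain ⟨N, hN⟩ : ∃ N : ℕ, N = K * (K + 1) ^ n := ⟨_, rfl⟩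
  obtain ⟨CN, hCN, hgr⟩ := grow1 N
  refine ⟨c' + 2 + CN, by linarith, ?_⟩
  intro η hη
  obtain ⟨η₁, hη₁⟩ : ∃ η₁ : ℝ, η₁ = min η 1 := ⟨_, rfl⟩
  have hη0 : 0 < η₁ := by rw [hη₁]; exact lt_min hη one_pos
  have hη1 : η₁ ≤ 1 := by rw [hη₁]; exact min_le_right _ _
  have hηη : η₁ ≤ η := by rw [hη₁]; exact min_le_left _ _
  obtain ⟨C, hC, h⟩ := rmz_det N Unit η₁ hη0
  obtain ⟨z₀, hz₀⟩ := exists_nat_ge (4 * C + 4)
  refine ⟨1 / (4 * C), z₀, by positivity, ?_⟩
  intro D U R J a₀ w₀ z M Q lam gam κ κ' q hz hκ hO hT hU i hi j hj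
  have hzz : (z₀ : ℝ) ≤ z := by exact_mod_cast hz
  have hz0 : (0 : ℝ) ≤ z := Nat.cast_nonneg z
  have hbig : 4 * C + 4 ≤ z := by linarith
  have hzr : (1 : ℝ) ≤ z := by linarith
  have hz1 : 1 ≤ z := by exact_mod_cast hzr
  obtain ⟨E, hE⟩ : ∃ E : ℝ, E = 1 + 1 / (4 * C) * z := ⟨_, rfl⟩
  have hE1 : 1 ≤ E := by
    rw [hE]
    have : 0 ≤ 1 / (4 * C) * z := by positivity
    linarith
  obtain ⟨z', hz'⟩ : ∃ z' : ℕ, z' = ⌈C * E⌉₊ := ⟨_, rfl⟩
  have hz'1 : C * E ≤ z' := by rw [hz']; exact Nat.le_ceil _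
  have hz'2 : (z' : ℝ) < C * E + 1 := by
    rw [hz']
    exact Nat.ceil_lt_add_one (by positivity)
  have hCE : C * E = C + z / 4 := by
    rw [hE]
    field_simp
  have h2z' : 2 * (z' : ℝ) ≤ z := by
    have : 2 * (z' : ℝ) ≤ 2 * (C + z / 4 + 1) := by linarith
    linarith
  have hz'z : z' ≤ z := by
    have h2 : (z' : ℝ) ≤ z := by
      have : (0 : ℝ) ≤ z' := Nat.cast_nonneg _
      linarith
    exact_mod_cast h2
  have hjM : j * z ≤ M * z := Nat.mul_le_mul_right z hj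
  have hthin := hO.thin
  have htop := hO.top
  have hMz : (M + 1) * z = M * z + z := by ring
  have hwz : w₀ + j * z + z' ≤ J := by omega
  have hT' := hT
  unfold NDat2.TmU at hT'
  have htime := time_cell hO.isLaw (J := J) (w₀ := w₀) (r := w₀ + j * z) (T := D.T) (ln := D.ln)
    (S := κ' * z) (by omega) (by omega) hO.ln_w hT'
  have hκz : κ' * z ≤ E := by
    rw [hE]
    have := mul_le_mul_of_nonneg_right hκ hz0
    linarith
  have hPA : Pe q (fun _ => True) = 1 := by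
    rw [Pe_eq]
    simp only [if_true]
    exact hO.isLaw.sum_one
  obtain ⟨S, hS⟩ : ∃ S : ℝ, S = exp ((c' + 2 + CN) * z) := ⟨_, rfl⟩
  have hS0 : 0 ≤ S := by rw [hS]; positivity
  have hΦ : ∀ ω, Tg K n (D.Φ i j ω) := fun ω => ⟨hO.P_tri i j _, fun l _ => hO.P_deg i j _ l⟩
  obtain ⟨Fu, hFu⟩ : ∃ Fu : D.Ω → ℕ → PN, Fu = fun ω =>
    uL U n R (D.Φ i j ω) (D.wn J w₀ ω) := ⟨_, rfl⟩
  have hFt : ∀ ω, Tg K n (Fu ω) := fun ω => by
    rw [hFu]
    exact tg_uL hU le_rfl (hΦ ω) _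
  obtain ⟨f, hf⟩ : ∃ f : D.Ω → Polynomial ℝ, f = fun ω =>
    vio (D.g i j) (D.Φ i j ω) (Fu ω) n S (exp (-(c' * z))) := ⟨_, rfl⟩
  -- the exact time
  have hex : ∀ ω, 0 < q ω → ∀ l ≤ n, ∀ x : ℕ → ℝ, Bx (D.g i j) (D.Φ i j ω) l 1 x →
      |(vpl (D.g i j) (D.Φ i j ω) (Fu ω) l x).eval (D.X ω 0)| ≤ exp (c' * z) := by
    intro ω hω l hl x hx
    rw [vpl_eval, abs_mul, abs_of_pos (by positivity : (0 : ℝ) < 2 ^ D.g i j l)]
    rcases Nat.eq_zero_or_pos l with hl0 | hl0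
    · rw [hl0, hFu]
      simp only
      unfold uL
      rw [sysU_nt (fun h => absurd h.1 (by omega)), sub_self, abs_zero, mul_zero]
      positivity
    have h1 := (hu D U R K J a₀ w₀ z M Q lam gam κ q hO hU le_rfl hz1 i hi j hj ω hω
      (D.Φ i j ω) (hΦ ω) (hrad D K J a₀ w₀ z M lam gam κ C₁ q hO le_rfl hz1 i hi j hj ω hω _
        (hΦ ω) (sp_refl (exp_pos _).le))).2 l hl (xt (D.Φ i j ω) x (D.X ω 0)) ?_
    · rw [atT_ne _ _ hl0, atT_ne _ _ hl0, gw_ne _ _ hl0, le_div_iff₀ (by positivity), mul_comm]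
        at h1
      rw [hFu]
      exact h1
    · intro k hk
      rcases Nat.eq_zero_or_pos k with hk0 | hk0
      · rw [hk0, nat_gw0, xt_zero (hΦ ω).tri, sub_self, mul_zero, abs_zero]
        exact zero_le_one
      · rw [nat_gw' _ _ _ _ _ hk0, nat_eq, xt_zs (hΦ ω).tri hk0]
        exact hx k hk
  obtain ⟨B, hB1, hB2, hB3⟩ := h J (w₀ + j * z) z' D.Ω (D.Λ × ℕ) q D.T (D.wn J (w₀ + j * z))
    (fun _ => True) E (fun _ ω => f ω) hO.isLaw hO.T_lt hwz
    (fun ω ω' _ _ h => (Prod.ext_iff.1 h).2) (by rw [hPA]; exact hη1) hE1 (by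
      have : CH q D.T (fun ω => (D.ln ω, D.T ω / 2 ^ (J - (w₀ + j * z)))) =
        CH q D.T (D.wn J (w₀ + j * z)) := rfl
      rw [← this]
      linarith) hz'1 (fun _ ω ω' hω hω' hw => by
        have h1 : D.ln ω = D.ln ω' := (Prod.ext_iff.1 hw).1
        have h2 : D.c i j ω = D.c i j ω' := hO.c_wn i hi j hj ω ω' hω hω' hw
        have h4 : D.T ω / 2 ^ (J - w₀) = D.T ω' / 2 ^ (J - w₀) := hO.ln_w ω ω' hω hω' h1
        show f ω = f ω'
        rw [hf, hFu]
        unfold NDat2.Φ NDat2.wn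
        simp only
        rw [h1, h2, h4]) (fun _ ω _ => by
        show (f ω).natDegree ≤ N
        rw [hf]
        unfold vio
        simp only
        split_ifs with hv
        · refine (Polynomial.natDegree_C_mul_le _ _).trans ?_
          rw [hN]
          exact vpl_deg (hΦ ω) (hFt ω) hv.choose_spec.1
        · rw [Polynomial.natDegree_zero]
          exact Nat.zero_le _) (fun _ ω hω _ => by
        show |(f ω).eval _| ≤ 1
        rw [← hO.X_zero ω, hf]
        unfold vio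
        simp only
        split_ifs with hv
        · rw [Polynomial.eval_mul, Polynomial.eval_C, abs_mul, abs_of_pos (exp_pos _)]
          have h1 := hex ω hω _ hv.choose_spec.1 _ hv.choose_spec.2.1
          calc exp (-(c' * z)) * _ ≤ exp (-(c' * z)) * exp (c' * z) :=
                mul_le_mul_of_nonneg_left h1 (exp_pos _).le
            _ = 1 := by rw [← exp_add, neg_add_cancel, exp_zero]
        · rw [Polynomial.eval_zero, abs_zero]
          exact zero_le_one)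
  refine ⟨B, fun ω hω => (hB1 ω hω).1, ?_, ?_⟩
  · rw [Pb_eq_Pe]
    rw [hPA] at hB2
    linarith
  · intro ω hω
    have hq := (hB1 ω hω).1
    by_contra hcon
    have hv : ∃ p : ℕ × (ℕ → ℝ), Vi (D.g i j) (D.Φ i j ω) (Fu ω) n S p := by
      unfold Sp at hcon
      push Not at hcon
      obtain ⟨l, hl, x, hx, hlt⟩ := hcon
      refine ⟨(l, x), hl, hx, ?_⟩
      rw [hFu, hS]
      exact hlt
    have h1 := hB3 ω hω
    have e1 : f ω = Polynomial.C (exp (-(c' * z))) *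
        vpl (D.g i j) (D.Φ i j ω) (Fu ω) hv.choose.1 hv.choose.2 := by
      rw [hf]
      unfold vio
      simp only
      rw [dif_pos hv]
    obtain ⟨p, hp⟩ : ∃ p, p = hv.choose := ⟨_, rfl⟩
    have hpv : Vi (D.g i j) (D.Φ i j ω) (Fu ω) n S p := by
      rw [hp]
      exact hv.choose_spec
    rw [← hp] at e1
    obtain ⟨hpn, hpb, hplt⟩ := hpv
    have hp0 : 1 ≤ p.1 := by
      by_contra hh
      have h0 : p.1 = 0 := by omega
      rw [h0, hFu] at hplt
      simp only at hplt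
      unfold uL at hplt
      rw [sysU_nt (fun h => absurd h.1 (by omega)), sub_self, abs_zero] at hplt
      have : 0 ≤ S / 2 ^ D.g i j 0 := by positivity
      linarith
    have hdeg : (f ω).natDegree ≤ N := by
      rw [e1]
      refine (Polynomial.natDegree_C_mul_le _ _).trans ?_
      rw [hN]
      exact vpl_deg (hΦ ω) (hFt ω) hpn
    have h2 := hgr (f ω) (D.X ω 0) (1 / 2 ^ (w₀ + j * z)) (2 ^ (2 * z')) hdeg (by positivity)
      (fun t ht => h1 t (by rw [← hO.X_zero ω]; exact ht) ()) (p.2 0) (by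
        have a1 := hO.hgt i hi j hj ω hq 0 (Nat.zero_le n)
        unfold NDat2.rh at a1
        rw [ev0 (hΦ ω).tri (D.X ω) p.2, hO.g_zero] at a1
        have a2 := hpb 0 hp0
        unfold nat at a2
        rw [abs_mul, abs_of_pos (by positivity), hO.g_zero] at a2
        have a3 : |p.2 0 - eval p.2 (D.Φ i j ω 0)| ≤ 1 / 2 ^ (w₀ + j * z) := by
          rw [le_div_iff₀ (by positivity)]
          linarith
        calc |p.2 0 - D.X ω 0| = |(p.2 0 - eval p.2 (D.Φ i j ω 0)) -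
              (D.X ω 0 - eval p.2 (D.Φ i j ω 0))| := by ring_nf
          _ ≤ _ := abs_sub _ _
          _ ≤ _ := by linarith)
    rw [e1, Polynomial.eval_mul, Polynomial.eval_C, vpl_eval, xt_self (hΦ ω).tri, abs_mul, abs_mul,
      abs_of_pos (exp_pos _), abs_of_pos (by positivity : (0 : ℝ) < 2 ^ D.g i j p.1)] at h2
    rw [div_lt_iff₀ (by positivity), mul_comm] at hplt
    have h4 : exp (-(c' * z)) * S < CN * 2 ^ (2 * z') :=
      (mul_lt_mul_of_pos_left hplt (exp_pos _)).trans_le h2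
    have h5 : (2 : ℝ) ^ (2 * z') ≤ exp (2 * z) := by
      have e1 : (2 : ℝ) ^ (2 * z') = exp ((2 * z' : ℕ) * Real.log 2) := by
        rw [exp_nat_mul, exp_log (by norm_num)]
      rw [e1]
      refine exp_le_exp.2 ?_
      have hl2 : Real.log 2 ≤ 1 := by linarith [Real.log_two_lt_d9]
      push_cast
      calc 2 * (z' : ℝ) * Real.log 2 ≤ 2 * (z' : ℝ) * 1 :=
            mul_le_mul_of_nonneg_left hl2 (by positivity)
        _ ≤ 2 * z := by linarith
    have h6 : CN ≤ exp (CN * z) := by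
      have := Real.add_one_le_exp (CN * z)
      nlinarith
    have h7 : CN * 2 ^ (2 * z') ≤ exp (CN * z) * exp (2 * z) := by gcongr
    rw [hS, ← exp_add] at h4
    rw [← exp_add] at h7
    have h8 := h4.trans_le h7
    rw [exp_lt_exp] at h8
    nlinarith

end Pool.P4
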