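import Pool.Agent.H25.P4.LinC

/-!
# P4, labels with gain over a closed frame: the expansion

A label of the group over a closed frame, three places: the pure time part, a linear part, and the
products of the time and one slow coordinate. The rest is small.
-/

set_option autoImplicit false

namespace Pool.P4L

open Finset Real MvPolynomial
open Pool.STAT Pool.MIC.Frm Pool.FRM
open Pool.SYS35 (nrm_nonneg')

/-- **Levels** at the base place (`g`), at a longer window (`g1`), at a larger radius (`g2`). -/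
structure Lw (n c y z r a : ℕ) (gr : ℕ → Prop) (g g1 g2 : ℕ → ℕ) : Prop where
  t1 : g1 0 + r * z = g 0
  t2 : g2 0 = g 0
  ya : y ≤ a
  q1 : ∀ k, 1 ≤ k → k ≤ n → g2 k + a * z ≤ g k + c * z
  q2 : ∀ l, 1 ≤ l → l ≤ n → g l ≤ g2 l + a * z + c * z
  s2 : ∀ l k, 1 ≤ l → l ≤ n → 1 ≤ k → k ≤ n → gr l → gr k →
    g1 k + g1 0 + g l + y * z ≤ g k + g 0 + g1 l + c * z
  s4 : ∀ l k, 1 ≤ l → l ≤ n → 1 ≤ k → k ≤ n → gr l →
    g1 k + 2 * g1 0 + g l + y * z ≤ g k + 2 * g 0 + g1 l + c * z

section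

variable {n c y z r a : ℕ} {sl gr : ℕ → Prop} {g g1 g2 : ℕ → ℕ}

theorem Lw.quad (h : Lw n c y z r a gr g g1 g2) {l N k k' : ℕ} {γ : ℕ →₀ ℕ}
    (l1 : 1 ≤ l) (ln : l ≤ n) (k1 : 1 ≤ k) (k1' : 1 ≤ k')
    (hα : Finsupp.single k 1 + (Finsupp.single k' 1 + γ) ∈ exs l N) :
    Finsupp.weight g2 (Finsupp.single k 1 + (Finsupp.single k' 1 + γ)) + g l + y * z ≤
      Finsupp.weight g (Finsupp.single k 1 + (Finsupp.single k' 1 + γ)) + g2 l +
        (n * N + 3) * (c * z) := by
  have hlt : ∀ i, (Finsupp.single k 1 + (Finsupp.single k' 1 + γ) : ℕ →₀ ℕ) i ≠ 0 → i < l :=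
    fun i hi => exs_lt hα (Finsupp.mem_support_iff.2 hi)
  have hk : k < l := hlt k (by
    rw [Finsupp.add_apply, Finsupp.single_eq_same]
    omega)
  have hk' : k' < l := hlt k' (by
    rw [Finsupp.add_apply, Finsupp.add_apply, Finsupp.single_eq_same]
    omega)
  have hγ : ∀ i, γ i ≠ 0 → i < l := fun i hi => hlt i (by
    rw [Finsupp.add_apply, Finsupp.add_apply]
    omega)
  have hdeg := exs_deg hα
  rw [← Finsupp.degree_apply, map_add, map_add, Finsupp.degree_single, Finsupp.degree_single]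
    at hdeg
  have hd2 : γ.degree ≤ n * N := by
    have : l * N ≤ n * N := Nat.mul_le_mul_right N ln
    omega
  have hw := wt_le (d := g) (d' := g2) (e := c * z) hγ fun i hi => by
    rcases Nat.eq_zero_or_pos i with h0 | h0
    · rw [h0, h.t2]
      exact Nat.le_add_right _ _
    · have := h.q1 i h0 (by omega)
      omega
  rw [map_add, map_add, map_add, map_add, Finsupp.weight_single, Finsupp.weight_single,
    Finsupp.weight_single, Finsupp.weight_single, one_smul, one_smul, one_smul, one_smul]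
  have e1 := h.q1 k k1 (by omega)
  have e2 := h.q1 k' k1' (by omega)
  have e3 := h.q2 l l1 ln
  have e4 : y * z ≤ a * z := Nat.mul_le_mul_right z h.ya
  have e5 : γ.degree * (c * z) ≤ n * N * (c * z) := Nat.mul_le_mul_right _ hd2
  have e6 : (n * N + 3) * (c * z) = n * N * (c * z) + 3 * (c * z) := by ring
  omega

theorem Lw.lin2 (h : Lw n c y z r a gr g g1 g2) {l k m : ℕ}
    (l1 : 1 ≤ l) (ln : l ≤ n) (k1 : 1 ≤ k) (kn : k ≤ n) (hl : gr l) (hk : gr k) :
    Finsupp.weight g1 (Finsupp.single k 1 + Finsupp.single 0 (m + 1)) + g l + y * z ≤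
      Finsupp.weight g (Finsupp.single k 1 + Finsupp.single 0 (m + 1)) + g1 l + c * z := by
  rw [map_add, map_add, Finsupp.weight_single, Finsupp.weight_single, Finsupp.weight_single,
    Finsupp.weight_single, one_smul, one_smul, smul_eq_mul, smul_eq_mul]
  have e1 := h.s2 l k l1 ln k1 kn hl hk
  have e2 : m * g1 0 ≤ m * g 0 := Nat.mul_le_mul_left m (by have := h.t1; omega)
  have e3 : (m + 1) * g1 0 = m * g1 0 + g1 0 := by ring
  have e4 : (m + 1) * g 0 = m * g 0 + g 0 := by ring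
  omega

theorem Lw.lin3 (h : Lw n c y z r a gr g g1 g2) {l k m : ℕ}
    (l1 : 1 ≤ l) (ln : l ≤ n) (k1 : 1 ≤ k) (kn : k ≤ n) (hl : gr l) :
    Finsupp.weight g1 (Finsupp.single k 1 + Finsupp.single 0 (m + 2)) + g l + y * z ≤
      Finsupp.weight g (Finsupp.single k 1 + Finsupp.single 0 (m + 2)) + g1 l + c * z := by
  rw [map_add, map_add, Finsupp.weight_single, Finsupp.weight_single, Finsupp.weight_single,
    Finsupp.weight_single, one_smul, one_smul, smul_eq_mul, smul_eq_mul]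
  have e1 := h.s4 l k l1 ln k1 kn hl
  have e2 : m * g1 0 ≤ m * g 0 := Nat.mul_le_mul_left m (by have := h.t1; omega)
  have e3 : (m + 2) * g1 0 = m * g1 0 + 2 * g1 0 := by ring
  have e4 : (m + 2) * g 0 = m * g 0 + 2 * g 0 := by ring
  omega

end

/-! ### The expansion in the chart -/

/-- Only the time. -/
def tz (ζ : ℕ → ℝ) (i : ℕ) : ℝ := if i = 0 then ζ 0 else 0

theorem mon_add (α β : ℕ →₀ ℕ) (b : ℕ → ℝ) : mon (α + β) b = mon α b * mon β b :=
  Finsupp.prod_add_index' (h := fun i e => b i ^ e) (fun _ => pow_zero _) fun _ _ _ => pow_add _ _ _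

theorem mon_tz {α : ℕ →₀ ℕ} {k : ℕ} (k1 : 1 ≤ k) (hk : α k ≠ 0) (ζ : ℕ → ℝ) :
    mon α (tz ζ) = 0 := by
  unfold mon
  refine Finset.prod_eq_zero (Finsupp.mem_support_iff.2 hk) ?_
  unfold tz
  rw [if_neg (by omega), zero_pow hk]

theorem single_mem {l N k : ℕ} (hN : 1 ≤ N) (hk : k < l) : Finsupp.single k 1 ∈ exs l N := by
  unfold exs
  rw [Finset.mem_finsupp_iff]
  refine ⟨fun i hi => ?_, fun i _ => ?_⟩
  · rw [Finsupp.mem_support_iff] at hi
    rcases eq_or_ne i k with h | h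
    · rw [h]
      exact mem_range.2 hk
    · rw [Finsupp.single_eq_of_ne h] at hi
      exact absurd rfl hi
  · rw [mem_range]
    rcases eq_or_ne i k with h | h
    · rw [h, Finsupp.single_eq_same]
      omega
    · rw [Finsupp.single_eq_of_ne h]
      omega

theorem pair_mem {l N k : ℕ} (hN : 1 ≤ N) (k1 : 1 ≤ k) (hk : k < l) :
    Finsupp.single k 1 + Finsupp.single 0 1 ∈ exs l N := by
  unfold exs
  rw [Finset.mem_finsupp_iff]
  have key : ∀ i, (Finsupp.single k 1 + Finsupp.single 0 1 : ℕ →₀ ℕ) i ≤ 1 ∧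
      ((Finsupp.single k 1 + Finsupp.single 0 1 : ℕ →₀ ℕ) i ≠ 0 → i < l) := by
    intro i
    rw [Finsupp.add_apply]
    rcases eq_or_ne i k with h | h
    · rw [h, Finsupp.single_eq_same, Finsupp.single_eq_of_ne (by omega)]
      exact ⟨le_rfl, fun _ => hk⟩
    · rw [Finsupp.single_eq_of_ne h]
      rcases eq_or_ne i 0 with h' | h'
      · rw [h', Finsupp.single_eq_same]
        exact ⟨le_rfl, fun _ => by omega⟩
      · rw [Finsupp.single_eq_of_ne h']
        exact ⟨by omega, fun h => absurd rfl h⟩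
  refine ⟨fun i hi => ?_, fun i _ => ?_⟩
  · rw [Finsupp.mem_support_iff] at hi
    exact mem_range.2 ((key i).2 hi)
  · rw [mem_range]
    have := (key i).1
    omega

open Classical in
/-- **The expansion**, in the chart. -/
theorem exp_chr {n c y z r a : ℕ} {sl gr : ℕ → Prop} {g g1 g2 : ℕ → ℕ}
    (h : Lw n c y z r a gr g g1 g2) (dic : ∀ k, 1 ≤ k → k ≤ n → ¬ sl k → gr k)
    {F : PN} {l N : ℕ} {S B : ℝ} (hS : 0 ≤ S) (hB : 1 ≤ B) (hN1 : 1 ≤ N) (l1 : 1 ≤ l)
    (ln : l ≤ n) (hl : gr l) (hv : F.vars ⊆ range l) (hN : F.totalDegree ≤ N)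
    (h1 : nrm g1 (1 / 2) F ≤ S / 2 ^ g1 l) (h2 : nrm g2 (1 / 2) F ≤ S / 2 ^ g2 l)
    {ζ : ℕ → ℝ} (hζ : ∀ i < l, |ζ i| ≤ B / 2 ^ g i) :
    |eval ζ F - (eval (tz ζ) F + ∑ k ∈ Ico 1 l, coeff (Finsupp.single k 1) F * ζ k +
      ∑ k ∈ (Ico 1 l).filter sl, coeff (Finsupp.single k 1 + Finsupp.single 0 1) F *
        (ζ k * ζ 0))| ≤
      (exs l N).card * (B ^ (l * N) * (S * 2 ^ ((n * N + 3) * (c * z)))) / 2 ^ (y * z) /
        2 ^ g l := by
  obtain ⟨f, hf⟩ : ∃ f : (ℕ →₀ ℕ) → ℝ, f = fun α => coeff α F * mon α ζ -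
    coeff α F * mon α (tz ζ) := ⟨_, rfl⟩
  obtain ⟨T₁, hT₁⟩ : ∃ T : Finset (ℕ →₀ ℕ), T = (Ico 1 l).image fun k => Finsupp.single k 1 :=
    ⟨_, rfl⟩
  obtain ⟨T₂, hT₂⟩ : ∃ T : Finset (ℕ →₀ ℕ), T = ((Ico 1 l).filter sl).image
    fun k => Finsupp.single k 1 + Finsupp.single 0 1 := ⟨_, rfl⟩
  have e0 : eval ζ F - eval (tz ζ) F = ∑ α ∈ exs l N, f α := by
    rw [eval_mon hv hN, eval_mon hv hN, ← Finset.sum_sub_distrib, hf]
  have s1 : T₁ ⊆ exs l N := by
    intro α hα
    rw [hT₁, mem_image] at hα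
    obtain ⟨k, hk, rfl⟩ := hα
    rw [mem_Ico] at hk
    exact single_mem hN1 hk.2
  have s2 : T₂ ⊆ exs l N := by
    intro α hα
    rw [hT₂, mem_image] at hα
    obtain ⟨k, hk, rfl⟩ := hα
    rw [mem_filter, mem_Ico] at hk
    exact pair_mem hN1 hk.1.1 hk.1.2
  have hdis : Disjoint T₁ T₂ := by
    rw [Finset.disjoint_left]
    intro α h1 h2
    rw [hT₁, mem_image] at h1
    rw [hT₂, mem_image] at h2
    obtain ⟨k, _, rfl⟩ := h1
    obtain ⟨k', _, he⟩ := h2
    have := congrArg Finsupp.degree he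
    rw [map_add, Finsupp.degree_single, Finsupp.degree_single, Finsupp.degree_single] at this
    omega
  have e1 : ∑ α ∈ T₁, f α = ∑ k ∈ Ico 1 l, coeff (Finsupp.single k 1) F * ζ k := by
    rw [hT₁, Finset.sum_image]
    · refine Finset.sum_congr rfl fun k hk => ?_
      rw [mem_Ico] at hk
      rw [hf]
      simp only
      rw [mon_single, mon_tz hk.1 (by rw [Finsupp.single_eq_same]; exact one_ne_zero), mul_zero,
        sub_zero]
    · intro a _ b _ h
      exact (Finsupp.single_left_injective one_ne_zero) h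
  have e2 : ∑ α ∈ T₂, f α = ∑ k ∈ (Ico 1 l).filter sl,
      coeff (Finsupp.single k 1 + Finsupp.single 0 1) F * (ζ k * ζ 0) := by
    rw [hT₂, Finset.sum_image]
    · refine Finset.sum_congr rfl fun k hk => ?_
      rw [mem_filter, mem_Ico] at hk
      rw [hf]
      simp only
      rw [mon_add, mon_single, mon_single, mon_tz hk.1.1 (by
        rw [Finsupp.add_apply, Finsupp.single_eq_same]
        omega), mul_zero, sub_zero]
    · intro a _ b _ h
      exact (Finsupp.single_left_injective one_ne_zero) (add_right_cancel h)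
  have e3 : ∑ α ∈ exs l N, f α = ∑ α ∈ T₁, f α + ∑ α ∈ T₂, f α +
      ∑ α ∈ exs l N \ (T₁ ∪ T₂), f α := by
    rw [← Finset.sum_union hdis, add_comm,
      Finset.sum_sdiff (Finset.union_subset s1 s2)]
  have e4 : eval ζ F - (eval (tz ζ) F + ∑ k ∈ Ico 1 l, coeff (Finsupp.single k 1) F * ζ k +
      ∑ k ∈ (Ico 1 l).filter sl, coeff (Finsupp.single k 1 + Finsupp.single 0 1) F *
        (ζ k * ζ 0)) = ∑ α ∈ exs l N \ (T₁ ∪ T₂), f α := by
    rw [← e1, ← e2]
    linarith
  rw [e4]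
  have hw : ∀ α ∈ exs l N \ (T₁ ∪ T₂), |f α| ≤
      B ^ (l * N) * (S * 2 ^ ((n * N + 3) * (c * z))) / 2 ^ (y * z) / 2 ^ g l := by
    intro α hα
    rw [mem_sdiff, mem_union] at hα
    obtain ⟨hα, hnot⟩ := hα
    by_cases ht : ∀ k, 1 ≤ k → α k = 0
    · have : f α = 0 := by
        rw [hf]
        simp only
        rw [mon_time ht (b := ζ) (b' := tz ζ) (by
          unfold tz
          rw [if_pos rfl]), sub_self]
      rw [this, abs_zero]
      positivity
    · push Not at ht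
      obtain ⟨k, k1, hk⟩ := ht
      have hkl := exs_lt hα (Finsupp.mem_support_iff.2 hk)
      have efa : f α = coeff α F * mon α ζ := by
        rw [hf]
        simp only
        rw [mon_tz k1 hk, mul_zero, sub_zero]
      have hsm : Sm g l F (S * 2 ^ ((n * N + 3) * (c * z))) (1 / 2 ^ (y * z)) α := by
        have lift : ∀ {S' : ℝ}, S' = S * 2 ^ (c * z) → S' ≤
            S * 2 ^ ((n * N + 3) * (c * z)) := by
          intro S' hS'
          rw [hS']
          refine mul_le_mul_of_nonneg_left (pow_le_pow_right₀ one_le_two ?_) hS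
          exact Nat.le_mul_of_pos_left _ (by omega)
        rcases split_exp hk with ⟨k', γ, k1', e⟩ | ⟨m, e⟩
        · rw [e] at hα ⊢
          exact sm_of hS h2 (h.quad l1 ln k1 k1' hα)
        · rcases Nat.eq_zero_or_pos m with hm | hm
          · exfalso
            refine hnot (Or.inl ?_)
            rw [e, hm, Finsupp.single_zero, add_zero, hT₁, mem_image]
            exact ⟨k, mem_Ico.2 ⟨k1, hkl⟩, rfl⟩
          · rcases Nat.lt_or_ge m 2 with hm2 | hm2
            · have hm1 : m = 1 := by omega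
              by_cases hs : sl k
              · exfalso
                refine hnot (Or.inr ?_)
                rw [e, hm1, hT₂, mem_image]
                exact ⟨k, mem_filter.2 ⟨mem_Ico.2 ⟨k1, hkl⟩, hs⟩, rfl⟩
              · rw [e, hm1]
                exact (sm_of hS h1 (h.lin2 (m := 0) l1 ln k1 (by omega) hl
                  (dic k k1 (by omega) hs))).mono (lift rfl) (by positivity)
            · obtain ⟨m', rfl⟩ : ∃ m', m = m' + 2 := ⟨m - 2, by omega⟩
              rw [e]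
              exact (sm_of hS h1 (h.lin3 l1 ln k1 (by omega) hl)).mono (lift rfl) (by positivity)
      unfold Sm at hsm
      have h3 := mon_le hB hα hζ
      rw [efa, abs_mul]
      calc |coeff α F| * |mon α ζ| ≤ |coeff α F| *
            (B ^ (l * N) * (1 / 2) ^ Finsupp.weight g α) :=
            mul_le_mul_of_nonneg_left h3 (abs_nonneg _)
        _ = B ^ (l * N) * (|coeff α F| * (1 / 2) ^ Finsupp.weight g α) := by ring
        _ ≤ B ^ (l * N) * (S * 2 ^ ((n * N + 3) * (c * z)) * (1 / 2 ^ (y * z)) / 2 ^ g l) :=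
            mul_le_mul_of_nonneg_left hsm (by positivity)
        _ = _ := by ring
  refine (Finset.abs_sum_le_sum_abs _ _).trans ((Finset.sum_le_sum hw).trans ?_)
  rw [Finset.sum_const, nsmul_eq_mul]
  have hcard : ((exs l N \ (T₁ ∪ T₂)).card : ℝ) ≤ (exs l N).card := by
    exact_mod_cast Finset.card_le_card sdiff_subset
  calc ((exs l N \ (T₁ ∪ T₂)).card : ℝ) *
        (B ^ (l * N) * (S * 2 ^ ((n * N + 3) * (c * z))) / 2 ^ (y * z) / 2 ^ g l)
      ≤ (exs l N).card * (B ^ (l * N) * (S * 2 ^ ((n * N + 3) * (c * z))) / 2 ^ (y * z) /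
        2 ^ g l) := mul_le_mul_of_nonneg_right hcard (by positivity)
    _ = _ := by ring

end Pool.P4L
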