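import Pool.Agent.H25.P4.GfD
import Pool.Agent.H25.P4.GfA
import Pool.Agent.H25.P4.LinD
import Pool.Agent.H52.P4.Tra

/-!
# P4, labels with gain over a closed frame: the expansion in natural units

`ka1`: the coefficient of the product of the time and a slow coordinate. `ptm`: the pure time part.
`exp_dif`: the difference of the heights over a label with gain of two points.
-/

set_option autoImplicit false

namespace Pool.P4

open Finset Real MvPolynomial
open Pool.Agent.H49.Ent Pool.Agent.H32.Dense Pool.STK Pool.STAT Pool.MIC.Frm Pool.FRM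
open Pool.MIC.Fru (gw nat_gw nat_gw0 atT_tri atT_deg)
open Pool.P4L (tz Lw exp_chr)

/-- The coefficient of the product of the time and the coordinate `k`, natural units. -/
noncomputable def ka1 (g : ℕ → ℕ) (P U : ℕ → PN) (l k : ℕ) : ℝ :=
  2 ^ g l / (2 ^ g k * 2 ^ g 0) *
    coeff (Finsupp.single k 1 + Finsupp.single 0 1) (chr P (U l - P l))

/-- The pure time part, natural units. -/
noncomputable def ptm (g : ℕ → ℕ) (P U : ℕ → PN) (l : ℕ) (x : ℕ → ℝ) : ℝ :=
  2 ^ g l * eval (tz (zs P x)) (chr P (U l - P l))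

theorem ka1_zero {g : ℕ → ℕ} {P U : ℕ → PN} (hP : TriN P) (hU : TriN U) {l k : ℕ} (h : l ≤ k) :
    ka1 g P U l k = 0 := by
  have hv : (chr P (U l - P l)).vars ⊆ range l := chr_vars hP (AdxRow.vars_sub_le (hU l) (hP l))
  have h1 : Finsupp.single k 1 + Finsupp.single 0 1 ∉ (chr P (U l - P l)).support := by
    intro hs
    have h2 : k ∈ (Finsupp.single k 1 + Finsupp.single 0 1 : ℕ →₀ ℕ).support := by
      rw [Finsupp.mem_support_iff, Finsupp.add_apply, Finsupp.single_eq_same]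
      omega
    have := Pool.SYS35.vars_of_mem hv hs h2
    omega
  unfold ka1
  rw [notMem_support_iff.1 h1, mul_zero]

/-- The products with the time are bounded. -/
theorem ka1_le (n K : ℕ) (c : ℝ) (hc : 0 ≤ c) : ∃ c' : ℝ, 0 ≤ c' ∧
    ∀ (z : ℝ) (g : ℕ → ℕ) (P U : ℕ → PN), 1 ≤ z → Tg K n P → Tg K n U →
    Sp g P U n (exp (c * z)) → ∀ l ≤ n, ∀ k, |ka1 g P U l k| ≤ exp (c' * z) := by
  obtain ⟨C, hC, h⟩ := nrm_dif n K
  refine ⟨C + c, by linarith, ?_⟩
  intro z g P U hz hP hU hS l hl k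
  have h1 := (coeff_le_nrm g (by norm_num : (0 : ℝ) ≤ 1 / 2) (chr P (U l - P l))
    (Finsupp.single k 1 + Finsupp.single 0 1)).trans (h g P U (exp (c * z)) hP hU hS l hl)
  rw [map_add, Finsupp.weight_single, Finsupp.weight_single, one_smul, one_smul, half_pow,
    mul_one_div, pow_add, div_le_iff₀ (by positivity)] at h1
  unfold ka1
  rw [abs_mul, abs_of_pos (by positivity : (0 : ℝ) < 2 ^ g l / (2 ^ g k * 2 ^ g 0))]
  calc (2 : ℝ) ^ g l / (2 ^ g k * 2 ^ g 0) * |coeff (Finsupp.single k 1 + Finsupp.single 0 1)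
        (chr P (U l - P l))|
      ≤ 2 ^ g l / (2 ^ g k * 2 ^ g 0) * (C * (exp (c * z) / 2 ^ g l) * (2 ^ g k * 2 ^ g 0)) := by
        gcongr
    _ = C * exp (c * z) := by field_simp
    _ ≤ _ := by
        have := ex_le hC 0 0 c hz
        rw [pow_zero, mul_one, Nat.cast_zero, zero_mul, add_zero] at this
        exact this

/-- The pure time part at two times. -/
theorem ptm_dif (n K : ℕ) (c b : ℝ) (hc : 0 ≤ c) (hb : 0 ≤ b) : ∃ c' : ℝ, 0 ≤ c' ∧
    ∀ (z : ℝ) (g : ℕ → ℕ) (P U : ℕ → PN), 1 ≤ z → Tg K n P → Tg K n U →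
    Sp g P U n (exp (c * z)) → ∀ l ≤ n, ∀ x x' : ℕ → ℝ, |nat g P x 0| ≤ exp (b * z) →
      |nat g P x' 0| ≤ exp (b * z) → ∀ δ : ℝ, 0 ≤ δ → |nat g P x 0 - nat g P x' 0| ≤ δ →
      |ptm g P U l x - ptm g P U l x'| ≤ exp (c' * z) * δ := by
  obtain ⟨C, hC, h⟩ := nrm_dif n K
  obtain ⟨K₂, hK₂⟩ : ∃ K₂ : ℕ, K₂ = K * (K + 1) ^ n := ⟨_, rfl⟩
  refine ⟨(K₂ + 1) * C + K₂ * b + c, by positivity, ?_⟩
  intro z g P U hz hP hU hS l hl x x' hx hx' δ hδ hd
  have hv : (U l - P l).vars ⊆ range l := AdxRow.vars_sub_le (hU.tri l) (hP.tri l)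
  have hdd : (U l - P l).totalDegree ≤ K :=
    (totalDegree_sub _ _).trans (max_le (hU.deg l hl) (hP.deg l hl))
  have hK' : (chr P (U l - P l)).totalDegree ≤ K₂ := by
    refine (chr_deg hP.tri (fun i hi => hP.deg i (by omega)) hv hdd).trans ?_
    rw [hK₂]
    exact Nat.mul_le_mul_left _ (Nat.pow_le_pow_right (Nat.succ_pos _) hl)
  have hbx : ∀ y : ℕ → ℝ, |nat g P y 0| ≤ exp (b * z) → ∀ k < l,
      |tz (zs P y) k| ≤ exp (b * z) / 2 ^ g k := by
    intro y hy k hk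
    unfold tz
    split_ifs with h0
    · rw [h0]
      rw [nat_eq, abs_mul, abs_of_pos (by positivity : (0 : ℝ) < 2 ^ g 0)] at hy
      rw [le_div_iff₀ (by positivity)]
      linarith
    · rw [abs_zero]
      positivity
  have key := nrm_lip (chr_vars hP.tri hv) hK' g (ex_one hb hz) hδ (hbx x hx) (hbx x' hx')
    (fun k hk => by
      unfold tz
      split_ifs with h0
      · rw [h0]
        rw [nat_eq, nat_eq, ← mul_sub, abs_mul, abs_of_pos (by positivity : (0 : ℝ) < 2 ^ g 0)]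
          at hd
        rw [le_div_iff₀ (by positivity)]
        linarith
      · rw [sub_self, abs_zero]
        positivity)
  unfold ptm
  rw [← mul_sub, abs_mul, abs_of_pos (by positivity : (0 : ℝ) < 2 ^ g l)]
  have h1 := h g P U (exp (c * z)) hP hU hS l hl
  have hK0 : (0 : ℝ) ≤ K₂ := Nat.cast_nonneg _
  have h2 : K₂ * exp (b * z) ^ K₂ * nrm g (1 / 2) (chr P (U l - P l)) * δ ≤
      (K₂ + 1) * exp (b * z) ^ K₂ * (C * (exp (c * z) / 2 ^ g l)) * δ := by
    refine mul_le_mul_of_nonneg_right ?_ hδ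
    refine mul_le_mul ?_ h1 (Pool.SYS35.nrm_nonneg' _ (by norm_num) _) (by positivity)
    exact mul_le_mul_of_nonneg_right (by linarith) (by positivity)
  refine (mul_le_mul_of_nonneg_left (key.trans h2) (by positivity)).trans ?_
  have h3 : (2 : ℝ) ^ g l * ((K₂ + 1) * exp (b * z) ^ K₂ * (C * (exp (c * z) / 2 ^ g l)) * δ) =
      ((K₂ + 1) * C * exp (b * z) ^ K₂ * exp (c * z)) * δ := by field_simp
  rw [h3]
  refine mul_le_mul_of_nonneg_right ?_ hδ
  exact ex_le (by nlinarith) K₂ b c hz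

open Classical in
/-- **The expansion**, natural units. -/
theorem exp_nat (n K c : ℕ) (C b : ℝ) (hC : 0 ≤ C) (hb : 0 ≤ b) : ∃ c' : ℝ, 0 ≤ c' ∧
    ∀ (z y r a : ℕ) (sl gr : ℕ → Prop) (g g1 g2 : ℕ → ℕ), 1 ≤ z → Lw n c y z r a gr g g1 g2 →
    (∀ k, 1 ≤ k → k ≤ n → ¬ sl k → gr k) → ∀ P U : ℕ → PN, Tg K n P → Tg K n U →
    Sp g1 P U n (exp (C * z)) → Sp g2 P U n (exp (C * z)) → ∀ l, 1 ≤ l → l ≤ n → gr l →
    ∀ x : ℕ → ℝ, Bx g P l (exp (b * z)) x →
      |2 ^ g l * (eval x (U l) - eval x (P l)) - (ptm g P U l x +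
        ∑ k ∈ Ico 1 l, kap g P U l k * nat g P x k +
        ∑ k ∈ (Ico 1 l).filter sl, ka1 g P U l k * (nat g P x k * nat g P x 0))| ≤
        exp (c' * z) / 2 ^ (y * z) := by
  obtain ⟨C₀, hC₀, h⟩ := nrm_dif n K
  obtain ⟨N, hN⟩ : ∃ N : ℕ, N = K * (K + 1) ^ n + 1 := ⟨_, rfl⟩
  obtain ⟨A, hA⟩ : ∃ A : ℝ, A = ∑ m ∈ range (n + 1), ((exs m N).card : ℝ) := ⟨_, rfl⟩
  have hA0 : 0 ≤ A := by
    rw [hA]
    exact Finset.sum_nonneg fun _ _ => Nat.cast_nonneg _
  refine ⟨A + n * N * b + (C₀ + C) + (n * N + 3) * c, by positivity, ?_⟩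
  intro z y r a sl gr g g1 g2 hz hL dic P U hP hU hS1 hS2 l l1 ln hl x hx
  have hzr : (1 : ℝ) ≤ z := by exact_mod_cast hz
  have hv : (U l - P l).vars ⊆ range l := AdxRow.vars_sub_le (hU.tri l) (hP.tri l)
  have hdd : (U l - P l).totalDegree ≤ K :=
    (totalDegree_sub _ _).trans (max_le (hU.deg l ln) (hP.deg l ln))
  have hK' : (chr P (U l - P l)).totalDegree ≤ N := by
    refine (chr_deg hP.tri (fun i hi => hP.deg i (by omega)) hv hdd).trans ?_
    rw [hN]
    exact (Nat.mul_le_mul_left _ (Nat.pow_le_pow_right (Nat.succ_pos _) ln)).trans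
      (Nat.le_succ _)
  have key := exp_chr hL dic (F := chr P (U l - P l)) (N := N) (S := C₀ * exp (C * z))
    (B := exp (b * z)) (by positivity) (ex_one hb hzr) (by omega) l1 ln hl
    (chr_vars hP.tri hv) hK' (by
      refine (h g1 P U (exp (C * z)) hP hU hS1 l ln).trans (le_of_eq ?_)
      ring) (by
      refine (h g2 P U (exp (C * z)) hP hU hS2 l ln).trans (le_of_eq ?_)
      ring) (ζ := zs P x) (fun k hk => by
      have := hx k hk
      rw [nat_eq, abs_mul, abs_of_pos (by positivity : (0 : ℝ) < 2 ^ g k)] at this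
      rw [le_div_iff₀ (by positivity)]
      linarith)
  have e1 : 2 ^ g l * (eval x (U l) - eval x (P l)) - (ptm g P U l x +
        ∑ k ∈ Ico 1 l, kap g P U l k * nat g P x k +
        ∑ k ∈ (Ico 1 l).filter sl, ka1 g P U l k * (nat g P x k * nat g P x 0)) =
      2 ^ g l * (eval (zs P x) (chr P (U l - P l)) - (eval (tz (zs P x)) (chr P (U l - P l)) +
        ∑ k ∈ Ico 1 l, coeff (Finsupp.single k 1) (chr P (U l - P l)) * zs P x k +
        ∑ k ∈ (Ico 1 l).filter sl, coeff (Finsupp.single k 1 + Finsupp.single 0 1)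
          (chr P (U l - P l)) * (zs P x k * zs P x 0))) := by
    rw [chr_eval hP.tri, map_sub, mul_sub (2 ^ g l) (eval x (U l) - eval x (P l)), mul_add,
      mul_add, Finset.mul_sum, Finset.mul_sum]
    congr 2
    · congr 1
      refine Finset.sum_congr rfl fun k _ => ?_
      unfold kap
      rw [nat_eq]
      have : (2 : ℝ) ^ g k ≠ 0 := by positivity
      field_simp
    · refine Finset.sum_congr rfl fun k _ => ?_
      unfold ka1
      rw [nat_eq, nat_eq]
      have : (2 : ℝ) ^ g k ≠ 0 := by positivity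
      have : (2 : ℝ) ^ g 0 ≠ 0 := by positivity
      field_simp
  rw [e1, abs_mul, abs_of_pos (by positivity : (0 : ℝ) < 2 ^ g l)]
  refine (mul_le_mul_of_nonneg_left key (by positivity)).trans ?_
  have hcard : ((exs l N).card : ℝ) ≤ A := by
    rw [hA]
    exact Finset.single_le_sum (f := fun m => ((exs m N).card : ℝ))
      (fun m _ => Nat.cast_nonneg _) (mem_range.2 (by omega))
  have hAe : A ≤ exp (A * z) := by
    have := Real.add_one_le_exp (A * z)
    nlinarith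
  have hB : exp (b * z) ^ (l * N) ≤ exp (n * N * b * z) := by
    rw [← Real.exp_nat_mul]
    refine exp_le_exp.2 ?_
    push_cast
    have h1 : (l : ℝ) * N ≤ n * N := mul_le_mul_of_nonneg_right (by exact_mod_cast ln)
      (Nat.cast_nonneg _)
    have h2 : 0 ≤ b * z := mul_nonneg hb (by linarith)
    nlinarith
  have hC0 : C₀ * exp (C * z) ≤ exp ((C₀ + C) * z) := by
    have := ex_le hC₀ 0 0 C hzr
    rw [pow_zero, mul_one, Nat.cast_zero, zero_mul, add_zero] at this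
    exact this
  have h2e : (2 : ℝ) ^ ((n * N + 3) * (c * z)) ≤ exp ((n * N + 3) * c * z) := by
    have := pw_le (a := (n * N + 3) * (c * z)) (b := 0) (x := (n * N + 3) * c * z) (by
      push_cast
      linarith) (by positivity)
    rw [pow_zero, mul_one] at this
    exact this
  calc (2 : ℝ) ^ g l * ((exs l N).card * (exp (b * z) ^ (l * N) * (C₀ * exp (C * z) *
        2 ^ ((n * N + 3) * (c * z)))) / 2 ^ (y * z) / 2 ^ g l)
      = (exs l N).card * (exp (b * z) ^ (l * N) * (C₀ * exp (C * z) *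
        2 ^ ((n * N + 3) * (c * z)))) / 2 ^ (y * z) := by field_simp
    _ ≤ exp (A * z) * (exp (n * N * b * z) * (exp ((C₀ + C) * z) *
        exp ((n * N + 3) * c * z))) / 2 ^ (y * z) := by
        have := hcard.trans hAe
        gcongr
    _ = _ := by
        rw [← exp_add, ← exp_add, ← exp_add]
        ring_nf

/-! ### Finite index sets -/

/-- The index sets: `gs` lists the group, `ys` lists the slow coordinates. -/
structure Ix (n c k : ℕ) (Sl Gr : ℕ → Prop) (ys : Fin k → ℕ) (gs : Fin c → ℕ) : Prop where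
  ys_sl : ∀ a, Sl (ys a)
  ys_in : Function.Injective ys
  ys_on : ∀ l, Sl l → ∃ a, ys a = l
  gs_gr : ∀ u, Gr (gs u)
  gs_in : StrictMono gs
  gs_on : ∀ l, Gr l → ∃ u, gs u = l
  dic : ∀ l, 1 ≤ l → l ≤ n → Sl l ∨ Gr l
  di : Dic n Sl Gr

theorem Ix.sum {n c k : ℕ} {Sl Gr : ℕ → Prop} {ys : Fin k → ℕ} {gs : Fin c → ℕ}
    (h : Ix n c k Sl Gr ys gs) (f : ℕ → ℝ) :
    ∑ l ∈ Ico 1 (n + 1), f l = ∑ u, f (gs u) + ∑ a, f (ys a) := by
  classical
  have e : Ico 1 (n + 1) = (univ.image gs) ∪ (univ.image ys) := by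
    ext l
    rw [mem_Ico, mem_union, mem_image, mem_image]
    constructor
    · rintro ⟨h1, h2⟩
      rcases h.dic l h1 (by omega) with hs | hg
      · obtain ⟨a, ha⟩ := h.ys_on l hs
        exact Or.inr ⟨a, mem_univ _, ha⟩
      · obtain ⟨u, hu⟩ := h.gs_on l hg
        exact Or.inl ⟨u, mem_univ _, hu⟩
    · rintro (⟨u, _, rfl⟩ | ⟨a, _, rfl⟩)
      · have := h.di.g1 _ (h.gs_gr u)
        omega
      · have := h.di.s1 _ (h.ys_sl a)
        omega
  have hd : Disjoint (univ.image gs) (univ.image ys) := by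
    rw [Finset.disjoint_left]
    intro l h1 h2
    rw [mem_image] at h1 h2
    obtain ⟨u, _, rfl⟩ := h1
    obtain ⟨a, _, ha⟩ := h2
    have := h.di.dis _ (h.ys_sl a)
    rw [ha] at this
    exact this (h.gs_gr u)
  rw [e, Finset.sum_union hd, Finset.sum_image (fun _ _ _ _ h' => h.gs_in.injective h'),
    Finset.sum_image (fun _ _ _ _ h' => h.ys_in h')]

theorem Ix.ne {n c k : ℕ} {Sl Gr : ℕ → Prop} {ys : Fin k → ℕ} {gs : Fin c → ℕ}
    (h : Ix n c k Sl Gr ys gs) (u : Fin c) (a : Fin k) : gs u ≠ ys a := by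
  intro e
  have := h.di.dis _ (h.ys_sl a)
  rw [← e] at this
  exact this (h.gs_gr u)

/-- **The expansion**, finite index sets: the height over a label with gain. -/
theorem exp_fin (n K c₀ : ℕ) (C b : ℝ) (hC : 0 ≤ C) (hb : 0 ≤ b) : ∃ c' : ℝ, 0 ≤ c' ∧
    ∀ (z y r a c k : ℕ) (Sl Gr : ℕ → Prop) (ys : Fin k → ℕ) (gs : Fin c → ℕ) (g g1 g2 : ℕ → ℕ),
    1 ≤ z → Ix n c k Sl Gr ys gs → Lw n c₀ y z r a Gr g g1 g2 → ∀ P U : ℕ → PN, Tg K n P →
    Tg K n U → Sp g1 P U n (exp (C * z)) → Sp g2 P U n (exp (C * z)) → ∀ v : Fin c,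
    ∀ x : ℕ → ℝ, Bx g P (gs v) (exp (b * z)) x →
      |2 ^ g (gs v) * (x (gs v) - eval x (U (gs v))) -
        (∑ u, MM g P U (gs v) (gs u) * nat g P x (gs u) -
          ∑ e, (kap g P U (gs v) (ys e) + ka1 g P U (gs v) (ys e) * nat g P x 0) *
            nat g P x (ys e) - ptm g P U (gs v) x)| ≤ exp (c' * z) / 2 ^ (y * z) := by
  classical
  obtain ⟨c', h0, h⟩ := exp_nat n K c₀ C b hC hb
  refine ⟨c', h0, ?_⟩
  intro z y r a c k Sl Gr ys gs g g1 g2 hz hI hL P U hP hU hS1 hS2 v x hx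
  have hv1 := hI.di.g1 _ (hI.gs_gr v)
  have key := h z y r a Sl Gr g g1 g2 hz hL (fun k k1 kn hk => (hI.dic k k1 kn).resolve_left hk)
    P U hP hU hS1 hS2 (gs v) hv1.1 hv1.2 (hI.gs_gr v) x hx
  obtain ⟨l, hl⟩ : ∃ l, l = gs v := ⟨_, rfl⟩
  rw [← hl] at key hv1 ⊢
  have e1 : ∑ k ∈ Ico 1 l, kap g P U l k * nat g P x k =
      ∑ k ∈ Ico 1 (n + 1), kap g P U l k * nat g P x k := by
    refine Finset.sum_subset (fun k hk => ?_) fun k _ hk' => ?_
    · rw [mem_Ico] at hk ⊢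
      omega
    · rw [kap_zero hP.tri hU.tri (by
        rw [mem_Ico] at hk'
        rename_i hk
        rw [mem_Ico] at hk
        omega), zero_mul]
  have e2 : ∑ k ∈ (Ico 1 l).filter Sl, ka1 g P U l k * (nat g P x k * nat g P x 0) =
      ∑ e, ka1 g P U l (ys e) * (nat g P x (ys e) * nat g P x 0) := by
    have f1 : ∑ k ∈ (Ico 1 l).filter Sl, ka1 g P U l k * (nat g P x k * nat g P x 0) =
        ∑ k ∈ Ico 1 (n + 1), if Sl k then ka1 g P U l k * (nat g P x k * nat g P x 0) else 0 := by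
      rw [Finset.sum_filter]
      refine Finset.sum_subset (fun k hk => ?_) fun k hk hk' => ?_
      · rw [mem_Ico] at hk ⊢
        omega
      · split_ifs
        · rw [mem_Ico] at hk hk'
          rw [ka1_zero hP.tri hU.tri (by omega), zero_mul]
        · rfl
    rw [f1, hI.sum]
    have f2 : ∑ u, (if Sl (gs u) then ka1 g P U l (gs u) * (nat g P x (gs u) * nat g P x 0)
        else 0) = 0 := by
      refine Finset.sum_eq_zero fun u _ => ?_
      rw [if_neg]
      intro hs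
      exact hI.di.dis _ hs (hI.gs_gr u)
    rw [f2, zero_add]
    refine Finset.sum_congr rfl fun e _ => ?_
    rw [if_pos (hI.ys_sl e)]
  rw [e1, e2, hI.sum] at key
  have e3 : ∑ u, MM g P U l (gs u) * nat g P x (gs u) = nat g P x l -
      ∑ u, kap g P U l (gs u) * nat g P x (gs u) := by
    unfold MM
    simp only [sub_mul, Finset.sum_sub_distrib, ite_mul, one_mul, zero_mul]
    congr 1
    rw [hl]
    have : ∀ u, (if gs v = gs u then nat g P x (gs u) else 0) =
        if u = v then nat g P x (gs v) else 0 := by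
      intro u
      by_cases h' : u = v
      · rw [h', if_pos rfl, if_pos rfl]
      · rw [if_neg h', if_neg]
        intro e
        exact h' (hI.gs_in.injective e.symm)
    rw [Finset.sum_congr rfl fun u _ => this u, Finset.sum_ite_eq' univ v, if_pos (mem_univ _)]
  have e4 : ∑ e, (kap g P U l (ys e) + ka1 g P U l (ys e) * nat g P x 0) * nat g P x (ys e) =
      ∑ e, kap g P U l (ys e) * nat g P x (ys e) +
        ∑ e, ka1 g P U l (ys e) * (nat g P x (ys e) * nat g P x 0) := by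
    rw [← Finset.sum_add_distrib]
    exact Finset.sum_congr rfl fun e _ => by ring
  rw [e3, e4]
  have e5 : 2 ^ g l * (x l - eval x (U l)) -
      (nat g P x l - ∑ u, kap g P U l (gs u) * nat g P x (gs u) -
        (∑ e, kap g P U l (ys e) * nat g P x (ys e) +
          ∑ e, ka1 g P U l (ys e) * (nat g P x (ys e) * nat g P x 0)) - ptm g P U l x) =
      -(2 ^ g l * (eval x (U l) - eval x (P l)) - (ptm g P U l x +
        (∑ u, kap g P U l (gs u) * nat g P x (gs u) + ∑ e, kap g P U l (ys e) *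
          nat g P x (ys e)) + ∑ e, ka1 g P U l (ys e) * (nat g P x (ys e) * nat g P x 0))) := by
    unfold nat
    ring
  rw [e5, abs_neg]
  exact key

/-- **The difference of the heights over a label with gain.** -/
theorem exp_dif (n K c₀ : ℕ) (C b : ℝ) (hC : 0 ≤ C) (hb : 0 ≤ b) : ∃ c' : ℝ, 0 ≤ c' ∧
    ∀ (z y r a c k : ℕ) (Sl Gr : ℕ → Prop) (ys : Fin k → ℕ) (gs : Fin c → ℕ) (g g1 g2 : ℕ → ℕ),
    1 ≤ z → k ≤ n → Ix n c k Sl Gr ys gs → Lw n c₀ y z r a Gr g g1 g2 → ∀ P U : ℕ → PN,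
    Tg K n P → Tg K n U → Sp g P U n (exp (C * z)) → Sp g1 P U n (exp (C * z)) →
    Sp g2 P U n (exp (C * z)) → ∀ v : Fin c, ∀ x x' : ℕ → ℝ, Bx g P (gs v) (exp (b * z)) x →
    Bx g P (gs v) (exp (b * z)) x' → ∀ δ : ℝ, 0 ≤ δ → |nat g P x 0 - nat g P x' 0| ≤ δ →
      |(∑ u, MM g P U (gs v) (gs u) * (nat g P x (gs u) - nat g P x' (gs u)) -
          ∑ e, (kap g P U (gs v) (ys e) + ka1 g P U (gs v) (ys e) * nat g P x' 0) *
            (nat g P x (ys e) - nat g P x' (ys e))) -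
        (2 ^ g (gs v) * (x (gs v) - eval x (U (gs v))) -
          2 ^ g (gs v) * (x' (gs v) - eval x' (U (gs v))))| ≤
        exp (c' * z) * (1 / 2 ^ (y * z) + δ) := by
  classical
  obtain ⟨c₁, h1, h⟩ := exp_fin n K c₀ C b hC hb
  obtain ⟨c₂, h2, hp⟩ := ptm_dif n K C b hC hb
  obtain ⟨c₃, h3, hk⟩ := ka1_le n K C hC
  refine ⟨c₁ + c₂ + (n + c₃ + b) + 3, by positivity, ?_⟩
  intro z y r a c k Sl Gr ys gs g g1 g2 hz hkn hI hL P U hP hU hS0 hS1 hS2 v x x' hx hx' δ hδ hd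
  have hzr : (1 : ℝ) ≤ z := by exact_mod_cast hz
  have hv1 := hI.di.g1 _ (hI.gs_gr v)
  have a1 := h z y r a c k Sl Gr ys gs g g1 g2 hz hI hL P U hP hU hS1 hS2 v x hx
  have a2 := h z y r a c k Sl Gr ys gs g g1 g2 hz hI hL P U hP hU hS1 hS2 v x' hx'
  have a3 := hp z g P U hzr hP hU hS0 (gs v) hv1.2 x x' (hx 0 hv1.1) (hx' 0 hv1.1) δ hδ hd
  obtain ⟨l, hl⟩ : ∃ l, l = gs v := ⟨_, rfl⟩
  rw [← hl] at a1 a2 a3 hv1 ⊢
  have hxl : Bx g P l (exp (b * z)) x := by
    rw [hl]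
    exact hx
  have a4 : |∑ e, ka1 g P U l (ys e) * (nat g P x 0 - nat g P x' 0) * nat g P x (ys e)| ≤
      k * (exp (c₃ * z) * δ * exp (b * z)) := by
    have := sum_bd univ (fun e : Fin k => ka1 g P U l (ys e) * (nat g P x 0 - nat g P x' 0) *
      nat g P x (ys e)) (B := exp (c₃ * z) * δ * exp (b * z)) (fun e _ => by
        rcases Nat.lt_or_ge (ys e) l with hlt | hge
        · rw [abs_mul, abs_mul]
          exact mul_le_mul (mul_le_mul (hk z g P U hzr hP hU hS0 l hv1.2 _) hd (abs_nonneg _)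
            (exp_pos _).le) (hxl _ hlt) (abs_nonneg _) (by positivity)
        · rw [ka1_zero hP.tri hU.tri hge, zero_mul, zero_mul, abs_zero]
          positivity)
    rwa [card_univ, Fintype.card_fin] at this
  obtain ⟨G, hG⟩ : ∃ G : ℝ, G = 2 ^ g l * (x l - eval x (U l)) := ⟨_, rfl⟩
  obtain ⟨G', hG'⟩ : ∃ G' : ℝ, G' = 2 ^ g l * (x' l - eval x' (U l)) := ⟨_, rfl⟩
  rw [← hG] at a1 ⊢
  rw [← hG'] at a2 ⊢
  have e1 : (∑ u, MM g P U l (gs u) * (nat g P x (gs u) - nat g P x' (gs u)) -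
      ∑ e, (kap g P U l (ys e) + ka1 g P U l (ys e) * nat g P x' 0) *
        (nat g P x (ys e) - nat g P x' (ys e))) - (G - G') =
      -(G - (∑ u, MM g P U l (gs u) * nat g P x (gs u) -
          ∑ e, (kap g P U l (ys e) + ka1 g P U l (ys e) * nat g P x 0) * nat g P x (ys e) -
          ptm g P U l x)) +
      (G' - (∑ u, MM g P U l (gs u) * nat g P x' (gs u) -
          ∑ e, (kap g P U l (ys e) + ka1 g P U l (ys e) * nat g P x' 0) * nat g P x' (ys e) -
          ptm g P U l x')) + (ptm g P U l x - ptm g P U l x') +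
      ∑ e, ka1 g P U l (ys e) * (nat g P x 0 - nat g P x' 0) * nat g P x (ys e) := by
    have f1 : ∑ u, MM g P U l (gs u) * (nat g P x (gs u) - nat g P x' (gs u)) =
        ∑ u, MM g P U l (gs u) * nat g P x (gs u) - ∑ u, MM g P U l (gs u) * nat g P x' (gs u) := by
      rw [← Finset.sum_sub_distrib]
      exact Finset.sum_congr rfl fun u _ => by ring
    have f2 : ∑ e, (kap g P U l (ys e) + ka1 g P U l (ys e) * nat g P x' 0) *
        (nat g P x (ys e) - nat g P x' (ys e)) =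
        ∑ e, (kap g P U l (ys e) + ka1 g P U l (ys e) * nat g P x 0) * nat g P x (ys e) -
        ∑ e, (kap g P U l (ys e) + ka1 g P U l (ys e) * nat g P x' 0) * nat g P x' (ys e) -
        ∑ e, ka1 g P U l (ys e) * (nat g P x 0 - nat g P x' 0) * nat g P x (ys e) := by
      rw [← Finset.sum_sub_distrib, ← Finset.sum_sub_distrib]
      exact Finset.sum_congr rfl fun e _ => by ring
    rw [f1, f2]
    ring
  rw [e1]
  obtain ⟨X1, hX1⟩ : ∃ X1 : ℝ, X1 = G - (∑ u, MM g P U l (gs u) * nat g P x (gs u) -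
          ∑ e, (kap g P U l (ys e) + ka1 g P U l (ys e) * nat g P x 0) * nat g P x (ys e) -
          ptm g P U l x) := ⟨_, rfl⟩
  obtain ⟨X2, hX2⟩ : ∃ X2 : ℝ, X2 = G' - (∑ u, MM g P U l (gs u) * nat g P x' (gs u) -
          ∑ e, (kap g P U l (ys e) + ka1 g P U l (ys e) * nat g P x' 0) * nat g P x' (ys e) -
          ptm g P U l x') := ⟨_, rfl⟩
  rw [← hX1] at a1 ⊢
  rw [← hX2] at a2 ⊢
  have b1 : |-X1 + X2 + (ptm g P U l x - ptm g P U l x') +
      ∑ e, ka1 g P U l (ys e) * (nat g P x 0 - nat g P x' 0) * nat g P x (ys e)| ≤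
      exp (c₁ * z) / 2 ^ (y * z) + exp (c₁ * z) / 2 ^ (y * z) + exp (c₂ * z) * δ +
        k * (exp (c₃ * z) * δ * exp (b * z)) := by
    refine (abs_add_le _ _).trans (add_le_add ?_ a4)
    refine (abs_add_le _ _).trans (add_le_add ?_ a3)
    refine (abs_add_le _ _).trans (add_le_add ?_ a2)
    rw [abs_neg]
    exact a1
  refine b1.trans ?_
  have h2' : (2 : ℝ) ≤ exp (1 * z) := by
    have := Real.add_one_le_exp (1 * (z : ℝ))
    linarith
  have m1 : 2 * exp (c₁ * z) ≤ exp ((c₁ + c₂ + (n + c₃ + b) + 3) * z) := by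
    calc 2 * exp (c₁ * z) ≤ exp (1 * z) * exp (c₁ * z) := by gcongr
      _ = exp ((c₁ + 1) * z) := by rw [← exp_add]; ring_nf
      _ ≤ _ := ex_mono (by
        have : (0 : ℝ) ≤ n := Nat.cast_nonneg n
        linarith) hzr
  have m2 : exp (c₂ * z) + k * (exp (c₃ * z) * exp (b * z)) ≤
      exp ((c₁ + c₂ + (n + c₃ + b) + 3) * z) := by
    have hkk : (k : ℝ) ≤ exp (n * z) := by
      have h5 : (k : ℝ) ≤ n := by exact_mod_cast hkn
      have := Real.add_one_le_exp ((n : ℝ) * z)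
      have : (0 : ℝ) ≤ n := Nat.cast_nonneg n
      nlinarith
    have h6 : k * (exp (c₃ * z) * exp (b * z)) ≤ exp ((n + c₃ + b) * z) := by
      calc (k : ℝ) * (exp (c₃ * z) * exp (b * z)) ≤ exp (n * z) * (exp (c₃ * z) * exp (b * z)) := by
            gcongr
        _ = _ := by rw [← exp_add, ← exp_add]; ring_nf
    refine (add_le_add le_rfl h6).trans ((ex_add hzr).trans (ex_mono ?_ hzr))
    rw [abs_of_nonneg h2, abs_of_nonneg (by positivity)]
    linarith
  have e2 : exp (c₁ * z) / 2 ^ (y * z) + exp (c₁ * z) / 2 ^ (y * z) + exp (c₂ * z) * δ +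
      k * (exp (c₃ * z) * δ * exp (b * z)) = (2 * exp (c₁ * z)) * (1 / 2 ^ (y * z)) +
      (exp (c₂ * z) + k * (exp (c₃ * z) * exp (b * z))) * δ := by ring
  rw [e2, mul_add]
  exact add_le_add (mul_le_mul_of_nonneg_right m1 (by positivity))
    (mul_le_mul_of_nonneg_right m2 hδ)

end Pool.P4
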