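import Pool.Agent.H25.P4.GfC
import Pool.Agent.H25.P4.GfE

/-!
# P4, labels with gain over a closed frame: the thin box

`lw_of`: the levels of the places. `ud_ul`: the two sides of a label with gain agree on large boxes
over a closed frame. `gf_bx`: the relation of the coordinates of the points of the thin box.
-/

set_option autoImplicit false

namespace Pool.P4

open Finset Real MvPolynomial
open Pool.Agent.H49.Ent Pool.Agent.H32.Dense Pool.STK Pool.STAT Pool.MIC.Frm Pool.FRM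
open Pool.MIC.Fru (gw nat_gw nat_gw0 atT_tri atT_deg)
open Pool.P4L (tz Lw lv_ok)

/-- **The levels** of the places `(i, j)`, `(i₂, j - r)`, `(i - a, j)`. -/
theorem lw_of {D : NDat2} {n K J a₀ w₀ z M : ℕ} {lam gam : ℕ → ℝ} {κ C₁ : ℝ} {q : D.Ω → ℝ}
    (hO : D.Ok2 n K J a₀ w₀ z M lam gam κ C₁ q) (hlam : ∀ l, 1 ≤ l → l ≤ n → lam l = 1)
    (hC₁ : 0 ≤ C₁) {c : ℕ} (hc : 4 * C₁ ≤ c) {y r r' a i i₂ j : ℕ} (hi : i ≤ M) (hj : j ≤ M)
    (ha : a ≤ i) (hr : r ≤ j) (h2 : i₂ ≤ i) (ya : y ≤ a)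
    (s2 : ∀ l, gr gam n l → (r' : ℝ) + y ≤ gam l * r) (s2' : r' + y ≤ r)
    (s3 : ∀ l, gr gam n l → (gam l - 1) * r + y ≤ r') :
    Lw n c y z r a (gr gam n) (D.g i j) (D.g i₂ (j - r)) (D.g (i - a) j) := by
  have hz0 : (0 : ℝ) ≤ z := Nat.cast_nonneg z
  have hcz : 4 * C₁ * z ≤ c * z := mul_le_mul_of_nonneg_right hc hz0
  have hCz : 0 ≤ C₁ * z := mul_nonneg hC₁ hz0
  have ejr : ((j - r : ℕ) : ℝ) = j - r := by rw [Nat.cast_sub hr]
  have eia : ((i - a : ℕ) : ℝ) = i - a := by rw [Nat.cast_sub ha]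
  have L1 : ∀ l, 1 ≤ l → l ≤ n →
      |(D.g i j l : ℝ) - D.g i₂ (j - r) l - (((i : ℝ) - i₂) + gam l * r) * z| ≤ 2 * C₁ * z := by
    intro l l1 ln
    have h := lv_ok hO hlam (i₁ := i) (j₁ := j) (i₂ := i₂) (j₂ := j - r) hi hj (by omega)
      (by omega) l1 ln
    rw [ejr] at h
    rw [show (j : ℝ) - (j - r) = r by ring] at h
    exact h
  have L2 : ∀ l, 1 ≤ l → l ≤ n →
      |(D.g i j l : ℝ) - D.g (i - a) j l - (a : ℝ) * z| ≤ 2 * C₁ * z := by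
    intro l l1 ln
    have h := lv_ok hO hlam (i₁ := i) (j₁ := j) (i₂ := i - a) (j₂ := j) hi hj
      (by omega) (by omega) l1 ln
    rw [eia] at h
    rw [show (i : ℝ) - (i - a) + gam l * (j - j) = a by ring] at h
    exact h
  have g0 : D.g i j 0 = w₀ + j * z := hO.g_zero i j
  have g1 : D.g i₂ (j - r) 0 = w₀ + (j - r) * z := hO.g_zero i₂ (j - r)
  have g2 : D.g (i - a) j 0 = w₀ + j * z := hO.g_zero (i - a) j
  have ej : (j - r) * z + r * z = j * z := by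
    rw [← add_mul]
    congr 1
    omega
  have mz : ∀ {x y : ℝ}, x ≤ y → x * z ≤ y * z := fun h => mul_le_mul_of_nonneg_right h hz0
  have s2r : (r' : ℝ) + y ≤ r := by exact_mod_cast s2'
  have hy0 : (0 : ℝ) ≤ y := Nat.cast_nonneg y
  have et : (D.g i₂ (j - r) 0 : ℝ) + r * z = D.g i j 0 := by
    have : D.g i₂ (j - r) 0 + r * z = D.g i j 0 := by
      rw [g0, g1]
      omega
    exact_mod_cast this
  constructor
  · rw [g0, g1]
    omega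
  · rw [g0, g2]
  · exact ya
  · intro l l1 ln
    have e1 := (abs_le.1 (L2 l l1 ln)).1
    have e3 : (D.g (i - a) j l : ℝ) + a * z ≤ D.g i j l + c * z := by linarith
    exact_mod_cast e3
  · intro l l1 ln
    have e1 := (abs_le.1 (L2 l l1 ln)).2
    have e3 : (D.g i j l : ℝ) ≤ D.g (i - a) j l + a * z + c * z := by linarith
    exact_mod_cast e3
  · intro l k l1 ln k1 kn hl hk
    have e1 := (abs_le.1 (L1 l l1 ln)).2
    have e2 := (abs_le.1 (L1 k k1 kn)).1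
    have e3 : (gam l * r + y) * z ≤ (gam k * r + r) * z := mz (by
      have h3 := s3 l hl
      have h4 := s2 k hk
      have h5 : (gam l - 1) * r = gam l * r - r := by ring
      linarith)
    have e4 : (D.g i₂ (j - r) k : ℝ) + D.g i₂ (j - r) 0 + D.g i j l + y * z ≤
        D.g i j k + D.g i j 0 + D.g i₂ (j - r) l + c * z := by linarith
    exact_mod_cast e4
  · intro l k l1 ln k1 kn hl
    have e1 := (abs_le.1 (L1 l l1 ln)).2
    have e2 := (abs_le.1 (L1 k k1 kn)).1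
    have e3 : (gam l * r + y) * z ≤ (gam k * r + 2 * r) * z := mz (by
      have h3 := s3 l hl
      have h4 : 0 ≤ gam k * r := mul_nonneg (hO.gam_ge k) (Nat.cast_nonneg r)
      have h5 : (gam l - 1) * r = gam l * r - r := by ring
      linarith)
    have e4 : (D.g i₂ (j - r) k : ℝ) + 2 * D.g i₂ (j - r) 0 + D.g i j l + y * z ≤
        D.g i j k + 2 * D.g i j 0 + D.g i₂ (j - r) l + c * z := by linarith
    exact_mod_cast e4

/-- A polynomial in the first `l` coordinates: from the unit box to large boxes. -/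
theorem grow_l (n K : ℕ) (b : ℝ) (hb : 0 ≤ b) : ∃ c' : ℝ, 0 ≤ c' ∧ ∀ (z : ℝ) (g : ℕ → ℕ)
    (P : ℕ → PN) (F : PN) (S : ℝ), 1 ≤ z → Tg K n P → ∀ l ≤ n, F.vars ⊆ range l →
    F.totalDegree ≤ K → 0 ≤ S → (∀ x : ℕ → ℝ, Bx g P l 1 x → |eval x F| ≤ S) →
    ∀ x : ℕ → ℝ, Bx g P l (exp (b * z)) x → |eval x F| ≤ exp (c' * z) * S := by
  choose C hC h using fun m => nrm_of_bx m K
  obtain ⟨A, hA⟩ : ∃ A : ℝ, A = ∑ m ∈ range (n + 1), C m := ⟨_, rfl⟩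
  have hle : ∀ l ≤ n, C l ≤ A := fun l hl => by
    rw [hA]
    exact Finset.single_le_sum (f := fun m => C m) (fun m _ => zero_le_one.trans (hC m))
      (mem_range.2 (Nat.lt_succ_of_le hl))
  have hA1 : 1 ≤ A := (hC 0).trans (hle 0 (Nat.zero_le n))
  obtain ⟨K₂, hK₂⟩ : ∃ K₂ : ℕ, K₂ = K * (K + 1) ^ n := ⟨_, rfl⟩
  refine ⟨A + K₂ * b, by positivity, ?_⟩
  intro z g P F S hz hP l hl hv hF hS hx x hxb
  have h1 := h l g P F S hP.tri (fun i hi => hP.deg i (by omega)) hv hF hx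
  have hB : 1 ≤ exp (b * z) := ex_one hb hz
  have h2 := bx_of_nrm (m := l) (K := K) (g := g) (P := P) (F := F) (B := exp (b * z))
    hP.tri (fun i hi => hP.deg i (by omega)) hv hF hB h1 hxb
  refine h2.trans ?_
  have h3 : exp (b * z) ^ (K * (K + 1) ^ l) ≤ exp (b * z) ^ K₂ := by
    refine pow_le_pow_right₀ hB ?_
    rw [hK₂]
    exact Nat.mul_le_mul_left _ (Nat.pow_le_pow_right (Nat.succ_pos _) hl)
  calc exp (b * z) ^ (K * (K + 1) ^ l) * (C l * S) ≤ exp (b * z) ^ K₂ * (A * S) := by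
        refine mul_le_mul h3 (mul_le_mul_of_nonneg_right (hle l hl) hS)
          (mul_nonneg (zero_le_one.trans (hC l)) hS) (by positivity)
    _ = (A * exp (b * z) ^ K₂ * exp (0 * z)) * S := by
        rw [zero_mul, exp_zero]
        ring
    _ ≤ _ := by
        refine mul_le_mul_of_nonneg_right ?_ hS
        have := ex_le hA1 K₂ b 0 hz
        rwa [add_zero] at this

/-- The box of the radius around the exact time. -/
theorem bx_rad {D : NDat2} {i j a₀ z l : ℕ} {P : ℕ → PN} {ω : D.Ω} {B : ℝ} {b : ℕ → ℝ}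
    (h0 : |b 0 - D.X ω 0| ≤ B / 2 ^ (a₀ + i * z))
    (h1 : ∀ k, 1 ≤ k → k < l → |nat (D.g i j) P b k| ≤ B) :
    Bx (gw (a₀ + i * z) (D.g i j)) (atT (D.X ω 0) P) l B b := by
  intro k hk
  rcases Nat.eq_zero_or_pos k with hk0 | hk0
  · rw [hk0, nat_gw0, abs_mul, abs_of_pos (by positivity)]
    rw [le_div_iff₀ (by positivity)] at h0
    linarith
  · rw [nat_gw' _ _ _ _ _ hk0]
    exact h1 k hk0 hk

/-- **The two sides of a label with gain** on large boxes over a frame near to the visible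
labels. -/
theorem ud_ul (n K : ℕ) (C C₁ b : ℝ) (hC : 0 ≤ C) (hb : 0 ≤ b) : ∃ c' : ℝ, 0 ≤ c' ∧
    ∀ (D : NDat2) (U : GnL D) (R : ℕ → Prop) (K₁ J a₀ w₀ z M Q : ℕ) (lam gam : ℕ → ℝ) (κ : ℝ)
      (q : D.Ω → ℝ), D.Ok2 n K₁ J a₀ w₀ z M lam gam κ C₁ q → U.Ok n K₁ J a₀ w₀ z M Q R C₁ q →
      K₁ ≤ K → 1 ≤ z → ∀ i ≤ M, ∀ j ≤ M, ∀ ω, 0 < q ω → ∀ P : ℕ → PN, Tg K n P →
      Sp (gw (a₀ + i * z) (D.g i j)) (atT (D.X ω 0) P) (atT (D.X ω 0) (D.Ψ i j ω)) n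
        (exp (C * z)) → ∀ l, Ct n R l → ∀ x : ℕ → ℝ,
      Bx (gw (a₀ + i * z) (D.g i j)) (atT (D.X ω 0) P) l (exp (b * z)) x →
      |eval x (U.UD l (D.pt ω)) - eval x (U.UL l (D.wn J w₀ ω))| ≤
        exp (c' * z) / 2 ^ U.pr l := by
  obtain ⟨c₁, h1, h1', hgr⟩ := sp_grow n K C b hC hb
  obtain ⟨c₂, h2, hg⟩ := grow_l n K c₁ (hb.trans h1')
  refine ⟨c₂, h2, ?_⟩
  intro D U R K₁ J a₀ w₀ z M Q lam gam κ q hO hU hK hz i hi j hj ω hω P hP hS l hl x hx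
  have hzr : (1 : ℝ) ≤ z := by exact_mod_cast hz
  have hΨ : Tg K n (D.Ψ i j ω) := ⟨hO.G_tri i j _, fun l _ => (hO.G_deg i j _ l).trans hK⟩
  have hB := (hgr z _ _ _ hzr (tg_atT hP _) (tg_atT hΨ _) hS l hl.2.1.le x hx).2
  have key := hg z _ _ (U.UD l (D.pt ω) - U.UL l (D.wn J w₀ ω)) (1 / 2 ^ U.pr l) hzr
    (tg_atT hΨ (D.X ω 0)) l hl.2.1.le (AdxRow.vars_sub_le (hU.varD l _) (hU.varL l _))
    ((totalDegree_sub _ _).trans (max_le ((hU.degD l _).trans hK) ((hU.degL l _).trans hK)))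
    (by positivity) (fun y hy => by
      rw [map_sub]
      exact hU.two l hl.1 hl.2.1 hl.2.2 i hi j hj ω hω y (nb_of_bx hl.1 hy)) x hB
  rw [map_sub, mul_one_div] at key
  exact key

/-- One place: the labels with gain of the line are near to `P`. -/
theorem pl_one (n K : ℕ) (C C' : ℝ) (hC : 0 ≤ C) (hC' : 0 ≤ C') : ∃ c' : ℝ, 0 ≤ c' ∧
    ∀ (D : NDat2) (U : GnL D) (R : ℕ → Prop) (z : ℕ) (g : ℕ → ℕ) (P Φ : ℕ → PN)
      (x : D.Λ × ℕ), 1 ≤ z → Tg K n P → Tg K n Φ → Tg K n (uL U n R Φ x) →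
      Sp g P Φ n (exp (C * z)) → Sp g Φ (uL U n R Φ x) n (exp (C' * z)) →
      Sp g P (uL U n R P x) n (exp (c' * z)) := by
  obtain ⟨c₂, h2, ht⟩ := sp_trans n K C C' hC hC'
  refine ⟨c₂, hC.trans h2, ?_⟩
  intro D U R z g P Φ x hz hP hΦ hT h1 h3
  have hzr : (1 : ℝ) ≤ z := by exact_mod_cast hz
  exact sp_sysU (Ψ := Φ) (exp_pos _).le (ht z _ _ _ _ hzr hP hΦ hT h1 h3)

/-- **The places of a frame**: `P` is a closed frame at `(i, j)`, `(i - a, j)`, `(i₂, j - r)`. -/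
structure P3 (D : NDat2) (n K z M i i₂ j r r' a y : ℕ) (gam : ℕ → ℝ) (C : ℝ) (P : ℕ → PN)
    (ω : D.Ω) : Prop where
  tg : Tg K n P
  e0 : Sp (D.g i j) P (D.Φ i j ω) n (exp (C * z))
  e1 : Sp (D.g i₂ (j - r)) P (D.Φ i₂ (j - r) ω) n (exp (C * z))
  e2 : Sp (D.g (i - a) j) P (D.Φ (i - a) j ω) n (exp (C * z))
  bz : ∀ l, 1 ≤ l → l ≤ n → |nat (D.g i j) P (D.X ω) l| ≤ exp (C * z)
  iM : i ≤ M
  jr : j + r < M
  ai : a ≤ i
  rj : r ≤ j
  i2 : i₂ ≤ i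
  ya : y ≤ a
  s2 : ∀ l, gr gam n l → (r' : ℝ) + y ≤ gam l * r
  s2' : r' + y ≤ r
  s3 : ∀ l, gr gam n l → (gam l - 1) * r + y ≤ r'

/-- The labels with gain at the three places, and the levels. -/
theorem p3_u (n K : ℕ) (C C' C₁ : ℝ) (hC : 0 ≤ C) (hC' : 0 ≤ C') (hC₁ : 0 ≤ C₁) :
    ∃ (c' : ℝ) (c₀ : ℕ), 0 ≤ c' ∧
    ∀ (D : NDat2) (U : GnL D) (R : ℕ → Prop) (K₁ J a₀ w₀ z M Q : ℕ) (lam gam : ℕ → ℝ) (κ : ℝ)
      (q : D.Ω → ℝ), D.Ok2 n K₁ J a₀ w₀ z M lam gam κ C₁ q → U.Ok n K₁ J a₀ w₀ z M Q R C₁ q →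
      K₁ ≤ K → 1 ≤ z → (∀ l, 1 ≤ l → l ≤ n → lam l = 1) → ∀ (i i₂ j r r' a y : ℕ) (P : ℕ → PN)
      (ω : D.Ω), P3 D n K z M i i₂ j r r' a y gam C P ω → GoodU D U n J w₀ z M R C' ω →
      Lw n c₀ y z r a (gr gam n) (D.g i j) (D.g i₂ (j - r)) (D.g (i - a) j) ∧
      Tg K n (uL U n R P (D.wn J w₀ ω)) ∧
      Sp (D.g i j) P (uL U n R P (D.wn J w₀ ω)) n (exp (c' * z)) ∧
      Sp (D.g i₂ (j - r)) P (uL U n R P (D.wn J w₀ ω)) n (exp (c' * z)) ∧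
      Sp (D.g (i - a) j) P (uL U n R P (D.wn J w₀ ω)) n (exp (c' * z)) := by
  obtain ⟨c', h0, h⟩ := pl_one n K C C' hC hC'
  obtain ⟨c₀, hc₀⟩ := exists_nat_ge (4 * C₁)
  refine ⟨c', c₀, h0, ?_⟩
  intro D U R K₁ J a₀ w₀ z M Q lam gam κ q hO hU hK hz hlam i i₂ j r r' a y P ω hP hG
  have hjr := hP.jr
  have hrj := hP.rj
  have hai := hP.ai
  have hiM := hP.iM
  have hi2 := hP.i2
  have hΦ : ∀ i j, Tg K n (D.Φ i j ω) := fun i j =>
    ⟨hO.P_tri i j _, fun l _ => (hO.P_deg i j _ l).trans hK⟩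
  refine ⟨lw_of hO hlam hC₁ hc₀ hiM (by omega) hai hrj hi2 hP.ya hP.s2 hP.s2' hP.s3,
    tg_uL hU hK hP.tg _, ?_, ?_, ?_⟩
  · exact h D U R z _ P _ _ hz hP.tg (hΦ _ _) (tg_uL hU hK (hΦ _ _) _) hP.e0
      (hG.cl i hiM j (by omega))
  · exact h D U R z _ P _ _ hz hP.tg (hΦ _ _) (tg_uL hU hK (hΦ _ _) _) hP.e1
      (hG.cl i₂ (by omega) (j - r) (by omega))
  · exact h D U R z _ P _ _ hz hP.tg (hΦ _ _) (tg_uL hU hK (hΦ _ _) _) hP.e2
      (hG.cl (i - a) (by omega) j (by omega))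

/-- The covector of a label with gain over `P`, line side. -/
noncomputable def cvL {D : NDat2} (U : GnL D) (n : ℕ) (R : ℕ → Prop) (g : ℕ → ℕ) (P : ℕ → PN)
    (x : D.Λ × ℕ) (l u : ℕ) : ℝ := MM g P (uL U n R P x) l u

/-- The slope of a label with gain over `P` at the time of `x'`, line side. -/
noncomputable def slL {D : NDat2} (U : GnL D) (n : ℕ) (R : ℕ → Prop) (g : ℕ → ℕ) (P : ℕ → PN)
    (x : D.Λ × ℕ) (l k : ℕ) (x' : ℕ → ℝ) : ℝ :=
  kap g P (uL U n R P x) l k + ka1 g P (uL U n R P x) l k * nat g P x' 0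

/-- **Points near to the thin sheet**: the relation of the coordinates. -/
theorem gf_bx (n K : ℕ) (C C' C₁ B : ℝ) (hC : 0 ≤ C) (hC' : 0 ≤ C') (hC₁ : 0 ≤ C₁)
    (hB : 0 ≤ B) : ∃ c' : ℝ, 0 ≤ c' ∧
    ∀ (D : NDat2) (U : GnL D) (R : ℕ → Prop) (K₁ J a₀ w₀ z M Q : ℕ) (lam gam : ℕ → ℝ) (κ : ℝ)
      (q : D.Ω → ℝ), D.Ok2 n K₁ J a₀ w₀ z M lam gam κ C₁ q → U.Ok n K₁ J a₀ w₀ z M Q R C₁ q →
      K₁ ≤ K → 1 ≤ z → (∀ l, 1 ≤ l → l ≤ n → lam l = 1) → ∀ (i i₂ j r r' a y c k : ℕ)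
      (ys : Fin k → ℕ) (gs : Fin c → ℕ), k ≤ n → Ix n c k (sl gam n) (gr gam n) ys gs →
      ∀ (P : ℕ → PN) (ω : D.Ω), 0 < q ω → P3 D n K z M i i₂ j r r' a y gam C P ω →
      GoodU D U n J w₀ z M R C' ω → ∀ v : Fin c, Ct n R (gs v) → ∀ b : ℕ → ℝ,
      |b 0 - D.X ω 0| ≤ exp (B * z) / 2 ^ (a₀ + i * z) →
      (∀ k, 1 ≤ k → k < gs v → |nat (D.g i j) P b k| ≤ exp (B * z)) → ∀ σ : ℝ,
      |b (gs v) - eval b (U.UD (gs v) (D.pt ω))| ≤ σ / 2 ^ D.g i j (gs v) →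
      |∑ u, cvL U n R (D.g i j) P (D.wn J w₀ ω) (gs v) (gs u) *
          (nat (D.g i j) P b (gs u) - nat (D.g i j) P (D.X ω) (gs u)) -
        ∑ e, slL U n R (D.g i j) P (D.wn J w₀ ω) (gs v) (ys e) (D.X ω) *
          (nat (D.g i j) P b (ys e) - nat (D.g i j) P (D.X ω) (ys e))| ≤
        σ + exp (c' * z) * (1 / 2 ^ (y * z) + 1 / 2 ^ (Q * z)) := by
  classical
  obtain ⟨c₁, c₀, h1, hu⟩ := p3_u n K C C' C₁ hC hC' hC₁
  obtain ⟨c₂, h2, hrad⟩ := rad_sp n K C hC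
  obtain ⟨B', hB'⟩ : ∃ B' : ℝ, B' = |C| + |B| + 2 + C + B := ⟨_, rfl⟩
  have hB'0 : 0 ≤ B' := by rw [hB']; positivity
  obtain ⟨c₃, h3, hud⟩ := ud_ul n K c₂ C₁ B' h2 hB'0
  obtain ⟨c₄, h4, hdif⟩ := exp_dif n K c₀ c₁ B' h1 hB'0
  refine ⟨c₃ + 3 + (c₄ + B) + 1, by positivity, ?_⟩
  intro D U R K₁ J a₀ w₀ z M Q lam gam κ q hO hU hK hz hlam i i₂ j r r' a y c k ys gs hkn hI P ω
    hω hP hG v hv b hb0 hbk σ hσ
  have hzr : (1 : ℝ) ≤ z := by exact_mod_cast hz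
  have hjr := hP.jr
  have hrj := hP.rj
  have hai := hP.ai
  have hiM := hP.iM
  have hi2 := hP.i2
  have hjM : j ≤ M := by omega
  have hB1 : exp (B * z) ≤ exp (B' * z) := ex_mono (by
    rw [hB']
    have := abs_nonneg B
    have := abs_nonneg C
    linarith) hzr
  have hC1 : exp (C * z) ≤ exp (B' * z) := ex_mono (by
    rw [hB']
    have := abs_nonneg B
    have := abs_nonneg C
    linarith) hzr
  obtain ⟨hL, hUt, s0, s1, s2⟩ := hu D U R K₁ J a₀ w₀ z M Q lam gam κ q hO hU hK hz hlam i i₂ j r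
    r' a y P ω hP hG
  have hrd := hrad D K₁ J a₀ w₀ z M lam gam κ C₁ q hO hK hz i hiM j hjM ω hω P hP.tg hP.e0
  have hl1 := hv.1
  have hln := hv.2.1
  obtain ⟨l, hl⟩ : ∃ l, l = gs v := ⟨_, rfl⟩
  -- boxes
  have tb : |nat (D.g i j) P b 0| ≤ exp (B' * z) :=
    (t0_box hO hz hiM hjM hω hP.tg hP.e0 hb0).trans (ex_mono (by rw [hB']; linarith) hzr)
  have tX : |nat (D.g i j) P (D.X ω) 0| ≤ exp (B' * z) := by
    refine (t0_box hO hz hiM hjM hω hP.tg (b := B) hP.e0 ?_).trans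
      (ex_mono (by rw [hB']; linarith) hzr)
    rw [sub_self, abs_zero]
    positivity
  have bb : Bx (D.g i j) P (gs v) (exp (B' * z)) b := by
    intro k hk
    rcases Nat.eq_zero_or_pos k with hk0 | hk0
    · rw [hk0]
      exact tb
    · exact (hbk k hk0 hk).trans hB1
  have bX : Bx (D.g i j) P (gs v) (exp (B' * z)) (D.X ω) := by
    intro k hk
    rcases Nat.eq_zero_or_pos k with hk0 | hk0
    · rw [hk0]
      exact tX
    · exact (hP.bz k hk0 (by omega)).trans hC1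
  -- the time
  have hdt : |nat (D.g i j) P b 0 - nat (D.g i j) P (D.X ω) 0| ≤ exp (B * z) / 2 ^ (y * z) := by
    have e1 : nat (D.g i j) P b 0 - nat (D.g i j) P (D.X ω) 0 =
        2 ^ (w₀ + j * z) * (b 0 - D.X ω 0) := by
      unfold nat
      rw [ev0 hP.tg.tri b (D.X ω), hO.g_zero]
      ring
    rw [e1, abs_mul, abs_of_pos (by positivity)]
    rw [le_div_iff₀ (by positivity)] at hb0
    rw [le_div_iff₀ (by positivity)]
    have e2 : w₀ + j * z + y * z ≤ a₀ + i * z := by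
      have := hO.thin
      have hs2 := hP.s2'
      have e3 : (j + y) * z ≤ (M + 1) * z := Nat.mul_le_mul_right z (by omega)
      have e4 : (j + y) * z = j * z + y * z := by ring
      have e5 : 0 ≤ i * z := Nat.zero_le _
      omega
    calc (2 : ℝ) ^ (w₀ + j * z) * |b 0 - D.X ω 0| * 2 ^ (y * z)
        = 2 ^ (w₀ + j * z + y * z) * |b 0 - D.X ω 0| := by
          rw [pow_add _ (w₀ + j * z)]
          ring
      _ ≤ 2 ^ (a₀ + i * z) * |b 0 - D.X ω 0| :=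
          mul_le_mul_of_nonneg_right (pow_le_pow_right₀ one_le_two e2) (abs_nonneg _)
      _ ≤ _ := by linarith
  have key := hdif z y r a c k (sl gam n) (gr gam n) ys gs _ _ _ hz hkn hI hL P
    (uL U n R P (D.wn J w₀ ω)) hP.tg hUt s0 s1 s2 v b (D.X ω) bb bX
    (exp (B * z) / 2 ^ (y * z)) (by positivity) hdt
  have eU : uL U n R P (D.wn J w₀ ω) (gs v) = U.UL (gs v) (D.wn J w₀ ω) := by
    unfold uL
    exact sysU_ct hv
  rw [eU] at key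
  -- the heights
  have hpr := hU.deep (gs v) hv.1 hv.2.1 hv.2.2 i hiM j hjM
  have up : ∀ {A : ℝ}, 0 ≤ A → 2 ^ D.g i j (gs v) * (A / 2 ^ U.pr (gs v)) ≤ A / 2 ^ (Q * z) := by
    intro A hA
    rw [← mul_div_assoc, div_le_div_iff₀ (by positivity) (by positivity)]
    calc (2 : ℝ) ^ D.g i j (gs v) * A * 2 ^ (Q * z) = A * 2 ^ (D.g i j (gs v) + Q * z) := by
          rw [pow_add]
          ring
      _ ≤ A * 2 ^ U.pr (gs v) :=
          mul_le_mul_of_nonneg_left (pow_le_pow_right₀ one_le_two hpr) hA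
  have gX : |2 ^ D.g i j (gs v) * (D.X ω (gs v) - eval (D.X ω) (U.UL (gs v) (D.wn J w₀ ω)))| ≤
      2 / 2 ^ (Q * z) := by
    rw [abs_mul, abs_of_pos (by positivity)]
    exact (mul_le_mul_of_nonneg_left (own_L hO hU hv hω) (by positivity)).trans (up (by norm_num))
  have gb : |2 ^ D.g i j (gs v) * (b (gs v) - eval b (U.UL (gs v) (D.wn J w₀ ω)))| ≤
      σ + exp (c₃ * z) / 2 ^ (Q * z) := by
    have e1 := hud D U R K₁ J a₀ w₀ z M Q lam gam κ q hO hU hK hz i hiM j hjM ω hω P hP.tg hrd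
      (gs v) hv b (bx_rad (hb0.trans (div_le_div_of_nonneg_right hB1 (by positivity)))
        fun k h1 h2 => (hbk k h1 h2).trans hB1)
    have e2 : 2 ^ D.g i j (gs v) * (b (gs v) - eval b (U.UL (gs v) (D.wn J w₀ ω))) =
        2 ^ D.g i j (gs v) * (b (gs v) - eval b (U.UD (gs v) (D.pt ω))) +
        2 ^ D.g i j (gs v) * (eval b (U.UD (gs v) (D.pt ω)) -
          eval b (U.UL (gs v) (D.wn J w₀ ω))) := by ring
    rw [e2]
    refine (abs_add_le _ _).trans (add_le_add ?_ ?_)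
    · rw [abs_mul, abs_of_pos (by positivity)]
      rw [le_div_iff₀ (by positivity)] at hσ
      linarith
    · rw [abs_mul, abs_of_pos (by positivity)]
      exact (mul_le_mul_of_nonneg_left e1 (by positivity)).trans (up (exp_pos _).le)
  unfold cvL slL
  obtain ⟨T, hT⟩ : ∃ T : ℝ, T = ∑ u, MM (D.g i j) P (uL U n R P (D.wn J w₀ ω)) (gs v) (gs u) *
      (nat (D.g i j) P b (gs u) - nat (D.g i j) P (D.X ω) (gs u)) -
      ∑ e, (kap (D.g i j) P (uL U n R P (D.wn J w₀ ω)) (gs v) (ys e) +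
        ka1 (D.g i j) P (uL U n R P (D.wn J w₀ ω)) (gs v) (ys e) *
          nat (D.g i j) P (D.X ω) 0) *
        (nat (D.g i j) P b (ys e) - nat (D.g i j) P (D.X ω) (ys e)) := ⟨_, rfl⟩
  rw [← hT] at key ⊢
  have e6 : |T| ≤ exp (c₄ * z) * (1 / 2 ^ (y * z) + exp (B * z) / 2 ^ (y * z)) +
      ((σ + exp (c₃ * z) / 2 ^ (Q * z)) + 2 / 2 ^ (Q * z)) := by
    obtain ⟨Gb, hGb⟩ : ∃ Gb : ℝ, Gb = 2 ^ D.g i j (gs v) *
      (b (gs v) - eval b (U.UL (gs v) (D.wn J w₀ ω))) := ⟨_, rfl⟩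
    obtain ⟨GX, hGX⟩ : ∃ GX : ℝ, GX = 2 ^ D.g i j (gs v) *
      (D.X ω (gs v) - eval (D.X ω) (U.UL (gs v) (D.wn J w₀ ω))) := ⟨_, rfl⟩
    rw [← hGb, ← hGX] at key
    rw [← hGb] at gb
    rw [← hGX] at gX
    have e7 : T = (T - (Gb - GX)) + (Gb - GX) := by ring
    rw [e7]
    exact (abs_add_le _ _).trans (add_le_add key ((abs_sub _ _).trans (add_le_add gb gX)))
  refine e6.trans ?_
  have h22 : (2 : ℝ) ≤ exp (1 * z) := by
    have := Real.add_one_le_exp (1 * (z : ℝ))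
    linarith
  have m1 : exp (c₄ * z) * (1 + exp (B * z)) ≤ exp ((c₃ + 3 + (c₄ + B) + 1) * z) := by
    have hE : (1 : ℝ) ≤ exp (B * z) := ex_one hB hzr
    calc exp (c₄ * z) * (1 + exp (B * z)) ≤ exp (c₄ * z) * (exp (1 * z) * exp (B * z)) := by
          refine mul_le_mul_of_nonneg_left ?_ (exp_pos _).le
          nlinarith
      _ = exp ((c₄ + B + 1) * z) := by
          rw [← exp_add, ← exp_add]
          ring_nf
      _ ≤ _ := ex_mono (by linarith) hzr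
  have m2 : exp (c₃ * z) + 2 ≤ exp ((c₃ + 3 + (c₄ + B) + 1) * z) := by
    have hE : (1 : ℝ) ≤ exp (c₃ * z) := ex_one h3 hzr
    have h44 : (4 : ℝ) ≤ exp (1 * z) * exp (1 * z) := by nlinarith
    calc exp (c₃ * z) + 2 ≤ exp (c₃ * z) * 4 := by linarith
      _ ≤ exp (c₃ * z) * (exp (1 * z) * exp (1 * z)) :=
          mul_le_mul_of_nonneg_left h44 (exp_pos _).le
      _ = exp ((c₃ + 2) * z) := by
          rw [← exp_add, ← exp_add]
          ring_nf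
      _ ≤ _ := ex_mono (by linarith) hzr
  have e10 : exp (c₄ * z) * (1 / 2 ^ (y * z) + exp (B * z) / 2 ^ (y * z)) +
      ((σ + exp (c₃ * z) / 2 ^ (Q * z)) + 2 / 2 ^ (Q * z)) =
      σ + ((exp (c₄ * z) * (1 + exp (B * z))) * (1 / 2 ^ (y * z)) +
        (exp (c₃ * z) + 2) * (1 / 2 ^ (Q * z))) := by ring
  rw [e10, mul_add (exp ((c₃ + 3 + (c₄ + B) + 1) * z))]
  exact add_le_add le_rfl (add_le_add (mul_le_mul_of_nonneg_right m1 (by positivity))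
    (mul_le_mul_of_nonneg_right m2 (by positivity)))

end Pool.P4
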