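import Pool.Agent.H25.P4.GfH
import Pool.Agent.H52.P4.Chr

/-!
# P4: the labels with gain as known covectors

`gf`: at a place, for every contact coordinate of the group a covector over the visible frame which
is a function of the exact point, and a covector and slopes over the closed frame which are
functions of the context and of the line with the window. They agree under the change of the chart,
the own slopes satisfy the relation, and the points near to the thin sheet satisfy it.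
-/

set_option autoImplicit false

namespace Pool.P4

open Finset Real MvPolynomial
open Pool.Agent.H49.Ent Pool.Agent.H32.Dense Pool.STK Pool.STAT Pool.MIC.Frm Pool.FRM
open Pool.MIC.Fru (gw nat_gw nat_gw0 atT_tri atT_deg)
open Pool.LBL (Ld)
open Pool.P4L (tz Lw lv_ok)

/-! ### Windows -/

/-- The line and the window of length `2 ^ (-w₀)`, from the window of length `2 ^ (-w)`. -/
def lwn {Λ : Type} (w w₀ : ℕ) (x : Λ × ℕ) : Λ × ℕ := (x.1, x.2 / 2 ^ (w - w₀))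

theorem lwn_wn (D : NDat2) {J w w₀ : ℕ} (h1 : w₀ ≤ w) (h2 : w ≤ J) (ω : D.Ω) :
    lwn w w₀ (D.wn J w ω) = D.wn J w₀ ω := by
  unfold lwn NDat2.wn
  simp only
  rw [Nat.div_div_eq_div_mul, ← pow_add]
  congr 3
  omega

/-- The left end of the window. -/
noncomputable def tl (J w : ℕ) {Λ : Type} (x : Λ × ℕ) : ℝ := ((x.2 * 2 ^ (J - w) : ℕ) : ℝ) / 2 ^ J

section raw

variable {D : NDat2} (U : GnL D) (n J a₀ w₀ z w i j r a : ℕ) (R : ℕ → Prop)
  (E : D.Ω → Prop) (P : D.Γ × D.Γ → ℕ → PN)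

/-- The covector, line side. -/
noncomputable def fLr (x : (D.Γ × D.Γ) × (D.Λ × ℕ)) (l l' : ℕ) : ℝ :=
  cvL U n R (D.g i j) (P x.1) (lwn w w₀ x.2) l l'

/-- The slope at the left end of the window. -/
noncomputable def p0r (x : (D.Γ × D.Γ) × (D.Λ × ℕ)) (l k : ℕ) : ℝ :=
  kap (D.g i j) (P x.1) (uL U n R (P x.1) (lwn w w₀ x.2)) l k +
    ka1 (D.g i j) (P x.1) (uL U n R (P x.1) (lwn w w₀ x.2)) l k *
      (2 ^ D.g i j 0 * (tl J w x.2 - eval (fun _ => 0) (P x.1 0)))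

/-- The speed of the slope. -/
noncomputable def p1r (x : (D.Γ × D.Γ) × (D.Λ × ℕ)) (l k : ℕ) : ℝ :=
  ka1 (D.g i j) (P x.1) (uL U n R (P x.1) (lwn w w₀ x.2)) l k * (2 ^ D.g i j 0 / 2 ^ w)

/-- The covector, visible side. -/
noncomputable def fDr (σ : ℕ × (D.S × (D.S × D.S))) (x : D.Ξ) (l l' : ℕ) : ℝ :=
  MM (gw (a₀ + i * z) (D.g i j)) (atT ((σ.1 : ℝ) / 2 ^ J) (vfr D i j r a E P σ))
    (atT ((σ.1 : ℝ) / 2 ^ J) (uD U n R (vfr D i j r a E P σ) x)) l l'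

variable {U n J a₀ w₀ z w i j r a R E P}

theorem p01_eq {K₁ M : ℕ} {lam gam : ℕ → ℝ} {κ C₁ : ℝ} {q : D.Ω → ℝ}
    (hO : D.Ok2 n K₁ J a₀ w₀ z M lam gam κ C₁ q) (h1 : w₀ ≤ w) (h2 : w ≤ J) (β : D.Γ × D.Γ)
    (hβ : TriN (P β)) (ω : D.Ω) (l k : ℕ) :
    p0r U n J w₀ w i j R P (β, D.wn J w ω) l k +
      p1r U n w₀ w i j R P (β, D.wn J w ω) l k * rt D J w ω =
      slL U n R (D.g i j) (P β) (D.wn J w₀ ω) l k (D.X ω) := by
  obtain ⟨_, _, ht⟩ := Pool.P4L.tms hO h2 ω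
  unfold p0r p1r slL
  simp only
  rw [lwn_wn D h1 h2]
  have e1 : tl J w (D.wn J w ω) = t0 D J w ω := rfl
  have e2 : nat (D.g i j) (P β) (D.X ω) 0 = 2 ^ D.g i j 0 *
      (t0 D J w ω - eval (fun _ => 0) (P β 0)) + 2 ^ D.g i j 0 / 2 ^ w * rt D J w ω := by
    unfold nat
    rw [ev0 hβ (D.X ω) (fun _ => 0), ht]
    ring
  rw [e1, e2]
  ring

end raw

open Classical in
/-- A function of the value of `f` on the event `E`, with the default `d`. -/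
noncomputable def msk {Ω X Y : Type} (E : Ω → Prop) (f : Ω → X) (d : Y) (F : Ω → Y) (x : X) : Y :=
  if h : ∃ ω, E ω ∧ f ω = x then F h.choose else d

theorem msk_on {Ω X Y : Type} {E : Ω → Prop} {f : Ω → X} {d : Y} {F : Ω → Y}
    (hF : ∀ ω ω', E ω → E ω' → f ω = f ω' → F ω = F ω') {ω : Ω} (hω : E ω) :
    msk E f d F (f ω) = F ω := by
  have h : ∃ ω', E ω' ∧ f ω' = f ω := ⟨ω, hω, rfl⟩
  unfold msk
  rw [dif_pos h]
  exact hF _ _ h.choose_spec.1 hω h.choose_spec.2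

theorem msk_all {Ω X Y : Type} {E : Ω → Prop} {f : Ω → X} {d : Y} {F : Ω → Y} {Q : Y → Prop}
    (hd : Q d) (hF : ∀ ω, E ω → Q (F ω)) (x : X) : Q (msk E f d F x) := by
  unfold msk
  split_ifs with h
  · exact hF _ h.choose_spec.1
  · exact hd

theorem ld_single {c : ℕ} (g : Fin c) : Ld g (Pi.single g 1 : Fin c → ℝ) :=
  ⟨Pi.single_eq_same g 1, fun _ hj => Pi.single_eq_of_ne hj.ne' 1⟩

theorem single_le {c : ℕ} (g u : Fin c) {A : ℝ} (hA : 1 ≤ A) :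
    |(Pi.single g 1 : Fin c → ℝ) u| ≤ A := by
  rcases eq_or_ne u g with h | h
  · rw [h, Pi.single_eq_same, abs_one]
    exact hA
  · rw [Pi.single_eq_of_ne h, abs_zero]
    linarith

/-- The covector has the leading coordinate. -/
theorem ld_MM {n c k : ℕ} {Sl Gr : ℕ → Prop} {ys : Fin k → ℕ} {gs : Fin c → ℕ}
    (hI : Ix n c k Sl Gr ys gs) {g : ℕ → ℕ} {P U : ℕ → PN} (hP : TriN P) (hU : TriN U)
    (v : Fin c) : Ld v (fun u => MM g P U (gs v) (gs u)) := by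
  refine ⟨?_, fun u hu => ?_⟩
  · show MM g P U (gs v) (gs v) = 1
    unfold MM
    rw [if_pos rfl, kap_zero hP hU le_rfl, sub_zero]
  · show MM g P U (gs v) (gs u) = 0
    unfold MM
    have h1 : gs v < gs u := hI.gs_in hu
    rw [if_neg h1.ne, kap_zero hP hU h1.le, sub_zero]

/-- **The data of the labels with gain at a place.** -/
structure GfD {D : NDat2} (U : GnL D) (n J a₀ w₀ z M w i j r a y Q : ℕ) (R : ℕ → Prop)
    (C₂ CU B : ℝ) (E : D.Ω → Prop) (P : D.Γ × D.Γ → ℕ → PN) (S : D.Ω → ℕ → ℕ → ℝ) {c k : ℕ}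
    (ys : Fin k → ℕ) (gs : Fin c → ℕ) (fD : D.Ξ → Fin c → Fin c → ℝ)
    (fL : (D.Γ × D.Γ) × (D.Λ × ℕ) → Fin c → Fin c → ℝ)
    (p0 p1 : (D.Γ × D.Γ) × (D.Λ × ℕ) → Fin c → Fin k → ℝ) : Prop where
  ldD : ∀ x g, Ld g (fD x g) ∧ ∀ u, |fD x g u| ≤ exp (C₂ * z)
  ldL : ∀ x g, Ld g (fL x g) ∧ ∀ u, |fL x g u| ≤ exp (C₂ * z)
  sz : ∀ x g e, |p0 x g e| ≤ exp (C₂ * z) ∧ |p1 x g e| ≤ exp (C₂ * z) ∧
    (gs g < ys e → p0 x g e = 0 ∧ p1 x g e = 0)
  -- visible side and line side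
  cl : ∀ ω, E ω → GoodU D U n J w₀ z M R CU ω → ∀ g, Ct n R (gs g) → ∀ u,
    |∑ v, fD (D.pt ω) g v *
        cM D J a₀ z i j r a E P (bb D i j r ω) (rcd D i j r a ω) (gs v) (gs u) -
      fL (bb D i j r ω, D.wn J w ω) g u| ≤
      exp (C₂ * z) * (1 / 2 ^ (y * z) + 1 / 2 ^ (Q * z))
  -- the own slopes
  af : ∀ ω, E ω → GoodU D U n J w₀ z M R CU ω → ∀ g, Ct n R (gs g) → ∀ e,
    |∑ u, fL (bb D i j r ω, D.wn J w ω) g u * S ω (gs u) (ys e) -
      (p0 (bb D i j r ω, D.wn J w ω) g e + p1 (bb D i j r ω, D.wn J w ω) g e * rt D J w ω)| ≤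
      exp (C₂ * z) / 2 ^ (y * z)
  -- points near to the thin sheet
  bx : ∀ ω, E ω → GoodU D U n J w₀ z M R CU ω → ∀ g, Ct n R (gs g) → ∀ b : ℕ → ℝ,
    |b 0 - D.X ω 0| ≤ exp (B * z) / 2 ^ (a₀ + i * z) →
    (∀ l, 1 ≤ l → l < gs g → |nat (D.g i j) (P (bb D i j r ω)) b l| ≤ exp (B * z)) → ∀ σ : ℝ,
    |b (gs g) - eval b (U.UD (gs g) (D.pt ω))| ≤ σ / 2 ^ D.g i j (gs g) →
    |∑ u, fL (bb D i j r ω, D.wn J w ω) g u *
        (nat (D.g i j) (P (bb D i j r ω)) b (gs u) - ze D i j r P ω (gs u)) -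
      ∑ e, (p0 (bb D i j r ω, D.wn J w ω) g e +
          p1 (bb D i j r ω, D.wn J w ω) g e * rt D J w ω) *
        (nat (D.g i j) (P (bb D i j r ω)) b (ys e) - ze D i j r P ω (ys e))| ≤
      σ + exp (C₂ * z) * (1 / 2 ^ (y * z) + 1 / 2 ^ (Q * z))

open Classical in
/-- **(GF)** The labels with gain as known covectors. -/
theorem gf (n K : ℕ) (C C₁ CU B : ℝ) (hC : 0 ≤ C) (hC₁ : 0 ≤ C₁) (hCU : 0 ≤ CU) (hB : 0 ≤ B) :
    ∃ C₂ : ℝ, 0 ≤ C₂ ∧
    ∀ (D : NDat2) (U : GnL D) (R : ℕ → Prop) (K₁ K' J a₀ w₀ z M w i j r r' r'' a y Q c k : ℕ)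
      (lam gam : ℕ → ℝ) (κ : ℝ) (q : D.Ω → ℝ) (E : D.Ω → Prop) (P : D.Γ × D.Γ → ℕ → PN)
      (S : D.Ω → ℕ → ℕ → ℝ) (ys : Fin k → ℕ) (gs : Fin c → ℕ),
      Fx D n K K₁ K' J a₀ w₀ z M i j r r' a y lam gam κ C₁ C q E P (sl gam n) (gr gam n) →
      Plc n gam y r r' r'' a M i j →
      Geo D n K' J w₀ z i j r r' r'' gam C (exp (C * z) / 2 ^ (y * z)) q E P S →
      U.Ok n K₁ J a₀ w₀ z M Q R C₁ q → Ix n c k (sl gam n) (gr gam n) ys gs →
      w₀ + j * z ≤ w → w ≤ w₀ + (j + 1) * z → exp (C₂ * z) ≤ 2 ^ (a * z) →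
      ∃ (fD : D.Ξ → Fin c → Fin c → ℝ) (fL : (D.Γ × D.Γ) × (D.Λ × ℕ) → Fin c → Fin c → ℝ)
        (p0 p1 : (D.Γ × D.Γ) × (D.Λ × ℕ) → Fin c → Fin k → ℝ),
        GfD U n J a₀ w₀ z M w i j r a y Q R C₂ CU B E P S ys gs fD fL p0 p1 := by
  obtain ⟨c₁, c₀, h1, hu⟩ := p3_u n K C CU C₁ hC hCU hC₁
  obtain ⟨c₂, h2, hbx⟩ := gf_bx n K C CU C₁ B hC hCU hC₁ hB
  obtain ⟨c₃, h3, haf⟩ := gf_af n K C CU C₁ hC hCU hC₁
  obtain ⟨c₄, h4, hrep⟩ := rep_rly n K C C₁ 0 hC hC₁ le_rfl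
  obtain ⟨c₅, h5, hrad⟩ := rad_sp n K C hC
  obtain ⟨c₆, hc₆⟩ : ∃ c₆ : ℝ, c₆ = C + c₄ + c₅ := ⟨_, rfl⟩
  have h6 : 0 ≤ c₆ := by rw [hc₆]; linarith
  obtain ⟨c₇, h7, hcl⟩ := gf_cl n K c₆ CU C₁ 0 h6 hCU hC₁ le_rfl
  obtain ⟨c₈, h8, hMM⟩ := MM_le n K c₁ h1
  obtain ⟨c₉, h9, hkap⟩ := kap_le0 n K c₁ h1
  obtain ⟨c₁₀, h10, hka1⟩ := ka1_le n K c₁ h1
  obtain ⟨C₂, hC₂⟩ : ∃ C₂ : ℝ, C₂ = c₂ + (c₃ + 2 * C + 1) + c₄ + c₇ + c₈ +
    (c₉ + (c₁₀ + (C + 3)) + 1) := ⟨_, rfl⟩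
  refine ⟨C₂, by rw [hC₂]; linarith, ?_⟩
  intro D U R K₁ K' J a₀ w₀ z M w i j r r' r'' a y Q c k lam gam κ q E P S ys gs hF hPl hG hU hI
    hw1 hw2 haz
  have hzr : (1 : ℝ) ≤ z := by exact_mod_cast hF.z1
  have hO := hF.ok
  have hjM := hF.jM
  have hiM := hF.iM
  have hj1 := hPl.j1
  have hai := hF.ai
  have hrj := hF.rj
  have he : ∀ t : ℝ, t ≤ C₂ → exp (t * z) ≤ exp (C₂ * z) := fun t ht => ex_mono ht hzr
  have hwJ : w ≤ J := by
    have a1 := hO.thin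
    have a2 := hO.top
    have a3 : (j + 1) * z ≤ (M + 1) * z := Nat.mul_le_mul_right z (by omega)
    omega
  have hw0 : w₀ ≤ w := by
    have : 0 ≤ j * z := Nat.zero_le _
    omega
  have hΦ : ∀ i j ω, Tg K n (D.Φ i j ω) := fun i j ω =>
    ⟨hO.P_tri i j _, fun l _ => (hO.P_deg i j _ l).trans hF.k1⟩
  -- the places
  have hP3 : ∀ ω, E ω → ∃ i₂, P3 D n K z M i i₂ j r r' a y gam C (P (bb D i j r ω)) ω := by
    intro ω hω
    have hP := (hF.fr ω hω).2.2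
    have f1 := frp_sp hO hF.k1 hP hF.k2 (le_refl i)
    have f2 := frp_sp hO hF.k1 hP hF.k2 (Nat.sub_le i a)
    exact ⟨_, {
      tg := frp_tg hP hF.k2
      e0 := f1.1
      e1 := f1.2
      e2 := f2.1
      bz := fun l l1 ln => hF.bz ω hω l l1 ln
      iM := hiM.le
      jr := hjM
      ai := hai
      rj := hrj
      i2 := by omega
      ya := hF.ya
      s2 := hPl.stp.s2
      s2' := hPl.stp.s2'
      s3 := hPl.stp.s3 }⟩
  have hFrs : ∀ ω, E ω → ∃ V, Frs D n K z i j r r' C (P (bb D i j r ω)) V ω := by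
    intro ω hω
    obtain ⟨V, hV1, hV2, hV3, hV4⟩ := (hF.fr ω hω).2.1.fc
    have tV : Tg K n V := ⟨hV1, fun l _ => (hV2 l).trans hF.k2⟩
    have hP := (hF.fr ω hω).2.2
    exact ⟨V, frp_tg hP hF.k2, tV, (frp_sp hO hF.k1 hP hF.k2 le_rfl).1,
      sp_of_near tV (hΦ _ _ _) fun l hl => hV4 i hF.iM j (by omega) l hl,
      sp_of_near tV (hΦ _ _ _) fun l hl => hV4 (i - r') (by omega) (j + r) hF.jM l hl⟩
  obtain ⟨E', hE'⟩ : ∃ E' : D.Ω → Prop, E' = fun ω => E ω ∧ GoodU D U n J w₀ z M R CU ω :=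
    ⟨_, rfl⟩
  obtain ⟨L', hL'⟩ : ∃ L' : D.Ω → (D.Γ × D.Γ) × (D.Λ × ℕ), L' = fun ω =>
    (bb D i j r ω, D.wn J w ω) := ⟨_, rfl⟩
  have hEE : ∀ ω, E ω → GoodU D U n J w₀ z M R CU ω → E' ω := fun ω h1 h2 => by
    rw [hE']
    exact ⟨h1, h2⟩
  have hLL : ∀ ω, (bb D i j r ω, D.wn J w ω) = L' ω := fun ω => by rw [hL']
  -- the functions
  obtain ⟨fL, hfL⟩ : ∃ fL : (D.Γ × D.Γ) × (D.Λ × ℕ) → Fin c → Fin c → ℝ, fL = fun x g =>
    msk E' L' (Pi.single g 1) (fun ω u => fLr U n w₀ w i j R P (L' ω) (gs g) (gs u)) x :=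
    ⟨_, rfl⟩
  obtain ⟨p0, hp0⟩ : ∃ p0 : (D.Γ × D.Γ) × (D.Λ × ℕ) → Fin c → Fin k → ℝ, p0 = fun x g =>
    msk E' L' 0 (fun ω e => p0r U n J w₀ w i j R P (L' ω) (gs g) (ys e)) x := ⟨_, rfl⟩
  obtain ⟨p1, hp1⟩ : ∃ p1 : (D.Γ × D.Γ) × (D.Λ × ℕ) → Fin c → Fin k → ℝ, p1 = fun x g =>
    msk E' L' 0 (fun ω e => p1r U n w₀ w i j R P (L' ω) (gs g) (ys e)) x := ⟨_, rfl⟩
  obtain ⟨fD, hfD⟩ : ∃ fD : D.Ξ → Fin c → Fin c → ℝ, fD = fun x g =>
    if Ct n R (gs g) then msk E' D.pt (Pi.single g 1) (fun ω u =>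
      fDr U n J a₀ z i j r a R E P (rcd D i j r a ω) (D.pt ω) (gs g) (gs u)) x
    else Pi.single g 1 := ⟨_, rfl⟩
  have eL : ∀ ω, E' ω → ∀ g u, fL (L' ω) g u =
      cvL U n R (D.g i j) (P (bb D i j r ω)) (D.wn J w₀ ω) (gs g) (gs u) := by
    intro ω hω g u
    rw [hfL]
    simp only
    rw [msk_on (fun ω₁ ω₂ _ _ h => by rw [h]) hω]
    unfold fLr
    rw [← hLL]
    simp only
    rw [lwn_wn D hw0 hwJ]
  have e0 : ∀ ω, E' ω → ∀ g e, p0 (L' ω) g e =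
      p0r U n J w₀ w i j R P (bb D i j r ω, D.wn J w ω) (gs g) (ys e) := by
    intro ω hω g e
    rw [hp0]
    simp only
    rw [msk_on (fun ω₁ ω₂ _ _ h => by rw [h]) hω, hLL]
  have e1 : ∀ ω, E' ω → ∀ g e, p1 (L' ω) g e =
      p1r U n w₀ w i j R P (bb D i j r ω, D.wn J w ω) (gs g) (ys e) := by
    intro ω hω g e
    rw [hp1]
    simp only
    rw [msk_on (fun ω₁ ω₂ _ _ h => by rw [h]) hω, hLL]
  have e01 : ∀ ω, E' ω → ∀ g e, p0 (L' ω) g e + p1 (L' ω) g e * rt D J w ω =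
      slL U n R (D.g i j) (P (bb D i j r ω)) (D.wn J w₀ ω) (gs g) (ys e) (D.X ω) := by
    intro ω hω g e
    rw [e0 ω hω, e1 ω hω]
    refine p01_eq hO hw0 hwJ _ ?_ ω _ _
    rw [hE'] at hω
    exact (hF.fr ω hω.1).2.2.tri
  -- the places and the labels with gain
  have hUL : ∀ ω, E' ω → Tg K n (P (bb D i j r ω)) ∧
      Tg K n (uL U n R (P (bb D i j r ω)) (D.wn J w₀ ω)) ∧
      Sp (D.g i j) (P (bb D i j r ω)) (uL U n R (P (bb D i j r ω)) (D.wn J w₀ ω)) n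
        (exp (c₁ * z)) := by
    intro ω hω
    rw [hE'] at hω
    obtain ⟨i₂, hP⟩ := hP3 ω hω.1
    obtain ⟨_, g2, g3, _⟩ := hu D U R K₁ J a₀ w₀ z M Q lam gam κ q hO hU hF.k1 hF.z1 hF.lam1 i i₂
      j r r' a y _ ω hP hω.2
    exact ⟨hP.tg, g2, g3⟩
  -- the visible frame
  have hvf : ∀ ω, E ω → Tg K n (vfr D i j r a E P (rcd D i j r a ω)) ∧
      Sp (gw (a₀ + i * z) (D.g i j)) (atT (D.X ω 0) (vfr D i j r a E P (rcd D i j r a ω)))
        (atT (D.X ω 0) (D.Ψ i j ω)) n (exp (c₅ * z)) ∧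
      Sp (gw (a₀ + (i - a) * z) (D.g (i - a) j))
        (atT (D.X ω 0) (vfr D i j r a E P (rcd D i j r a ω)))
        (atT (D.X ω 0) (D.Ψ (i - a) j ω)) n (exp (c₅ * z)) := by
    intro ω hω
    obtain ⟨ω', hω', hr, hv⟩ := vfr_ex i j r a P hω
    rw [hv]
    have hP := (hF.fr ω' hω').2.2
    have tP := frp_tg hP hF.k2
    simp only [rcd, Prod.mk.injEq] at hr
    obtain ⟨hT, hs1, hs2, _⟩ := hr
    have hx0 : D.X ω' 0 = D.X ω 0 := X0_eq hO hT
    have f1 := frp_sp hO hF.k1 hP hF.k2 (le_refl i)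
    have f2 := frp_sp hO hF.k1 hP hF.k2 (Nat.sub_le i a)
    have g1 := hrad D K₁ J a₀ w₀ z M lam gam κ C₁ q hO hF.k1 hF.z1 i hiM.le j (by omega) ω'
      (hF.fr ω' hω').1 _ tP f1.1
    have g2 := hrad D K₁ J a₀ w₀ z M lam gam κ C₁ q hO hF.k1 hF.z1 (i - a) (by omega) j (by omega)
      ω' (hF.fr ω' hω').1 _ tP f2.1
    have k1 : D.Ψ i j ω' = D.Ψ i j ω := by
      unfold NDat2.Ψ
      rw [hs1]
    have k2 : D.Ψ (i - a) j ω' = D.Ψ (i - a) j ω := by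
      unfold NDat2.Ψ
      rw [hs2]
    rw [k1, hx0] at g1
    rw [k2, hx0] at g2
    exact ⟨tP, g1, g2⟩
  have hXX : ∀ ω, ((rcd D i j r a ω).1 : ℝ) / 2 ^ J = D.X ω 0 := fun ω => (hO.X_zero ω).symm
  obtain ⟨-, hW⟩ := hrep D K₁ K' J a₀ w₀ z M i j r r' a y lam gam κ q E P _ _ hF
    ((he c₄ (by rw [hC₂]; linarith)).trans haz)
  have hCL : ∀ ω, E' ω → ∀ g, Ct n R (gs g) →
      (∀ v, |fDr U n J a₀ z i j r a R E P (rcd D i j r a ω) (D.pt ω) (gs g) (gs v)| ≤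
        exp (c₇ * z)) ∧ ∀ u,
      |∑ v, fDr U n J a₀ z i j r a R E P (rcd D i j r a ω) (D.pt ω) (gs g) (gs v) *
        cM D J a₀ z i j r a E P (bb D i j r ω) (rcd D i j r a ω) (gs v) (gs u) -
        cvL U n R (D.g i j) (P (bb D i j r ω)) (D.wn J w₀ ω) (gs g) (gs u)| ≤
      exp (c₇ * z) * (1 / 2 ^ (y * z) + 1 / 2 ^ (Q * z)) := by
    intro ω hω g hg
    rw [hE'] at hω
    obtain ⟨i₂, hP⟩ := hP3 ω hω.1
    obtain ⟨tV, v0, v2⟩ := hvf ω hω.1
    obtain ⟨_, hR⟩ := hW ω hω.1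
    have hPc : P3 D n K z M i i₂ j r r' a y gam c₆ (P (bb D i j r ω)) ω := by
      have m : ∀ {S : ℝ}, S = exp (C * z) → S ≤ exp (c₆ * z) := fun h => by
        rw [h]
        exact ex_mono (by rw [hc₆]; linarith) hzr
      exact { hP with
        e0 := hP.e0.mono le_rfl (m rfl)
        e1 := hP.e1.mono le_rfl (m rfl)
        e2 := hP.e2.mono le_rfl (m rfl)
        bz := fun l l1 ln => (hP.bz l l1 ln).trans (m rfl) }
    have m4 : exp (c₄ * z) ≤ exp (c₆ * z) := ex_mono (by rw [hc₆]; linarith) hzr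
    have m5 : exp (c₅ * z) ≤ exp (c₆ * z) := ex_mono (by rw [hc₆]; linarith) hzr
    have hR' : Rly n y z r gam (gw (a₀ + i * z) (D.g i j))
        (atT (D.X ω 0) (P (bb D i j r ω)))
        (atT (D.X ω 0) (vfr D i j r a E P (rcd D i j r a ω))) (exp (0 * z)) (exp (c₆ * z))
        (exp (c₆ * z) / 2 ^ (a * z)) :=
      { aff := fun l hl x hx => (hR.aff l hl x hx).trans
          (div_le_div_of_nonneg_right m4 (by positivity))
        bd := fun l hl k => (hR.bd l hl k).trans m4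
        sm := fun l l1 ln k k1 kn h => (hR.sm l l1 ln k k1 kn h).trans
          (div_le_div_of_nonneg_right m4 (by positivity))
        box := fun l hl x hx => (hR.box l hl x hx).mono le_rfl m4 }
    have key := hcl D U R K₁ J a₀ w₀ z M Q lam gam κ q hO hU hF.k1 hF.z1 hF.lam1 i i₂ j r r' a y c
      k ys gs hI hF.num ((he c₇ (by rw [hC₂]; linarith)).trans haz) _ _ ω (hF.fr ω hω.1).1 hPc
      hω.2 tV (v0.mono le_rfl m5) (v2.mono le_rfl m5) hR' g hg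
    unfold fDr cM
    rw [hXX]
    exact key
  refine ⟨fD, fL, p0, p1, ?_, ?_, ?_, ?_, ?_, ?_⟩
  · -- the visible side
    intro x g
    rw [hfD]
    simp only
    have hone : (1 : ℝ) ≤ exp (C₂ * z) := ex_one (by rw [hC₂]; linarith) hzr
    split_ifs with hg
    · refine msk_all (Q := fun f => Ld g f ∧ ∀ u, |f u| ≤ exp (C₂ * z))
        ⟨ld_single g, fun u => single_le g u hone⟩ (fun ω hω => ?_) x
      have hω' := hω
      rw [hE'] at hω'
      obtain ⟨tV, _, _⟩ := hvf ω hω'.1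
      refine ⟨?_, fun u => ((hCL ω hω g hg).1 u).trans (he _ (by rw [hC₂]; linarith))⟩
      unfold fDr
      exact ld_MM hI (tg_atT tV _).tri (tg_atT (tg_uD hU hF.k1 tV _) _).tri g
    · exact ⟨ld_single g, fun u => single_le g u hone⟩
  · -- the line side
    intro x g
    rw [hfL]
    have hone : (1 : ℝ) ≤ exp (C₂ * z) := ex_one (by rw [hC₂]; linarith) hzr
    refine msk_all (Q := fun f => Ld g f ∧ ∀ u, |f u| ≤ exp (C₂ * z))
      ⟨ld_single g, fun u => single_le g u hone⟩ (fun ω hω => ?_) x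
    obtain ⟨t1, t2, t3⟩ := hUL ω hω
    have eF : ∀ u, fLr U n w₀ w i j R P (L' ω) (gs g) (gs u) =
        MM (D.g i j) (P (bb D i j r ω)) (uL U n R (P (bb D i j r ω)) (D.wn J w₀ ω)) (gs g)
          (gs u) := by
      intro u
      unfold fLr cvL
      rw [← hLL]
      simp only
      rw [lwn_wn D hw0 hwJ]
    refine ⟨?_, fun u => ?_⟩
    · simp only [eF]
      exact ld_MM hI t1.tri t2.tri g
    · rw [eF]
      have m2 := hMM z (D.g i j) _ _ hzr t1 t2 t3 (gs g) (hI.di.g1 _ (hI.gs_gr g)).2 (gs u)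
      exact m2.trans (he c₈ (by rw [hC₂]; linarith))
  · -- the slopes
    have key : ∀ ω, E' ω → ∀ g e,
        |p0r U n J w₀ w i j R P (L' ω) (gs g) (ys e)| ≤ exp (C₂ * z) ∧
        |p1r U n w₀ w i j R P (L' ω) (gs g) (ys e)| ≤ exp (C₂ * z) ∧
        (gs g < ys e → p0r U n J w₀ w i j R P (L' ω) (gs g) (ys e) = 0 ∧
          p1r U n w₀ w i j R P (L' ω) (gs g) (ys e) = 0) := by
      intro ω hω g e
      obtain ⟨t1, t2, t3⟩ := hUL ω hω
      have hω' := hω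
      rw [hE'] at hω'
      have hg1 := hI.di.g1 _ (hI.gs_gr g)
      have k1 := hkap z _ _ _ hzr t1 t2 t3 (gs g) hg1.2 (ys e)
      have k2 := hka1 z _ _ _ hzr t1 t2 t3 (gs g) hg1.2 (ys e)
      rw [← hLL]
      unfold p0r p1r
      simp only
      rw [lwn_wn D hw0 hwJ]
      have ez : tl J w (D.wn J w ω) = t0 D J w ω := rfl
      rw [ez]
      obtain ⟨r0, r1, rX⟩ := Pool.P4L.tms hO hwJ ω
      have hg0 : D.g i j 0 ≤ w := by
        rw [hO.g_zero]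
        exact hw1
      have hgw : (2 : ℝ) ^ D.g i j 0 / 2 ^ w ≤ 1 := by
        rw [div_le_one (by positivity)]
        exact pow_le_pow_right₀ one_le_two hg0
      have hP0 := (hP3 ω hω'.1)
      obtain ⟨i₂, hP⟩ := hP0
      have tb : |nat (D.g i j) (P (bb D i j r ω)) (D.X ω) 0| ≤ exp ((C + 2) * z) := by
        have := t0_box hO hF.z1 hiM.le (by omega : j ≤ M) (hF.fr ω hω'.1).1 hP.tg (b := 0) hP.e0
          (x := D.X ω) (by
            rw [sub_self, abs_zero]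
            positivity)
        rwa [abs_of_nonneg hC, abs_zero, add_zero] at this
      have tt : |2 ^ D.g i j 0 * (t0 D J w ω - eval (fun _ => 0) (P (bb D i j r ω) 0))| ≤
          exp ((C + 3) * z) := by
        have f1 : 2 ^ D.g i j 0 * (t0 D J w ω - eval (fun _ => 0) (P (bb D i j r ω) 0)) =
            nat (D.g i j) (P (bb D i j r ω)) (D.X ω) 0 -
              rt D J w ω * (2 ^ D.g i j 0 / 2 ^ w) := by
          unfold nat
          rw [ev0 hP.tg.tri (D.X ω) (fun _ => 0), rX]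
          ring
        rw [f1]
        have f2 : |rt D J w ω * (2 ^ D.g i j 0 / 2 ^ w)| ≤ 1 := by
          rw [abs_mul, abs_of_nonneg r0, abs_of_pos (by positivity)]
          exact mul_le_one₀ r1 (by positivity) hgw
        refine (abs_sub _ _).trans ((add_le_add tb f2).trans ?_)
        have f3 : (1 : ℝ) ≤ exp ((C + 2) * z) := ex_one (by linarith) hzr
        have f4 : (2 : ℝ) ≤ exp (1 * z) := by
          have := Real.add_one_le_exp (1 * (z : ℝ))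
          linarith
        calc exp ((C + 2) * z) + 1 ≤ exp ((C + 2) * z) * exp (1 * z) := by nlinarith
          _ = _ := by rw [← exp_add]; ring_nf
      refine ⟨?_, ?_, fun hlt => ?_⟩
      · refine (abs_add_le _ _).trans ?_
        rw [abs_mul]
        have f5 := mul_le_mul k2 tt (abs_nonneg _) (exp_pos _).le
        rw [← exp_add, show c₁₀ * (z : ℝ) + (C + 3) * z = (c₁₀ + (C + 3)) * z by ring] at f5
        refine (add_le_add k1 f5).trans ((ex_add hzr).trans (he _ ?_))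
        rw [abs_of_nonneg h9, abs_of_nonneg (by linarith), hC₂]
        linarith
      · rw [abs_mul, abs_of_pos (by positivity : (0 : ℝ) < 2 ^ D.g i j 0 / 2 ^ w)]
        exact (mul_le_of_le_one_right (abs_nonneg _) hgw).trans
          (k2.trans (he _ (by rw [hC₂]; linarith)))
      · rw [kap_zero t1.tri t2.tri hlt.le, ka1_zero t1.tri t2.tri hlt.le, zero_mul, zero_mul,
          add_zero]
        exact ⟨rfl, rfl⟩
    intro x g e
    by_cases hx : ∃ ω, E' ω ∧ L' ω = x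
    · obtain ⟨ω, hω, rfl⟩ := hx
      rw [e0 ω hω, e1 ω hω, hLL]
      exact key ω hω g e
    · have z0 : p0 x g e = 0 := by
        rw [hp0]
        simp only
        unfold msk
        rw [dif_neg hx]
        rfl
      have z1 : p1 x g e = 0 := by
        rw [hp1]
        simp only
        unfold msk
        rw [dif_neg hx]
        rfl
      rw [z0, z1, abs_zero]
      exact ⟨(exp_pos _).le, (exp_pos _).le, fun _ => ⟨rfl, rfl⟩⟩
  · -- visible side and line side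
    intro ω hω hgu g hg u
    have hω' := hEE ω hω hgu
    rw [hLL, eL ω hω']
    have eD : ∀ v, fD (D.pt ω) g v =
        fDr U n J a₀ z i j r a R E P (rcd D i j r a ω) (D.pt ω) (gs g) (gs v) := by
      intro v
      rw [hfD]
      simp only
      rw [if_pos hg, msk_on (fun ω₁ ω₂ h₁ h₂ h => by
        rw [hE'] at h₁ h₂
        have := rcd_pt hO hiM.le (by omega : j ≤ M) r a ω₁ ω₂ (hF.fr _ h₁.1).1 (hF.fr _ h₂.1).1 h
        rw [this, h]) hω']
    simp only [eD]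
    refine ((hCL ω hω' g hg).2 u).trans (mul_le_mul_of_nonneg_right (he _ ?_) (by positivity))
    rw [hC₂]
    linarith
  · -- the own slopes
    intro ω hω hgu g hg e
    have hω' := hEE ω hω hgu
    rw [hLL, e01 ω hω']
    simp only [eL ω hω']
    obtain ⟨i₂, hP⟩ := hP3 ω hω
    obtain ⟨V, hV⟩ := hFrs ω hω
    have key := haf D U R K₁ J a₀ w₀ z M Q lam gam κ q hO hU hF.k1 hF.z1 hF.lam1 i i₂ j r r' a y c
      k ys gs hI hF.num _ V ω (hF.fr ω hω).1 hP hV hgu (nn D n i j r gam P S ω) (S ω)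
      (exp (C * 1 * z) * (exp (C * z) / 2 ^ (y * z))) (by positivity) (fun b hb0 hbk hbu u hu =>
        hG.sheet ω (hF.fr ω hω).1 hω 1 le_rfl b hb0 hbk hbu u hu) g hg e
    refine key.trans ?_
    have f1 : exp (c₃ * z) * (exp (C * 1 * z) * (exp (C * z) / 2 ^ (y * z)) + 1 / 2 ^ (y * z)) =
        (exp (c₃ * z) * (exp (C * 1 * z) * exp (C * z) + 1)) / 2 ^ (y * z) := by ring
    rw [f1]
    refine div_le_div_of_nonneg_right ?_ (by positivity)
    have f2 : exp (C * 1 * z) * exp (C * z) = exp (2 * C * z) := by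
      rw [← exp_add]
      ring_nf
    have f3 : (1 : ℝ) ≤ exp (2 * C * z) := ex_one (by linarith) hzr
    have f4 : (2 : ℝ) ≤ exp (1 * z) := by
      have := Real.add_one_le_exp (1 * (z : ℝ))
      linarith
    rw [f2]
    calc exp (c₃ * z) * (exp (2 * C * z) + 1) ≤ exp (c₃ * z) * (exp (2 * C * z) * exp (1 * z)) :=
          mul_le_mul_of_nonneg_left (by nlinarith) (exp_pos _).le
      _ = exp ((c₃ + 2 * C + 1) * z) := by
          rw [← exp_add, ← exp_add]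
          ring_nf
      _ ≤ _ := he _ (by rw [hC₂]; linarith)
  · -- points near to the thin sheet
    intro ω hω hgu g hg b hb0 hbk σ hσ
    have hω' := hEE ω hω hgu
    rw [hLL]
    simp only [e01 ω hω', eL ω hω']
    obtain ⟨i₂, hP⟩ := hP3 ω hω
    refine (hbx D U R K₁ J a₀ w₀ z M Q lam gam κ q hO hU hF.k1 hF.z1 hF.lam1 i i₂ j r r' a y c k
      ys gs hI.k_le hI _ ω (hF.fr ω hω).1 hP hgu g hg b hb0 hbk σ hσ).trans ?_
    refine add_le_add le_rfl (mul_le_mul_of_nonneg_right (he _ ?_) (by positivity))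
    rw [hC₂]
    linarith

end Pool.P4
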