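import Pool.Agent.H25.P4.LinA

/-!
# P4, lines over a closed frame: differences of the values of a polynomial
-/

set_option autoImplicit false

namespace Pool.P4L

open Finset Real MvPolynomial
open Pool.STAT Pool.MIC.Frm Pool.FRM
open Pool.SYS35 (nrm_nonneg')

/-- A monomial. -/
noncomputable def mon (α : ℕ →₀ ℕ) (b : ℕ → ℝ) : ℝ := ∏ i ∈ α.support, b i ^ α i

theorem eval_mon {n N : ℕ} {F : PN} (hv : F.vars ⊆ range n) (hN : F.totalDegree ≤ N)
    (b : ℕ → ℝ) : eval b F = ∑ α ∈ exs n N, coeff α F * mon α b := by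
  rw [eval_eq]
  refine Finset.sum_subset (supp_exs hv hN) fun α _ h => ?_
  rw [notMem_support_iff.1 h, zero_mul]

theorem exs_lt {n N : ℕ} {α : ℕ →₀ ℕ} (h : α ∈ exs n N) {i : ℕ} (hi : i ∈ α.support) : i < n := by
  unfold exs at h
  rw [Finset.mem_finsupp_iff] at h
  exact mem_range.1 (h.1 hi)

theorem exs_deg {n N : ℕ} {α : ℕ →₀ ℕ} (h : α ∈ exs n N) :
    ∑ i ∈ α.support, α i ≤ n * N := by
  unfold exs at h
  rw [Finset.mem_finsupp_iff] at h
  calc ∑ i ∈ α.support, α i ≤ ∑ _i ∈ α.support, N := Finset.sum_le_sum fun i hi =>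
        Nat.lt_succ_iff.1 (mem_range.1 (h.2 i (h.1 hi)))
    _ = α.support.card * N := by rw [Finset.sum_const, smul_eq_mul]
    _ ≤ n * N := by
        refine Nat.mul_le_mul_right N ?_
        have := Finset.card_le_card h.1
        rwa [card_range] at this

/-- Scaling. -/
theorem mon_scl (d : ℕ → ℕ) {B : ℝ} (hB : 0 < B) (α : ℕ →₀ ℕ) (b : ℕ → ℝ) :
    mon α b = B ^ (∑ i ∈ α.support, α i) * (1 / 2) ^ Finsupp.weight d α *
      ∏ i ∈ α.support, (b i * 2 ^ d i / B) ^ α i := by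
  have h2 : (∏ i ∈ α.support, (B ^ α i * (1 / 2 : ℝ) ^ (α i * d i))) =
      B ^ (∑ i ∈ α.support, α i) * (1 / 2) ^ Finsupp.weight d α := by
    rw [Finset.prod_mul_distrib, Finset.prod_pow_eq_pow_sum, Finset.prod_pow_eq_pow_sum]
    congr 2
  unfold mon
  rw [← h2, ← Finset.prod_mul_distrib]
  refine Finset.prod_congr rfl fun i _ => ?_
  rw [mul_comm (α i) (d i), pow_mul, ← mul_pow, ← mul_pow, half_pow]
  congr 1
  field_simp

section

variable {n N : ℕ} {d : ℕ → ℕ} {B δ : ℝ} {α : ℕ →₀ ℕ} {b : ℕ → ℝ}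

theorem scl_le (hB : 0 < B) {i : ℕ} {ε : ℝ} (h : |b i| ≤ B * ε / 2 ^ d i) :
    |b i * 2 ^ d i / B| ≤ ε := by
  rw [le_div_iff₀ (by positivity)] at h
  rw [abs_div, abs_mul, abs_of_pos hB, abs_of_pos (by positivity : (0 : ℝ) < 2 ^ d i),
    div_le_iff₀ hB]
  linarith

theorem mon_le (hB : 1 ≤ B) (hα : α ∈ exs n N) (hb : ∀ i < n, |b i| ≤ B / 2 ^ d i) :
    |mon α b| ≤ B ^ (n * N) * (1 / 2) ^ Finsupp.weight d α := by
  have hB0 : 0 < B := by linarith
  rw [mon_scl d hB0 α b, abs_mul, abs_of_nonneg (by positivity :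
    0 ≤ B ^ (∑ i ∈ α.support, α i) * (1 / 2 : ℝ) ^ Finsupp.weight d α)]
  have h1 : |∏ i ∈ α.support, (b i * 2 ^ d i / B) ^ α i| ≤ 1 := by
    rw [Finset.abs_prod]
    refine Finset.prod_le_one (fun _ _ => abs_nonneg _) fun i hi => ?_
    rw [abs_pow]
    refine pow_le_one₀ (abs_nonneg _) (scl_le hB0 ?_)
    rw [mul_one]
    exact hb i (exs_lt hα hi)
  calc _ ≤ B ^ (∑ i ∈ α.support, α i) * (1 / 2) ^ Finsupp.weight d α * 1 :=
        mul_le_mul_of_nonneg_left h1 (by positivity)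
    _ ≤ _ := by
        rw [mul_one]
        exact mul_le_mul_of_nonneg_right (pow_le_pow_right₀ hB (exs_deg hα)) (by positivity)

/-- A monomial with a small factor. -/
theorem mon_small (hB : 1 ≤ B) (hδ : 0 ≤ δ) (hα : α ∈ exs n N)
    (hb : ∀ i < n, |b i| ≤ B / 2 ^ d i) {k : ℕ} (hk : α k ≠ 0) (hbk : |b k| ≤ B * δ / 2 ^ d k) :
    |mon α b| ≤ B ^ (n * N) * (1 / 2) ^ Finsupp.weight d α * δ := by
  have hB0 : 0 < B := by linarith
  have hks : k ∈ α.support := Finsupp.mem_support_iff.2 hk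
  rw [mon_scl d hB0 α b, abs_mul, abs_of_nonneg (by positivity :
    0 ≤ B ^ (∑ i ∈ α.support, α i) * (1 / 2 : ℝ) ^ Finsupp.weight d α)]
  have ha : ∀ i ∈ α.support, |b i * 2 ^ d i / B| ≤ 1 := fun i hi => scl_le hB0 (by
    rw [mul_one]
    exact hb i (exs_lt hα hi))
  have h1 : |∏ i ∈ α.support, (b i * 2 ^ d i / B) ^ α i| ≤ δ := by
    rw [Finset.abs_prod, ← Finset.mul_prod_erase _ _ hks]
    have h2 : ∏ i ∈ α.support.erase k, |(b i * 2 ^ d i / B) ^ α i| ≤ 1 := by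
      refine Finset.prod_le_one (fun _ _ => abs_nonneg _) fun i hi => ?_
      rw [abs_pow]
      exact pow_le_one₀ (abs_nonneg _) (ha i (Finset.mem_of_mem_erase hi))
    have h3 : |(b k * 2 ^ d k / B) ^ α k| ≤ δ := by
      rw [abs_pow]
      calc |b k * 2 ^ d k / B| ^ α k ≤ |b k * 2 ^ d k / B| ^ 1 :=
            pow_le_pow_of_le_one (abs_nonneg _) (ha k hks) (Nat.one_le_iff_ne_zero.2 hk)
        _ = |b k * 2 ^ d k / B| := pow_one _
        _ ≤ δ := scl_le hB0 hbk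
    calc _ ≤ δ * 1 := mul_le_mul h3 h2 (Finset.prod_nonneg fun _ _ => abs_nonneg _) hδ
      _ = δ := mul_one δ
  calc _ ≤ B ^ (∑ i ∈ α.support, α i) * (1 / 2) ^ Finsupp.weight d α * δ :=
        mul_le_mul_of_nonneg_left h1 (by positivity)
    _ ≤ _ := by
        refine mul_le_mul_of_nonneg_right (mul_le_mul_of_nonneg_right
          (pow_le_pow_right₀ hB (exs_deg hα)) (by positivity)) hδ

theorem mon_time (h : ∀ k, 1 ≤ k → α k = 0) {b b' : ℕ → ℝ} (h0 : b 0 = b' 0) :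
    mon α b = mon α b' := by
  unfold mon
  refine Finset.prod_congr rfl fun i hi => ?_
  rcases Nat.eq_zero_or_pos i with h1 | h1
  · rw [h1, h0]
  · exact absurd (h i h1) (Finsupp.mem_support_iff.1 hi)

theorem mon_single (k : ℕ) (b : ℕ → ℝ) : mon (Finsupp.single k 1) b = b k := by
  unfold mon
  rw [Finsupp.support_single_ne_zero k one_ne_zero, Finset.prod_singleton, Finsupp.single_eq_same,
    pow_one]

end

/-- **Levels of the coefficients**: a coefficient is small. -/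
def Sm (g : ℕ → ℕ) (l : ℕ) (F : PN) (S δ : ℝ) (α : ℕ →₀ ℕ) : Prop :=
  |coeff α F| * (1 / 2) ^ Finsupp.weight g α ≤ S * δ / 2 ^ g l

/-- **Two points at one time**: `sl` the coordinates which are small. -/
theorem diff_one {n N : ℕ} {F : PN} (hv : F.vars ⊆ range n) (hN : F.totalDegree ≤ N)
    {g : ℕ → ℕ} {l : ℕ} {B S δ : ℝ} (hB : 1 ≤ B) (hS : 0 ≤ S) (hδ : 0 ≤ δ) (sl : ℕ → Prop)
    (hF : ∀ α, Sm g l F S 1 α)
    (hs : ∀ α ∈ exs n N, (∃ k, 1 ≤ k ∧ α k ≠ 0) → (∀ k, 1 ≤ k → α k ≠ 0 → ¬ sl k) →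
      Sm g l F S δ α) {b b' : ℕ → ℝ} (hb : ∀ i < n, |b i| ≤ B / 2 ^ g i)
    (hb' : ∀ i < n, |b' i| ≤ B / 2 ^ g i) (h0 : b 0 = b' 0)
    (hsb : ∀ i < n, sl i → |b i| ≤ B * δ / 2 ^ g i)
    (hsb' : ∀ i < n, sl i → |b' i| ≤ B * δ / 2 ^ g i) :
    |eval b F - eval b' F| ≤ (exs n N).card * (2 * B ^ (n * N) * S) * δ / 2 ^ g l := by
  rw [eval_mon hv hN, eval_mon hv hN, ← Finset.sum_sub_distrib]
  refine (Finset.abs_sum_le_sum_abs _ _).trans ?_
  have key : ∀ α ∈ exs n N, |coeff α F * mon α b - coeff α F * mon α b'| ≤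
      (2 * B ^ (n * N) * S) * δ / 2 ^ g l := by
    intro α hα
    have g0 : (0 : ℝ) < 2 ^ g l := by positivity
    have hBN : 0 ≤ B ^ (n * N) := by positivity
    have hw : (0 : ℝ) ≤ (1 / 2) ^ Finsupp.weight g α := by positivity
    by_cases h1 : ∃ k, 1 ≤ k ∧ α k ≠ 0
    swap
    · push Not at h1
      rw [mon_time h1 h0, sub_self, abs_zero]
      positivity
    have two : ∀ x y : ℝ, |x| ≤ B ^ (n * N) * S * δ / 2 ^ g l →
        |y| ≤ B ^ (n * N) * S * δ / 2 ^ g l → |x - y| ≤ (2 * B ^ (n * N) * S) * δ / 2 ^ g l := by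
      intro x y hx hy
      refine (abs_sub _ _).trans ((add_le_add hx hy).trans (le_of_eq ?_))
      ring
    by_cases h2 : ∃ k, 1 ≤ k ∧ α k ≠ 0 ∧ sl k
    · obtain ⟨k, -, hk, hsk⟩ := h2
      have hkn := exs_lt hα (Finsupp.mem_support_iff.2 hk)
      have one : ∀ b : ℕ → ℝ, (∀ i < n, |b i| ≤ B / 2 ^ g i) → |b k| ≤ B * δ / 2 ^ g k →
          |coeff α F * mon α b| ≤ B ^ (n * N) * S * δ / 2 ^ g l := by
        intro b hb hbk
        have h3 := mon_small hB hδ hα hb hk hbk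
        have h4 : |coeff α F| * (1 / 2) ^ Finsupp.weight g α ≤ S * 1 / 2 ^ g l := hF α
        rw [abs_mul]
        calc |coeff α F| * |mon α b| ≤ |coeff α F| *
              (B ^ (n * N) * (1 / 2) ^ Finsupp.weight g α * δ) :=
              mul_le_mul_of_nonneg_left h3 (abs_nonneg _)
          _ = (B ^ (n * N) * δ) * (|coeff α F| * (1 / 2) ^ Finsupp.weight g α) := by ring
          _ ≤ (B ^ (n * N) * δ) * (S * 1 / 2 ^ g l) :=
              mul_le_mul_of_nonneg_left h4 (by positivity)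
          _ = B ^ (n * N) * S * δ / 2 ^ g l := by ring
      exact two _ _ (one b hb (hsb k hkn hsk)) (one b' hb' (hsb' k hkn hsk))
    · push Not at h2
      have h4 := hs α hα h1 h2
      unfold Sm at h4
      have one : ∀ b : ℕ → ℝ, (∀ i < n, |b i| ≤ B / 2 ^ g i) →
          |coeff α F * mon α b| ≤ B ^ (n * N) * S * δ / 2 ^ g l := by
        intro b hb
        have h3 := mon_le hB hα hb
        rw [abs_mul]
        calc |coeff α F| * |mon α b| ≤ |coeff α F| *
              (B ^ (n * N) * (1 / 2) ^ Finsupp.weight g α) :=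
              mul_le_mul_of_nonneg_left h3 (abs_nonneg _)
          _ = B ^ (n * N) * (|coeff α F| * (1 / 2) ^ Finsupp.weight g α) := by ring
          _ ≤ B ^ (n * N) * (S * δ / 2 ^ g l) := mul_le_mul_of_nonneg_left h4 (by positivity)
          _ = B ^ (n * N) * S * δ / 2 ^ g l := by ring
      exact two _ _ (one b hb) (one b' hb')
  refine (Finset.sum_le_sum key).trans (le_of_eq ?_)
  rw [Finset.sum_const, nsmul_eq_mul]
  ring

/-- **Two points at two times**: the differences are equal up to a small error. -/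
theorem diff_two {n N : ℕ} {F : PN} (hv : F.vars ⊆ range n) (hN : F.totalDegree ≤ N)
    {g : ℕ → ℕ} {l : ℕ} {B S δ : ℝ} (hB : 1 ≤ B) (hS : 0 ≤ S) (hδ : 0 ≤ δ) (sl : ℕ → Prop)
    (hF : ∀ α, Sm g l F S 1 α)
    (hs : ∀ α ∈ exs n N, (∃ k, 1 ≤ k ∧ α k ≠ 0) → (∀ k, 1 ≤ k → α k ≠ 0 → ¬ sl k) →
      Sm g l F S δ α ∨ ∃ k, 1 ≤ k ∧ α = Finsupp.single k 1) {b b' c c' : ℕ → ℝ}
    (hb : ∀ i < n, |b i| ≤ B / 2 ^ g i)
    (hb' : ∀ i < n, |b' i| ≤ B / 2 ^ g i) (hc : ∀ i < n, |c i| ≤ B / 2 ^ g i)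
    (hc' : ∀ i < n, |c' i| ≤ B / 2 ^ g i) (h0 : b 0 = b' 0) (h0' : c 0 = c' 0)
    (hsb : ∀ i < n, sl i → |b i| ≤ B * δ / 2 ^ g i)
    (hsb' : ∀ i < n, sl i → |b' i| ≤ B * δ / 2 ^ g i)
    (hsc : ∀ i < n, sl i → |c i| ≤ B * δ / 2 ^ g i)
    (hsc' : ∀ i < n, sl i → |c' i| ≤ B * δ / 2 ^ g i)
    (hd : ∀ i < n, 1 ≤ i → ¬ sl i → |c i - b i| ≤ B * δ / 2 ^ g i)
    (hd' : ∀ i < n, 1 ≤ i → ¬ sl i → |c' i - b' i| ≤ B * δ / 2 ^ g i) :
    |(eval c F - eval c' F) - (eval b F - eval b' F)| ≤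
      (exs n N).card * (4 * B ^ (n * N + 1) * S) * δ / 2 ^ g l := by
  rw [eval_mon hv hN, eval_mon hv hN, eval_mon hv hN b, eval_mon hv hN b',
    ← Finset.sum_sub_distrib, ← Finset.sum_sub_distrib, ← Finset.sum_sub_distrib]
  refine (Finset.abs_sum_le_sum_abs _ _).trans ?_
  have hBN : 0 ≤ B ^ (n * N) := by positivity
  have hBN1 : B ^ (n * N) ≤ B ^ (n * N + 1) := pow_le_pow_right₀ hB (by omega)
  have hB1 : B ≤ B ^ (n * N + 1) := by
    calc B = B ^ 1 := (pow_one B).symm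
      _ ≤ _ := pow_le_pow_right₀ hB (by omega)
  have key : ∀ α ∈ exs n N, |(coeff α F * mon α c - coeff α F * mon α c') -
      (coeff α F * mon α b - coeff α F * mon α b')| ≤
      (4 * B ^ (n * N + 1) * S) * δ / 2 ^ g l := by
    intro α hα
    have g0 : (0 : ℝ) < 2 ^ g l := by positivity
    have hw : (0 : ℝ) ≤ (1 / 2) ^ Finsupp.weight g α := by positivity
    by_cases h1 : ∃ k, 1 ≤ k ∧ α k ≠ 0
    swap
    · push Not at h1
      rw [mon_time h1 h0, mon_time h1 h0', sub_self, sub_self, sub_self, abs_zero]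
      positivity
    have four : ∀ x y u v : ℝ, |x| ≤ B ^ (n * N) * S * δ / 2 ^ g l →
        |y| ≤ B ^ (n * N) * S * δ / 2 ^ g l → |u| ≤ B ^ (n * N) * S * δ / 2 ^ g l →
        |v| ≤ B ^ (n * N) * S * δ / 2 ^ g l →
        |(x - y) - (u - v)| ≤ (4 * B ^ (n * N + 1) * S) * δ / 2 ^ g l := by
      intro x y u v hx hy hu hv
      have e1 : B ^ (n * N) * S * δ / 2 ^ g l ≤ B ^ (n * N + 1) * S * δ / 2 ^ g l :=
        div_le_div_of_nonneg_right (mul_le_mul_of_nonneg_right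
          (mul_le_mul_of_nonneg_right hBN1 hS) hδ) g0.le
      have e2 : (4 * B ^ (n * N + 1) * S) * δ / 2 ^ g l =
        4 * (B ^ (n * N + 1) * S * δ / 2 ^ g l) := by ring
      rw [abs_le] at hx hy hu hv ⊢
      rw [e2]
      constructor <;> linarith [hx.1, hx.2, hy.1, hy.2, hu.1, hu.2, hv.1, hv.2]
    by_cases h2 : ∃ k, 1 ≤ k ∧ α k ≠ 0 ∧ sl k
    · obtain ⟨k, -, hk, hsk⟩ := h2
      have hkn := exs_lt hα (Finsupp.mem_support_iff.2 hk)
      have one : ∀ b : ℕ → ℝ, (∀ i < n, |b i| ≤ B / 2 ^ g i) → |b k| ≤ B * δ / 2 ^ g k →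
          |coeff α F * mon α b| ≤ B ^ (n * N) * S * δ / 2 ^ g l := by
        intro b hb hbk
        have h3 := mon_small hB hδ hα hb hk hbk
        have h4 : |coeff α F| * (1 / 2) ^ Finsupp.weight g α ≤ S * 1 / 2 ^ g l := hF α
        rw [abs_mul]
        calc |coeff α F| * |mon α b| ≤ |coeff α F| *
              (B ^ (n * N) * (1 / 2) ^ Finsupp.weight g α * δ) :=
              mul_le_mul_of_nonneg_left h3 (abs_nonneg _)
          _ = (B ^ (n * N) * δ) * (|coeff α F| * (1 / 2) ^ Finsupp.weight g α) := by ring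
          _ ≤ (B ^ (n * N) * δ) * (S * 1 / 2 ^ g l) :=
              mul_le_mul_of_nonneg_left h4 (by positivity)
          _ = B ^ (n * N) * S * δ / 2 ^ g l := by ring
      exact four _ _ _ _ (one c hc (hsc k hkn hsk)) (one c' hc' (hsc' k hkn hsk))
        (one b hb (hsb k hkn hsk)) (one b' hb' (hsb' k hkn hsk))
    push Not at h2
    rcases hs α hα h1 h2 with h4 | ⟨k, hk1, hk⟩
    · unfold Sm at h4
      have one : ∀ b : ℕ → ℝ, (∀ i < n, |b i| ≤ B / 2 ^ g i) →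
          |coeff α F * mon α b| ≤ B ^ (n * N) * S * δ / 2 ^ g l := by
        intro b hb
        have h3 := mon_le hB hα hb
        rw [abs_mul]
        calc |coeff α F| * |mon α b| ≤ |coeff α F| *
              (B ^ (n * N) * (1 / 2) ^ Finsupp.weight g α) :=
              mul_le_mul_of_nonneg_left h3 (abs_nonneg _)
          _ = B ^ (n * N) * (|coeff α F| * (1 / 2) ^ Finsupp.weight g α) := by ring
          _ ≤ B ^ (n * N) * (S * δ / 2 ^ g l) := mul_le_mul_of_nonneg_left h4 (by positivity)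
          _ = B ^ (n * N) * S * δ / 2 ^ g l := by ring
      exact four _ _ _ _ (one c hc) (one c' hc') (one b hb) (one b' hb')
    · have hka : α k ≠ 0 := by
        rw [hk, Finsupp.single_eq_same]
        exact one_ne_zero
      have hkn := exs_lt hα (Finsupp.mem_support_iff.2 hka)
      have hns := h2 k hk1 hka
      have h4 : |coeff α F| * (1 / 2) ^ Finsupp.weight g α ≤ S * 1 / 2 ^ g l := hF α
      rw [hk] at h4 ⊢
      rw [Finsupp.weight_single, one_smul, half_pow] at h4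
      simp only [mon_single]
      have e1 : (coeff (Finsupp.single k 1) F * c k - coeff (Finsupp.single k 1) F * c' k) -
          (coeff (Finsupp.single k 1) F * b k - coeff (Finsupp.single k 1) F * b' k) =
          coeff (Finsupp.single k 1) F * ((c k - b k) - (c' k - b' k)) := by ring
      rw [e1, abs_mul]
      have h5 : |(c k - b k) - (c' k - b' k)| ≤ 2 * (B * δ / 2 ^ g k) := by
        have a1 := hd k hkn hk1 hns
        have a2 := hd' k hkn hk1 hns
        refine (abs_sub _ _).trans ?_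
        linarith
      calc |coeff (Finsupp.single k 1) F| * |(c k - b k) - (c' k - b' k)| ≤
            |coeff (Finsupp.single k 1) F| * (2 * (B * δ / 2 ^ g k)) :=
            mul_le_mul_of_nonneg_left h5 (abs_nonneg _)
        _ = (2 * B * δ) * (|coeff (Finsupp.single k 1) F| * (1 / 2 ^ g k)) := by ring
        _ ≤ (2 * B * δ) * (S * 1 / 2 ^ g l) := mul_le_mul_of_nonneg_left h4 (by positivity)
        _ = (2 * B * S) * δ / 2 ^ g l := by ring
        _ ≤ _ := by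
            refine div_le_div_of_nonneg_right (mul_le_mul_of_nonneg_right
              (mul_le_mul_of_nonneg_right ?_ hS) hδ) g0.le
            linarith
  refine (Finset.sum_le_sum key).trans (le_of_eq ?_)
  rw [Finset.sum_const, nsmul_eq_mul]
  ring

end Pool.P4L
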