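import Pool.Agent.H25.P4.LinB

/-!
# P4, lines over a closed frame: levels of the coefficients
-/

set_option autoImplicit false

namespace Pool.P4L

open Finset Real MvPolynomial
open Pool.STAT Pool.MIC.Frm Pool.FRM
open Pool.SYS35 (nrm_nonneg')

/-! ### Exponents -/

theorem wt_le {d d' : ℕ → ℕ} {n e : ℕ} {γ : ℕ →₀ ℕ} (hγ : ∀ k, γ k ≠ 0 → k < n)
    (h : ∀ k < n, d' k ≤ d k + e) :
    Finsupp.weight d' γ ≤ Finsupp.weight d γ + γ.degree * e := by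
  rw [Finsupp.weight_apply, Finsupp.weight_apply, Finsupp.degree_apply, Finsupp.sum, Finsupp.sum,
    Finset.sum_mul, ← Finset.sum_add_distrib]
  refine Finset.sum_le_sum fun k hk => ?_
  have h1 := h k (hγ k (Finsupp.mem_support_iff.1 hk))
  simp only [smul_eq_mul]
  calc γ k * d' k ≤ γ k * (d k + e) := Nat.mul_le_mul_left _ h1
    _ = γ k * d k + γ k * e := by ring

theorem split_exp {α : ℕ →₀ ℕ} {k : ℕ} (hk : α k ≠ 0) :
    (∃ (k' : ℕ) (γ : ℕ →₀ ℕ), 1 ≤ k' ∧ α = Finsupp.single k 1 + (Finsupp.single k' 1 + γ)) ∨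
      ∃ m : ℕ, α = Finsupp.single k 1 + Finsupp.single 0 m := by
  have one : ∀ (β : ℕ →₀ ℕ) (i : ℕ), β i ≠ 0 → ∃ γ : ℕ →₀ ℕ, β = Finsupp.single i 1 + γ :=
    fun β i hi => ⟨β - Finsupp.single i 1, (add_tsub_cancel_of_le
      (Finsupp.single_le_iff.2 (Nat.one_le_iff_ne_zero.2 hi))).symm⟩
  obtain ⟨β, hβ⟩ := one α k hk
  by_cases h : ∃ k', 1 ≤ k' ∧ β k' ≠ 0
  · obtain ⟨k', h1, h2⟩ := h
    obtain ⟨γ, hγ⟩ := one β k' h2
    exact Or.inl ⟨k', γ, h1, by rw [hβ, hγ]⟩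
  · push Not at h
    refine Or.inr ⟨β 0, ?_⟩
    rw [hβ]
    congr 1
    ext i
    rcases Nat.eq_zero_or_pos i with h0 | h0
    · rw [h0, Finsupp.single_eq_same]
    · rw [h i h0, Finsupp.single_eq_of_ne (by omega)]

/-- **Levels** at the base place (`g`), the place `L` (`gL`), `L''` (`gM`), the coarser places
(`g1`: a longer window, `g2`: a larger radius). -/
structure Lv (n c y z r a : ℕ) (sl gr : ℕ → Prop) (g gL gM g1 g2 : ℕ → ℕ) : Prop where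
  dich : ∀ l, 1 ≤ l → l ≤ n → sl l ∨ gr l
  t1 : g1 0 + r * z = g 0
  t2 : g2 0 = g 0
  ya : y ≤ a
  o1 : ∀ l, 1 ≤ l → l ≤ n → sl l → g l + y * z ≤ g1 l + r * z + c * z
  o2 : ∀ l, 1 ≤ l → l ≤ n → gr l → g l + y * z ≤ g1 l + 2 * (r * z) + c * z
  l1 : ∀ l, 1 ≤ l → l ≤ n → sl l → g l + y * z ≤ gL l + c * z
  l2 : ∀ l, 1 ≤ l → l ≤ n → gr l → g l + y * z ≤ gL l + r * z + c * z
  m1 : ∀ l, 1 ≤ l → l ≤ n → g l + y * z ≤ gM l + c * z
  q1 : ∀ k, 1 ≤ k → k ≤ n → g2 k + a * z ≤ g k + c * z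
  q2 : ∀ l, 1 ≤ l → l ≤ n → g l ≤ g2 l + a * z + c * z
  s1 : ∀ l k, 1 ≤ l → l ≤ n → 1 ≤ k → k ≤ n → sl l → gr k →
    g1 k + g l + y * z ≤ g k + g1 l + c * z
  s2 : ∀ l k, 1 ≤ l → l ≤ n → 1 ≤ k → k ≤ n → gr l → gr k →
    g1 k + g1 0 + g l + y * z ≤ g k + g 0 + g1 l + c * z

section

variable {n c y z r a : ℕ} {sl gr : ℕ → Prop} {g gL gM g1 g2 : ℕ → ℕ}

theorem Lv.quad (h : Lv n c y z r a sl gr g gL gM g1 g2) {l N k k' : ℕ} {γ : ℕ →₀ ℕ}
    (l1 : 1 ≤ l) (ln : l ≤ n) (k1 : 1 ≤ k) (k1' : 1 ≤ k')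
    (hα : Finsupp.single k 1 + (Finsupp.single k' 1 + γ) ∈ exs l N) :
    Finsupp.weight g2 (Finsupp.single k 1 + (Finsupp.single k' 1 + γ)) + g l + y * z ≤
      Finsupp.weight g (Finsupp.single k 1 + (Finsupp.single k' 1 + γ)) + g2 l +
        (n * N + 3) * (c * z) := by
  have hlt : ∀ i, (Finsupp.single k 1 + (Finsupp.single k' 1 + γ) : ℕ →₀ ℕ) i ≠ 0 → i < l :=
    fun i hi => exs_lt hα (Finsupp.mem_support_iff.2 hi)
  have hk : k < l := hlt k (by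
    rw [Finsupp.add_apply, Finsupp.single_eq_same]
    omega)
  have hk' : k' < l := hlt k' (by
    rw [Finsupp.add_apply, Finsupp.add_apply, Finsupp.single_eq_same]
    omega)
  have hγ : ∀ i, γ i ≠ 0 → i < l := fun i hi => hlt i (by
    rw [Finsupp.add_apply, Finsupp.add_apply]
    omega)
  have hdeg := exs_deg hα
  rw [← Finsupp.degree_apply, map_add, map_add, Finsupp.degree_single, Finsupp.degree_single]
    at hdeg
  have hd2 : γ.degree ≤ n * N := by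
    have : l * N ≤ n * N := Nat.mul_le_mul_right N ln
    omega
  have hw := wt_le (d := g) (d' := g2) (e := c * z) hγ fun i hi => by
    rcases Nat.eq_zero_or_pos i with h0 | h0
    · rw [h0, h.t2]
      exact Nat.le_add_right _ _
    · have := h.q1 i h0 (by omega)
      omega
  rw [map_add, map_add, map_add, map_add, Finsupp.weight_single, Finsupp.weight_single,
    Finsupp.weight_single, Finsupp.weight_single, one_smul, one_smul, one_smul, one_smul]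
  have e1 := h.q1 k k1 (by omega)
  have e2 := h.q1 k' k1' (by omega)
  have e3 := h.q2 l l1 ln
  have e4 : y * z ≤ a * z := Nat.mul_le_mul_right z h.ya
  have e5 : γ.degree * (c * z) ≤ n * N * (c * z) := Nat.mul_le_mul_right _ hd2
  have e6 : (n * N + 3) * (c * z) = n * N * (c * z) + 3 * (c * z) := by ring
  omega

theorem Lv.lin1 (h : Lv n c y z r a sl gr g gL gM g1 g2) {l k m : ℕ}
    (l1 : 1 ≤ l) (ln : l ≤ n) (k1 : 1 ≤ k) (kn : k ≤ n) (hl : sl l) (hk : gr k) :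
    Finsupp.weight g1 (Finsupp.single k 1 + Finsupp.single 0 m) + g l + y * z ≤
      Finsupp.weight g (Finsupp.single k 1 + Finsupp.single 0 m) + g1 l + c * z := by
  rw [map_add, map_add, Finsupp.weight_single, Finsupp.weight_single, Finsupp.weight_single,
    Finsupp.weight_single, one_smul, one_smul, smul_eq_mul, smul_eq_mul]
  have e1 := h.s1 l k l1 ln k1 kn hl hk
  have e2 : m * g1 0 ≤ m * g 0 := Nat.mul_le_mul_left m (by have := h.t1; omega)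
  omega

theorem Lv.lin2 (h : Lv n c y z r a sl gr g gL gM g1 g2) {l k m : ℕ}
    (l1 : 1 ≤ l) (ln : l ≤ n) (k1 : 1 ≤ k) (kn : k ≤ n) (hl : gr l) (hk : gr k) :
    Finsupp.weight g1 (Finsupp.single k 1 + Finsupp.single 0 (m + 1)) + g l + y * z ≤
      Finsupp.weight g (Finsupp.single k 1 + Finsupp.single 0 (m + 1)) + g1 l + c * z := by
  rw [map_add, map_add, Finsupp.weight_single, Finsupp.weight_single, Finsupp.weight_single,
    Finsupp.weight_single, one_smul, one_smul, smul_eq_mul, smul_eq_mul]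
  have e1 := h.s2 l k l1 ln k1 kn hl hk
  have e2 : m * g1 0 ≤ m * g 0 := Nat.mul_le_mul_left m (by have := h.t1; omega)
  have e3 : (m + 1) * g1 0 = m * g1 0 + g1 0 := by ring
  have e4 : (m + 1) * g 0 = m * g 0 + g 0 := by ring
  omega

/-- A coefficient from the norm at another place. -/
theorem sm_of {F : PN} {g g' : ℕ → ℕ} {l : ℕ} {S : ℝ} (hS : 0 ≤ S)
    (hF : nrm g' (1 / 2) F ≤ S / 2 ^ g' l) {α : ℕ →₀ ℕ} {u v : ℕ}
    (hw : Finsupp.weight g' α + g l + u ≤ Finsupp.weight g α + g' l + v) :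
    Sm g l F (S * 2 ^ v) (1 / 2 ^ u) α := by
  have h1 := (coeff_le_nrm g' (by norm_num : (0 : ℝ) ≤ 1 / 2) F α).trans hF
  unfold Sm
  rw [half_pow] at h1 ⊢
  rw [mul_one_div, div_le_div_iff₀ (by positivity) (by positivity)] at h1
  rw [mul_one_div, mul_one_div, div_div, div_le_div_iff₀ (by positivity) (by positivity)]
  have h2 : (2 : ℝ) ^ Finsupp.weight g' α * 2 ^ g l * 2 ^ u ≤
      2 ^ Finsupp.weight g α * 2 ^ g' l * 2 ^ v := by
    rw [← pow_add, ← pow_add, ← pow_add, ← pow_add]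
    exact pow_le_pow_right₀ one_le_two hw
  have h3 : (0 : ℝ) < 2 ^ g' l := by positivity
  have h4 : |coeff α F| * (2 ^ u * 2 ^ g l) * 2 ^ g' l ≤
      S * 2 ^ v * 2 ^ Finsupp.weight g α * 2 ^ g' l := by
    calc |coeff α F| * (2 ^ u * 2 ^ g l) * 2 ^ g' l
        = |coeff α F| * 2 ^ g' l * (2 ^ g l * 2 ^ u) := by ring
      _ ≤ S * 2 ^ Finsupp.weight g' α * (2 ^ g l * 2 ^ u) :=
          mul_le_mul_of_nonneg_right h1 (by positivity)
      _ = S * (2 ^ Finsupp.weight g' α * 2 ^ g l * 2 ^ u) := by ring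
      _ ≤ S * (2 ^ Finsupp.weight g α * 2 ^ g' l * 2 ^ v) := mul_le_mul_of_nonneg_left h2 hS
      _ = S * 2 ^ v * 2 ^ Finsupp.weight g α * 2 ^ g' l := by ring
  exact le_of_mul_le_mul_right h4 h3

theorem Sm.mono {F : PN} {g : ℕ → ℕ} {l : ℕ} {S S' δ : ℝ} {α : ℕ →₀ ℕ} (h : Sm g l F S δ α)
    (hS : S ≤ S') (hδ : 0 ≤ δ) : Sm g l F S' δ α := by
  unfold Sm at h ⊢
  exact h.trans (div_le_div_of_nonneg_right (mul_le_mul_of_nonneg_right hS hδ) (by positivity))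

/-- The coefficients are natural. -/
theorem sm_nat {F : PN} {g : ℕ → ℕ} {l : ℕ} {S S' : ℝ} (hF : nrm g (1 / 2) F ≤ S / 2 ^ g l)
    (hS : S ≤ S') (α : ℕ →₀ ℕ) : Sm g l F S' 1 α := by
  unfold Sm
  rw [mul_one]
  exact (coeff_le_nrm g (by norm_num : (0 : ℝ) ≤ 1 / 2) F α).trans
    (hF.trans (div_le_div_of_nonneg_right hS (by positivity)))

/-- A slow label: the coefficients without slow coordinates are small. -/
theorem Lv.sm_slow (h : Lv n c y z r a sl gr g gL gM g1 g2) {F : PN} {l N : ℕ} {S : ℝ}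
    (hS : 0 ≤ S) (l1 : 1 ≤ l) (ln : l ≤ n) (hl : sl l) (h1 : nrm g1 (1 / 2) F ≤ S / 2 ^ g1 l)
    (h2 : nrm g2 (1 / 2) F ≤ S / 2 ^ g2 l) {α : ℕ →₀ ℕ} (hα : α ∈ exs l N)
    (ha : ∃ k, 1 ≤ k ∧ α k ≠ 0) (hn : ∀ k, 1 ≤ k → α k ≠ 0 → ¬ sl k) :
    Sm g l F (S * 2 ^ ((n * N + 3) * (c * z))) (1 / 2 ^ (y * z)) α := by
  obtain ⟨k, k1, hk⟩ := ha
  have hkl := exs_lt hα (Finsupp.mem_support_iff.2 hk)
  have hkg : gr k := (h.dich k k1 (by omega)).resolve_left (hn k k1 hk)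
  rcases split_exp hk with ⟨k', γ, k1', e⟩ | ⟨m, e⟩
  · rw [e] at hα ⊢
    exact sm_of hS h2 (h.quad l1 ln k1 k1' hα)
  · rw [e]
    refine (sm_of hS h1 (h.lin1 l1 ln k1 (by omega) hl hkg)).mono ?_ (by positivity)
    refine mul_le_mul_of_nonneg_left (pow_le_pow_right₀ one_le_two ?_) hS
    exact Nat.le_mul_of_pos_left _ (by omega)

/-- A label of the group. -/
theorem Lv.sm_grp (h : Lv n c y z r a sl gr g gL gM g1 g2) {F : PN} {l N : ℕ} {S : ℝ}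
    (hS : 0 ≤ S) (l1 : 1 ≤ l) (ln : l ≤ n) (hl : gr l) (h1 : nrm g1 (1 / 2) F ≤ S / 2 ^ g1 l)
    (h2 : nrm g2 (1 / 2) F ≤ S / 2 ^ g2 l) {α : ℕ →₀ ℕ} (hα : α ∈ exs l N)
    (ha : ∃ k, 1 ≤ k ∧ α k ≠ 0) (hn : ∀ k, 1 ≤ k → α k ≠ 0 → ¬ sl k) :
    Sm g l F (S * 2 ^ ((n * N + 3) * (c * z))) (1 / 2 ^ (y * z)) α ∨
      ∃ k, 1 ≤ k ∧ α = Finsupp.single k 1 := by
  obtain ⟨k, k1, hk⟩ := ha
  have hkl := exs_lt hα (Finsupp.mem_support_iff.2 hk)
  have hkg : gr k := (h.dich k k1 (by omega)).resolve_left (hn k k1 hk)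
  rcases split_exp hk with ⟨k', γ, k1', e⟩ | ⟨m, e⟩
  · left
    rw [e] at hα ⊢
    exact sm_of hS h2 (h.quad l1 ln k1 k1' hα)
  · rcases Nat.eq_zero_or_pos m with hm | hm
    · right
      refine ⟨k, k1, ?_⟩
      rw [e, hm, Finsupp.single_zero, add_zero]
    · left
      obtain ⟨m', rfl⟩ : ∃ m', m = m' + 1 := ⟨m - 1, by omega⟩
      rw [e]
      refine (sm_of hS h1 (h.lin2 l1 ln k1 (by omega) hl hkg)).mono ?_ (by positivity)
      refine mul_le_mul_of_nonneg_left (pow_le_pow_right₀ one_le_two ?_) hS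
      exact Nat.le_mul_of_pos_left _ (by omega)

end

end Pool.P4L
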